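import Mathlib

/-!
# A decreasing cut-off function
-/

set_option autoImplicit false

open Set Filter Topology
open scoped ContDiff

noncomputable section

namespace Pool.Agent.H819.LN

/-- a smooth decreasing function, zero from `1` on -/
def eta (s : ℝ) : ℝ := expNegInvGlue (1 - s)

theorem eta_smooth : ContDiff ℝ ∞ eta := expNegInvGlue.contDiff.comp (by fun_prop)

theorem eta_nonneg (s : ℝ) : 0 ≤ eta s := expNegInvGlue.nonneg _

theorem eta_zero {s : ℝ} (h : 1 ≤ s) : eta s = 0 := expNegInvGlue.zero_of_nonpos (by linarith)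

theorem eta_anti : Antitone eta := fun _ _ h => expNegInvGlue.monotone (by linarith)

theorem eta_le_one (s : ℝ) : eta s ≤ 1 := by
  unfold eta expNegInvGlue
  split_ifs with h
  · exact zero_le_one
  · rw [not_le] at h
    refine Real.exp_le_one_iff.2 ?_
    have : 0 < (1 - s)⁻¹ := inv_pos.2 h
    linarith

theorem eta_half_pos : 0 < eta (1 / 2) := expNegInvGlue.pos_of_pos (by norm_num)

theorem eta_half_le {s : ℝ} (h : s ≤ 1 / 2) : eta (1 / 2) ≤ eta s := eta_anti h

theorem eta_hasDeriv (s : ℝ) : HasDerivAt eta (deriv eta s) s :=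
  ((eta_smooth.differentiable (by simp)) s).hasDerivAt

theorem deriv_eta_nonpos (s : ℝ) : deriv eta s ≤ 0 := eta_anti.deriv_nonpos

theorem deriv_eta_zero {s : ℝ} (h : 1 ≤ s) : deriv eta s = 0 := by
  have h1 : IsLocalMin eta s := by
    refine Eventually.of_forall fun t => ?_
    rw [eta_zero h]
    exact eta_nonneg t
  exact h1.deriv_eq_zero

theorem deriv_eta_cont : Continuous (deriv eta) :=
  eta_smooth.continuous_deriv (by simp)

theorem exists_deriv_bound : ∃ B : ℝ, 0 ≤ B ∧ ∀ s, 0 ≤ s → |deriv eta s| ≤ B := by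
  obtain ⟨B, hB⟩ := (isCompact_Icc (a := (0 : ℝ)) (b := 1)).exists_bound_of_continuousOn
    deriv_eta_cont.continuousOn
  refine ⟨|B|, abs_nonneg _, fun s hs => ?_⟩
  by_cases h : s ≤ 1
  · exact (hB s ⟨hs, h⟩).trans (le_abs_self B)
  · rw [deriv_eta_zero (by linarith), abs_zero]
    exact abs_nonneg _

end Pool.Agent.H819.LN
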