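import Mathlib
import Pool.Agent.H819.LG.Inv

/-!
# The linear algebra of the monotonicity formula
-/

set_option autoImplicit false

open Set Filter Topology MeasureTheory Metric
open scoped ContDiff ENNReal NNReal RealInnerProductSpace

noncomputable section

namespace Pool.Agent.H819.LN

open Pool.Agent.H819.LG (two_add_left two_add_right two_smul_left two_smul_right two_swap)

section bil

variable {V : Type} [NormedAddCommGroup V] [NormedSpace ℝ V]

/-- an alternating map in two variables as a bilinear map -/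
def bil (s : V [⋀^Fin 2]→L[ℝ] ℝ) : V →ₗ[ℝ] V →ₗ[ℝ] ℝ :=
  LinearMap.mk₂ ℝ (fun u v => s ![u, v]) (fun a b c => two_add_left s a b c)
    (fun r a c => two_smul_left s r a c) (fun a b c => two_add_right s a b c)
    (fun r a c => two_smul_right s r a c)

theorem bil_apply (s : V [⋀^Fin 2]→L[ℝ] ℝ) (u v : V) : bil s u v = s ![u, v] := rfl

theorem bil_swap (s : V [⋀^Fin 2]→L[ℝ] ℝ) (u v : V) : bil s u v = - bil s v u := two_swap s u v

end bil

variable {d : ℕ} {V : Type} [NormedAddCommGroup V] [InnerProductSpace ℝ V]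

/-- the adapted quadratic form -/
def qf (J : V →L[ℝ] V) (u : V) : ℝ := (‖u‖ ^ 2 + ‖J u‖ ^ 2) / 2

/-- half of its derivative -/
def dq (J : V →L[ℝ] V) (u v : V) : ℝ := ⟪u, v⟫ + ⟪J u, J v⟫

theorem dq_self (J : V →L[ℝ] V) (u : V) : dq J u u = 2 * qf J u := by
  unfold dq qf
  rw [real_inner_self_eq_norm_sq, real_inner_self_eq_norm_sq]
  ring

/-- an adapted basis: `J` is skew for the inner product `dq`, which is diagonal -/
structure Adapted (J : V →L[ℝ] V) (e : OrthonormalBasis (Fin d) ℝ V) (g : Fin d → ℝ) : Prop where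
  diag : ∀ (u : V) (i : Fin d), dq J u (e i) = 2 * g i * ⟪e i, u⟫
  skew : ∀ i j : Fin d, g j * ⟪e j, J (e i)⟫ = - (g i * ⟪e i, J (e j)⟫)
  lower : ∀ i, 1 / 2 ≤ g i
  upper : ∀ i, 2 * g i ≤ 1 + ‖J‖ ^ 2

theorem exists_adapted [FiniteDimensional ℝ V] (hd : Module.finrank ℝ V = d) (J : V →L[ℝ] V)
    (hJ : ∀ u, J (J u) = -u) :
    ∃ (e : OrthonormalBasis (Fin d) ℝ V) (g : Fin d → ℝ), Adapted J e g := by
  have : CompleteSpace V := FiniteDimensional.complete ℝ V
  set G : V →L[ℝ] V := (1 / 2 : ℝ) • (ContinuousLinearMap.id ℝ V +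
    (ContinuousLinearMap.adjoint J).comp J) with hG
  have hGi : ∀ u v, ⟪G u, v⟫ = dq J u v / 2 := by
    intro u v
    have h1 : G u = (1 / 2 : ℝ) • (u + ContinuousLinearMap.adjoint J (J u)) := by
      rw [hG]; rfl
    rw [h1, inner_smul_left, inner_add_left, ContinuousLinearMap.adjoint_inner_left]
    unfold dq
    simp
    ring
  have hsymm : (G : V →ₗ[ℝ] V).IsSymmetric := by
    intro u v
    have h1 := hGi u v
    have h2 := hGi v u
    have h3 : dq J u v = dq J v u := by
      unfold dq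
      rw [real_inner_comm, real_inner_comm (J u)]
    show ⟪G u, v⟫ = ⟪u, G v⟫
    rw [real_inner_comm (G v) u, h1, h2, h3]
  set e := hsymm.eigenvectorBasis hd with he
  set g := hsymm.eigenvalues hd with hg
  have hGe : ∀ i, G (e i) = g i • e i := by
    intro i
    have := hsymm.apply_eigenvectorBasis hd i
    exact this
  have hdiag : ∀ (u : V) (i : Fin d), dq J u (e i) = 2 * g i * ⟪e i, u⟫ := by
    intro u i
    have h1 : dq J u (e i) = 2 * ⟪u, G (e i)⟫ := by
      have h2 := hGi u (e i)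
      have h3 : ⟪G u, e i⟫ = ⟪u, G (e i)⟫ := hsymm u (e i)
      rw [← h3, h2]; ring
    rw [h1, hGe, inner_smul_right, real_inner_comm]
    ring
  have hgi : ∀ i, 2 * g i = 1 + ‖J (e i)‖ ^ 2 := by
    intro i
    have h1 := hdiag (e i) i
    rw [dq_self, real_inner_self_eq_norm_sq, e.norm_eq_one] at h1
    unfold qf at h1
    rw [e.norm_eq_one] at h1
    linarith
  refine ⟨e, g, hdiag, ?_, ?_, ?_⟩
  · intro i j
    have h1 := hdiag (J (e i)) j
    have h2 := hdiag (J (e j)) i
    unfold dq at h1 h2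
    rw [hJ, inner_neg_left] at h1 h2
    have h3 : ⟪J (e i), e j⟫ = ⟪e j, J (e i)⟫ := real_inner_comm _ _
    have h4 : ⟪J (e j), e i⟫ = ⟪e i, J (e j)⟫ := real_inner_comm _ _
    have h5 : ⟪e i, J (e j)⟫ = ⟪J (e j), e i⟫ := real_inner_comm _ _
    rw [h3] at h1
    rw [h4] at h2
    nlinarith
  · intro i
    have := hgi i
    nlinarith [sq_nonneg ‖J (e i)‖]
  · intro i
    rw [hgi]
    have h1 := J.le_opNorm (e i)
    rw [e.norm_eq_one, mul_one] at h1
    have := pow_le_pow_left₀ (norm_nonneg _) h1 2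
    linarith

/-- the trace of a two-form -/
def tr (J : V →L[ℝ] V) (e : OrthonormalBasis (Fin d) ℝ V) (g : Fin d → ℝ)
    (s : V [⋀^Fin 2]→L[ℝ] ℝ) : ℝ := ∑ i, (g i)⁻¹ * s ![e i, J (e i)]

/-- the coefficients of the bivector -/
def pc (J : V →L[ℝ] V) (e : OrthonormalBasis (Fin d) ℝ V) (g : Fin d → ℝ) (j i : Fin d) : ℝ :=
  (g i)⁻¹ * ⟪e j, J (e i)⟫

theorem pc_skew {J : V →L[ℝ] V} {e : OrthonormalBasis (Fin d) ℝ V} {g : Fin d → ℝ}
    (h : Adapted J e g) (i j : Fin d) : pc J e g j i = - pc J e g i j := by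
  have h1 := h.skew i j
  have h2 : 0 < g i := by linarith [h.lower i]
  have h3 : 0 < g j := by linarith [h.lower j]
  unfold pc
  field_simp
  linarith

theorem pc_mul {J : V →L[ℝ] V} {e : OrthonormalBasis (Fin d) ℝ V} {g : Fin d → ℝ}
    (h : Adapted J e g) (i j : Fin d) : pc J e g j i * g j = - ⟪e i, J (e j)⟫ := by
  rw [pc_skew h i j]
  have h3 : 0 < g j := by linarith [h.lower j]
  unfold pc
  field_simp

theorem tr_eq {J : V →L[ℝ] V} {e : OrthonormalBasis (Fin d) ℝ V} {g : Fin d → ℝ}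
    (s : V [⋀^Fin 2]→L[ℝ] ℝ) :
    tr J e g s = ∑ i, ∑ j, pc J e g j i * s ![e i, e j] := by
  unfold tr pc
  refine Finset.sum_congr rfl fun i _ => ?_
  have h1 : J (e i) = ∑ j, ⟪e j, J (e i)⟫ • e j := (e.sum_repr' (J (e i))).symm
  have h2 : s ![e i, J (e i)] = ∑ j, ⟪e j, J (e i)⟫ * s ![e i, e j] := by
    rw [← bil_apply, h1, map_sum]
    refine Finset.sum_congr rfl fun j _ => ?_
    rw [map_smul, smul_eq_mul, ← h1, bil_apply]
  rw [h2, Finset.mul_sum]
  refine Finset.sum_congr rfl fun j _ => ?_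
  ring

/-- the derivative of the vector field `x ↦ h(q x) x` in the direction `v`, component `a` -/
def dX (J : V →L[ℝ] V) (e : OrthonormalBasis (Fin d) ℝ V) (u : V) (h h' : ℝ) (a : Fin d) (v : V) :
    ℝ := h' * dq J u v * ⟪e a, u⟫ + h * ⟪e a, v⟫

/-- **The pointwise identity.** -/
theorem identity {J : V →L[ℝ] V} {e : OrthonormalBasis (Fin d) ℝ V} {g : Fin d → ℝ}
    (hA : Adapted J e g) (s : V [⋀^Fin 2]→L[ℝ] ℝ) (u : V) (h h' : ℝ) :
    ∑ a, ∑ i, ∑ j, pc J e g j i * (s ![e i, e j] * dX J e u h h' a (e a) +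
      s ![e j, e a] * dX J e u h h' a (e i) + s ![e a, e i] * dX J e u h h' a (e j)) =
    tr J e g s * (2 * h' * qf J u + ((d : ℝ) - 2) * h) - 4 * h' * s ![u, J u] := by
  have hself : ∑ a, ⟪e a, e a⟫ = (d : ℝ) := by
    simp
  have hdiv : ∑ a, dX J e u h h' a (e a) = h' * (2 * qf J u) + h * d := by
    unfold dX
    rw [Finset.sum_add_distrib, ← Finset.mul_sum, hself]
    congr 1
    rw [← dq_self]
    have h1 : ∀ a, h' * dq J u (e a) * ⟪e a, u⟫ = h' * (⟪e a, u⟫ * dq J u (e a)) := by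
      intro a; ring
    rw [Finset.sum_congr rfl fun a _ => h1 a, ← Finset.mul_sum]
    congr 1
    have h2 : u = ∑ a, ⟪e a, u⟫ • e a := (e.sum_repr' u).symm
    have h3 : dq J u u = ∑ a, ⟪e a, u⟫ * dq J u (e a) := by
      have h4 : ∀ v : V, dq J u v = (innerSL ℝ u + (innerSL ℝ (J u)).comp J) v := fun v => rfl
      have h5 : dq J u u = (innerSL ℝ u + (innerSL ℝ (J u)).comp J) (∑ a, ⟪e a, u⟫ • e a) := by
        rw [← h2]; rfl
      rw [h5, map_sum]
      refine Finset.sum_congr rfl fun a _ => ?_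
      rw [map_smul, smul_eq_mul]
      rfl
    rw [h3]
  have hS1 : ∑ a, ∑ i, ∑ j, pc J e g j i * (s ![e i, e j] * dX J e u h h' a (e a)) =
      tr J e g s * (h' * (2 * qf J u) + h * d) := by
    rw [← hdiv, tr_eq, Finset.mul_sum]
    refine Finset.sum_congr rfl fun a _ => ?_
    rw [Finset.sum_mul]
    refine Finset.sum_congr rfl fun i _ => ?_
    rw [Finset.sum_mul]
    refine Finset.sum_congr rfl fun j _ => ?_
    ring
  have hvec : ∀ v : V, ∑ a, dX J e u h h' a v • e a = (h' * dq J u v) • u + h • v := by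
    intro v
    unfold dX
    have h2 : u = ∑ a, ⟪e a, u⟫ • e a := (e.sum_repr' u).symm
    have h3 : v = ∑ a, ⟪e a, v⟫ • e a := (e.sum_repr' v).symm
    have h4 : ∀ a, (h' * dq J u v * ⟪e a, u⟫ + h * ⟪e a, v⟫) • e a =
        (h' * dq J u v) • ⟪e a, u⟫ • e a + h • ⟪e a, v⟫ • e a := by
      intro a
      simp only [add_smul, mul_smul]
    rw [Finset.sum_congr rfl fun a _ => h4 a, Finset.sum_add_distrib, ← Finset.smul_sum,
      ← Finset.smul_sum, ← h2, ← h3]
  have hS3 : ∑ a, ∑ i, ∑ j, pc J e g j i * (s ![e a, e i] * dX J e u h h' a (e j)) =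
      - 2 * h' * s ![u, J u] - h * tr J e g s := by
    have h1 : ∑ a, ∑ i, ∑ j, pc J e g j i * (s ![e a, e i] * dX J e u h h' a (e j)) =
        ∑ i, ∑ j, pc J e g j i * bil s (∑ a, dX J e u h h' a (e j) • e a) (e i) := by
      rw [Finset.sum_comm]
      refine Finset.sum_congr rfl fun i _ => ?_
      rw [Finset.sum_comm]
      refine Finset.sum_congr rfl fun j _ => ?_
      rw [map_sum, LinearMap.sum_apply, Finset.mul_sum]
      refine Finset.sum_congr rfl fun a _ => ?_
      rw [map_smul, LinearMap.smul_apply, smul_eq_mul, bil_apply]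
      ring
    rw [h1]
    have h2 : ∀ i j, pc J e g j i * bil s (∑ a, dX J e u h h' a (e j) • e a) (e i) =
        2 * h' * (- ⟪e i, J (e j)⟫ * ⟪e j, u⟫ * bil s u (e i)) +
          h * (pc J e g j i * s ![e j, e i]) := by
      intro i j
      rw [hvec, map_add, map_smul, map_smul, LinearMap.add_apply, LinearMap.smul_apply,
        LinearMap.smul_apply, smul_eq_mul, smul_eq_mul, hA.diag, ← pc_mul hA i j, bil_apply,
        bil_apply]
      ring
    simp only [h2]
    simp only [Finset.sum_add_distrib, ← Finset.mul_sum]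
    have h3 : ∑ i, ∑ j, pc J e g j i * s ![e j, e i] = - tr J e g s := by
      rw [tr_eq, ← Finset.sum_neg_distrib]
      refine Finset.sum_congr rfl fun i _ => ?_
      rw [← Finset.sum_neg_distrib]
      refine Finset.sum_congr rfl fun j _ => ?_
      rw [two_swap s (e j) (e i)]
      ring
    have h4 : ∑ i, ∑ j, (- ⟪e i, J (e j)⟫ * ⟪e j, u⟫ * bil s u (e i)) = - s ![u, J u] := by
      have h5 : J u = ∑ i, ⟪e i, J u⟫ • e i := (e.sum_repr' (J u)).symm
      have h6 : s ![u, J u] = ∑ i, ⟪e i, J u⟫ * bil s u (e i) := by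
        rw [← bil_apply]
        conv_lhs => rw [h5]
        rw [map_sum]
        refine Finset.sum_congr rfl fun i _ => ?_
        rw [map_smul, smul_eq_mul]
      rw [h6, ← Finset.sum_neg_distrib]
      refine Finset.sum_congr rfl fun i _ => ?_
      have h7 : ⟪e i, J u⟫ = ∑ j, ⟪e i, J (e j)⟫ * ⟪e j, u⟫ := by
        have h8 : u = ∑ j, ⟪e j, u⟫ • e j := (e.sum_repr' u).symm
        conv_lhs => rw [h8]
        rw [map_sum, inner_sum]
        refine Finset.sum_congr rfl fun j _ => ?_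
        rw [map_smul, inner_smul_right]
        ring
      rw [h7, Finset.sum_mul, ← Finset.sum_neg_distrib]
      refine Finset.sum_congr rfl fun j _ => ?_
      ring
    rw [h3, h4]
    ring
  have hS2 : ∑ a, ∑ i, ∑ j, pc J e g j i * (s ![e j, e a] * dX J e u h h' a (e i)) =
      ∑ a, ∑ i, ∑ j, pc J e g j i * (s ![e a, e i] * dX J e u h h' a (e j)) := by
    refine Finset.sum_congr rfl fun a _ => ?_
    rw [Finset.sum_comm]
    refine Finset.sum_congr rfl fun i _ => ?_
    refine Finset.sum_congr rfl fun j _ => ?_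
    rw [pc_skew hA i j, two_swap s (e a) (e i)]
    ring
  have hsplit : ∑ a, ∑ i, ∑ j, pc J e g j i * (s ![e i, e j] * dX J e u h h' a (e a) +
      s ![e j, e a] * dX J e u h h' a (e i) + s ![e a, e i] * dX J e u h h' a (e j)) =
      (∑ a, ∑ i, ∑ j, pc J e g j i * (s ![e i, e j] * dX J e u h h' a (e a))) +
      (∑ a, ∑ i, ∑ j, pc J e g j i * (s ![e j, e a] * dX J e u h h' a (e i))) +
      (∑ a, ∑ i, ∑ j, pc J e g j i * (s ![e a, e i] * dX J e u h h' a (e j))) := by
    simp only [← Finset.sum_add_distrib, mul_add]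
  rw [hsplit, hS2, hS1, hS3]
  ring

end Pool.Agent.H819.LN
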