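import Mathlib
import Pool.Agent.H819.LN.Lin
import Pool.Agent.H819.LN.Eta

/-!
# Weakly closed two-forms are stationary
-/

set_option autoImplicit false

open Set Filter Topology MeasureTheory Metric
open scoped ContDiff ENNReal NNReal RealInnerProductSpace

noncomputable section

namespace Pool.Agent.H819.LN

open Pool.Agent.Y501.SY (E)
open Pool.Agent.H819.LG (int_bilin continuous_ev2 form2_le)
open Pool.Agent.Y431.SY (ev ev_apply)

variable {d : ℕ}

/-- closed in the sense of distributions on `U` -/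
def WeakClosed (U : Set (E d)) (θ : E d → (E d) [⋀^Fin 2]→L[ℝ] ℝ) : Prop :=
  ∀ φ : E d → ℝ, ContDiff ℝ ∞ φ → HasCompactSupport φ → tsupport φ ⊆ U → ∀ a b c : E d,
    ∫ z, (θ z ![b, c] * fderiv ℝ φ z a + θ z ![c, a] * fderiv ℝ φ z b +
      θ z ![a, b] * fderiv ℝ φ z c) = 0

theorem int_term {U S : Set (E d)} (hS : IsCompact S) (hSU : S ⊆ U)
    {θ : E d → (E d) [⋀^Fin 2]→L[ℝ] ℝ} (hθ : LocallyIntegrableOn θ U) {ψ : E d → ℝ}
    (hψ : Continuous ψ) (h0 : ∀ z, z ∉ S → ψ z = 0) (v : Fin 2 → E d) :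
    Integrable (fun z => θ z v * ψ z) := by
  have h1 := int_bilin (ContinuousLinearMap.lsmul ℝ ℝ) hS hSU hψ h0 hθ
  have h2 := (ev v).integrable_comp h1
  refine h2.congr (Eventually.of_forall fun z => ?_)
  show (ψ z • θ z) v = _
  rw [ContinuousAlternatingMap.smul_apply, smul_eq_mul, mul_comm]

section q

variable {V : Type} [NormedAddCommGroup V] [InnerProductSpace ℝ V]

theorem qf_nonneg (J : V →L[ℝ] V) (u : V) : 0 ≤ qf J u := by unfold qf; positivity

theorem qf_lower (J : V →L[ℝ] V) (u : V) : ‖u‖ ^ 2 ≤ 2 * qf J u := by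
  unfold qf
  nlinarith [sq_nonneg ‖J u‖]

theorem qf_upper (J : V →L[ℝ] V) {M : ℝ} (hM : ‖J‖ ≤ M) (u : V) :
    2 * qf J u ≤ (1 + M ^ 2) * ‖u‖ ^ 2 := by
  unfold qf
  have h1 : ‖J u‖ ≤ M * ‖u‖ := (J.le_opNorm u).trans (by gcongr)
  have h2 := pow_le_pow_left₀ (norm_nonneg _) h1 2
  nlinarith

theorem qf_hasFDeriv (J : V →L[ℝ] V) (u : V) :
    HasFDerivAt (qf J) (innerSL ℝ u + (innerSL ℝ (J u)).comp J) u := by
  have h1 : HasFDerivAt (fun u : V => ‖u‖ ^ 2) (2 • (innerSL ℝ u)) u := by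
    have h0 : HasFDerivAt (fun u : V => u) (ContinuousLinearMap.id ℝ V) u := hasFDerivAt_id u
    have := HasFDerivAt.norm_sq h0
    simpa using this
  have h2 : HasFDerivAt (fun u : V => ‖J u‖ ^ 2) (2 • (innerSL ℝ (J u)).comp J) u :=
    HasFDerivAt.norm_sq (J.hasFDerivAt (x := u))
  have h3 := (h1.add h2).mul_const (1 / 2)
  have h4 : (fun u : V => (‖u‖ ^ 2 + ‖J u‖ ^ 2) * (1 / 2)) = qf J := by
    funext u
    unfold qf
    ring
  have h5 : HasFDerivAt (fun u : V => (‖u‖ ^ 2 + ‖J u‖ ^ 2) * (1 / 2)) _ u := h3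
  rw [h4] at h5
  refine h5.congr_fderiv ?_
  ext v
  simp

theorem qf_smooth (J : V →L[ℝ] V) : ContDiff ℝ ∞ (qf J) := by
  unfold qf
  have h1 : ContDiff ℝ ∞ (fun u : V => ‖u‖ ^ 2) := contDiff_norm_sq ℝ
  have h2 : ContDiff ℝ ∞ (fun u : V => ‖J u‖ ^ 2) := J.contDiff.norm_sq ℝ
  exact (h1.add h2).div_const 2

end q

/-- **Stationarity.** -/
theorem stationary {U : Set (E d)} {θ : E d → (E d) [⋀^Fin 2]→L[ℝ] ℝ}
    (hθ : LocallyIntegrableOn θ U) (hw : WeakClosed U θ) {J : E d →L[ℝ] E d}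
    {e : OrthonormalBasis (Fin d) ℝ (E d)} {g : Fin d → ℝ} (hA : Adapted J e g) {z₀ : E d} {r : ℝ}
    (hB : closedBall z₀ r ⊆ U) {h : ℝ → ℝ} (hh : ContDiff ℝ ∞ h)
    (h0 : ∀ s, r ^ 2 / 4 ≤ s → h s = 0) (hr : 0 < r) :
    ∫ z, (tr J e g (θ z) * (2 * deriv h (qf J (z - z₀)) * qf J (z - z₀) +
      ((d : ℝ) - 2) * h (qf J (z - z₀))) -
      4 * deriv h (qf J (z - z₀)) * θ z ![z - z₀, J (z - z₀)]) = 0 := by
  set S := closedBall z₀ r with hS
  have hSc : IsCompact S := isCompact_closedBall _ _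
  set q : E d → ℝ := fun z => qf J (z - z₀) with hq
  have hqs : ContDiff ℝ ∞ q := (qf_smooth J).comp (by fun_prop)
  have hqd : ∀ z, HasFDerivAt q (innerSL ℝ (z - z₀) + (innerSL ℝ (J (z - z₀))).comp J) z := by
    intro z
    have h1 : HasFDerivAt (fun z : E d => z - z₀) (ContinuousLinearMap.id ℝ (E d)) z :=
      (hasFDerivAt_id z).sub_const z₀
    exact (qf_hasFDeriv J (z - z₀)).comp z h1
  have hout : ∀ z, z ∉ S → r ^ 2 / 4 < q z := by
    intro z hz
    rw [hS, mem_closedBall, dist_eq_norm, not_le] at hz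
    have h1 := qf_lower J (z - z₀)
    have h2 : r ^ 2 < ‖z - z₀‖ ^ 2 := pow_lt_pow_left₀ hz hr.le (by norm_num)
    show r ^ 2 / 4 < qf J (z - z₀)
    nlinarith
  have hhd : ∀ s, HasDerivAt h (deriv h s) s := fun s =>
    ((hh.differentiable (by simp)) s).hasDerivAt
  -- the vector field
  set Xf : Fin d → E d → ℝ := fun a z => h (q z) * ⟪e a, z - z₀⟫ with hXf
  have hXs : ∀ a, ContDiff ℝ ∞ (Xf a) := by
    intro a
    have h1 : ContDiff ℝ ∞ (fun z : E d => ⟪e a, z - z₀⟫) :=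
      (innerSL ℝ (e a)).contDiff.comp (contDiff_id.sub contDiff_const)
    exact (hh.comp hqs).mul h1
  have hXd : ∀ a z v, fderiv ℝ (Xf a) z v =
      dX J e (z - z₀) (h (q z)) (deriv h (q z)) a v := by
    intro a z v
    have h1 : HasFDerivAt (fun z => h (q z)) (deriv h (q z) • (innerSL ℝ (z - z₀) +
        (innerSL ℝ (J (z - z₀))).comp J)) z := (hhd (q z)).comp_hasFDerivAt z (hqd z)
    have h2 : HasFDerivAt (fun z : E d => ⟪e a, z - z₀⟫) (innerSL ℝ (e a)) z := by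
      have h3 : HasFDerivAt (fun z : E d => z - z₀) (ContinuousLinearMap.id ℝ (E d)) z :=
        (hasFDerivAt_id z).sub_const z₀
      exact (innerSL ℝ (e a)).hasFDerivAt.comp z h3
    have h4 : HasFDerivAt (Xf a) _ z := h1.mul h2
    rw [h4.fderiv]
    show h (q z) * ⟪e a, v⟫ + ⟪e a, z - z₀⟫ * (deriv h (q z) * (⟪z - z₀, v⟫ +
      ⟪J (z - z₀), J v⟫)) = _
    unfold dX dq
    ring
  have hXz : ∀ a z, z ∉ S → Xf a z = 0 := by
    intro a z hz
    show h (q z) * _ = 0
    rw [h0 _ (hout z hz).le, zero_mul]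
  have hXt : ∀ a, tsupport (Xf a) ⊆ S := by
    intro a
    refine closure_minimal (fun z hz => ?_) isClosed_closedBall
    by_contra h1
    exact hz (hXz a z h1)
  have hXc : ∀ a, HasCompactSupport (Xf a) := fun a =>
    hSc.of_isClosed_subset (isClosed_tsupport _) (hXt a)
  have hcl : ∀ a i j, ∫ z, (θ z ![e i, e j] * dX J e (z - z₀) (h (q z)) (deriv h (q z)) a (e a) +
      θ z ![e j, e a] * dX J e (z - z₀) (h (q z)) (deriv h (q z)) a (e i) +
      θ z ![e a, e i] * dX J e (z - z₀) (h (q z)) (deriv h (q z)) a (e j)) = 0 := by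
    intro a i j
    have h1 := hw (Xf a) (hXs a) (hXc a) ((hXt a).trans hB) (e a) (e i) (e j)
    simp only [hXd] at h1
    exact h1
  have hdc : ∀ a v, Continuous (fun z => dX J e (z - z₀) (h (q z)) (deriv h (q z)) a v) := by
    intro a v
    have h1 : Continuous (fun z => fderiv ℝ (Xf a) z v) :=
      ((hXs a).continuous_fderiv (by simp)).clm_apply continuous_const
    simp only [hXd] at h1
    exact h1
  have hd0 : ∀ a v z, z ∉ S → dX J e (z - z₀) (h (q z)) (deriv h (q z)) a v = 0 := by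
    intro a v z hz
    rw [← hXd, fderiv_of_notMem_tsupport (𝕜 := ℝ) (fun h1 => hz (hXt a h1))]
    rfl
  have hint : ∀ a i j, Integrable (fun z => θ z ![e i, e j] *
      dX J e (z - z₀) (h (q z)) (deriv h (q z)) a (e a) +
      θ z ![e j, e a] * dX J e (z - z₀) (h (q z)) (deriv h (q z)) a (e i) +
      θ z ![e a, e i] * dX J e (z - z₀) (h (q z)) (deriv h (q z)) a (e j)) := by
    intro a i j
    exact ((int_term hSc hB hθ (hdc a _) (hd0 a _) _).add
      (int_term hSc hB hθ (hdc a _) (hd0 a _) _)).add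
      (int_term hSc hB hθ (hdc a _) (hd0 a _) _)
  have hsum : ∫ z, ∑ a, ∑ i, ∑ j, pc J e g j i * (θ z ![e i, e j] *
      dX J e (z - z₀) (h (q z)) (deriv h (q z)) a (e a) +
      θ z ![e j, e a] * dX J e (z - z₀) (h (q z)) (deriv h (q z)) a (e i) +
      θ z ![e a, e i] * dX J e (z - z₀) (h (q z)) (deriv h (q z)) a (e j)) = 0 := by
    rw [integral_finsetSum _ fun a _ => integrable_finsetSum _ fun i _ =>
      integrable_finsetSum _ fun j _ => (hint a i j).const_mul _]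
    refine Finset.sum_eq_zero fun a _ => ?_
    rw [integral_finsetSum _ fun i _ => integrable_finsetSum _ fun j _ =>
      (hint a i j).const_mul _]
    refine Finset.sum_eq_zero fun i _ => ?_
    rw [integral_finsetSum _ fun j _ => (hint a i j).const_mul _]
    refine Finset.sum_eq_zero fun j _ => ?_
    rw [integral_const_mul, hcl, mul_zero]
  rw [← hsum]
  refine integral_congr_ae (Eventually.of_forall fun z => ?_)
  show _ = ∑ a, ∑ i, ∑ j, _
  rw [identity hA]

end Pool.Agent.H819.LN
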