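import Mathlib
import Pool.Agent.H819.LG.Cov
import Pool.Agent.H819.LG.Prim2
import Pool.Agent.H819.LN.Stat

/-!
# Weakly exact forms plus smooth closed forms are weakly closed
-/

set_option autoImplicit false

open Set Filter Topology MeasureTheory Metric
open scoped Manifold ContDiff ENNReal NNReal

noncomputable section

namespace Pool.Agent.H819.LN

open Pool.Agent.Y501.SY
open Pool.Agent.H819.LG
open Pool.Agent.Y431.SY (ev ev_apply)

variable {d : ℕ}

/-- the integral of a derivative of a compactly supported function -/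
theorem int_fderiv_zero {g : E d → ℝ} (hg : ContDiff ℝ 1 g) (hc : HasCompactSupport g) (a : E d) :
    Integrable (fun z => fderiv ℝ g z a) ∧ ∫ z, fderiv ℝ g z a = 0 := by
  have h1 : Continuous (fun z => fderiv ℝ g z a) :=
    (hg.continuous_fderiv (by simp)).clm_apply continuous_const
  have h2 : HasCompactSupport (fun z => fderiv ℝ g z a) := by
    refine hc.fderiv (𝕜 := ℝ) |>.comp_left (g := fun L : E d →L[ℝ] ℝ => L a) ?_
    rfl
  have h3 : Integrable (fun z => fderiv ℝ g z a) := h1.integrable_of_hasCompactSupport h2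
  refine ⟨h3, ?_⟩
  have h4 := integral_mul_fderiv_eq_neg_fderiv_mul_of_integrable (𝕜 := ℝ) (μ := volume)
    (f := fun _ : E d => (1 : ℝ)) (g := g) (v := a) (by simp) (by simpa using h3)
    (by simpa using hg.continuous.integrable_of_hasCompactSupport hc)
    (fun _ _ => differentiableAt_const _) (fun x _ => hg.differentiable (by simp) x)
  simpa using h4

theorem int3 {f g h : E d → ℝ} (hf : Integrable f) (hg : Integrable g) (hh : Integrable h) :
    ∫ z, (f z + g z + h z) = (∫ z, f z) + (∫ z, g z) + ∫ z, h z := by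
  have h1 : Integrable (fun z => f z + g z) := hf.add hg
  rw [integral_add h1 hh, integral_add hf hg]

theorem int3_int {f g h : E d → ℝ} (hf : Integrable f) (hg : Integrable g) (hh : Integrable h) :
    Integrable (fun z => f z + g z + h z) := (hf.add hg).add hh

theorem dir_apply {φ : E d → ℝ} (hφ : ContDiff ℝ ∞ φ) (a b z : E d) :
    fderiv ℝ (fun z => fderiv ℝ φ z a) z b = fderiv ℝ (fderiv ℝ φ) z b a := by
  have h1 : ContDiff ℝ ∞ (fderiv ℝ φ) := hφ.fderiv_right (by simp)
  have h2 : HasFDerivAt (fderiv ℝ φ) (fderiv ℝ (fderiv ℝ φ) z) z :=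
    (h1.differentiable (by simp) z).hasFDerivAt
  have h3 := h2.clm_apply (hasFDerivAt_const a z)
  rw [h3.fderiv]
  simp

theorem dir_symm {φ : E d → ℝ} (hφ : ContDiff ℝ ∞ φ) (a b z : E d) :
    fderiv ℝ (fun z => fderiv ℝ φ z a) z b = fderiv ℝ (fun z => fderiv ℝ φ z b) z a := by
  rw [dir_apply hφ, dir_apply hφ]
  exact (hφ.contDiffAt (x := z)).isSymmSndFDerivAt smooth2 b a

theorem dir_smooth {φ : E d → ℝ} (hφ : ContDiff ℝ ∞ φ) (a : E d) :
    ContDiff ℝ ∞ (fun z => fderiv ℝ φ z a) :=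
  (hφ.fderiv_right (by simp)).clm_apply contDiff_const

theorem dir_tsupport (φ : E d → ℝ) (a : E d) :
    tsupport (fun z => fderiv ℝ φ z a) ⊆ tsupport φ := by
  refine closure_minimal (fun z hz => ?_) (isClosed_tsupport φ)
  by_contra h
  apply hz
  show fderiv ℝ φ z a = 0
  rw [fderiv_of_notMem_tsupport (𝕜 := ℝ) h]
  rfl

theorem swap2 (s : (E d) [⋀^Fin 2]→L[ℝ] ℝ) (x z : E d) : s ![x, z] = - s ![z, x] := by
  have h := s.map_swap ![z, x] (i := 0) (j := 1) (by decide)
  have e : (![z, x] ∘ (Equiv.swap (0 : Fin 2) 1)) = ![x, z] := by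
    funext i; fin_cases i <;> rfl
  rw [e] at h
  exact h

/-- the smooth part -/
theorem smooth_part {U : Set (E d)} (hU : IsOpen U) {θ : E d → (E d) [⋀^Fin 2]→L[ℝ] ℝ}
    (hθ : ContDiffOn ℝ ∞ θ U) (hcl : ∀ z ∈ U, extDeriv θ z = 0) : WeakClosed U θ := by
  intro φ hφ hc ht a b c
  -- the products
  have key : ∀ v : Fin 2 → E d, ContDiff ℝ 1 (fun z => φ z * θ z v) := by
    intro v
    rw [contDiff_iff_contDiffAt]
    intro z
    by_cases hz : z ∈ U
    · have h1 : ContDiffAt ℝ ∞ (fun z => θ z v) z :=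
        (ev v).contDiff.contDiffAt.comp z (hθ.contDiffAt (hU.mem_nhds hz))
      exact ((hφ.contDiffAt).mul h1).of_le (by simp)
    · have h1 : z ∉ tsupport φ := fun h => hz (ht h)
      have h2 : (fun z => φ z * θ z v) =ᶠ[𝓝 z] fun _ => 0 := by
        filter_upwards [(isClosed_tsupport φ).isOpen_compl.mem_nhds h1] with y hy
        rw [image_eq_zero_of_notMem_tsupport hy, zero_mul]
      exact contDiffAt_const.congr_of_eventuallyEq h2
  have hsup : ∀ v : Fin 2 → E d, HasCompactSupport (fun z => φ z * θ z v) := fun v => hc.mul_right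
  have i1 := int_fderiv_zero (key ![b, c]) (hsup _) a
  have i2 := int_fderiv_zero (key ![c, a]) (hsup _) b
  have i3 := int_fderiv_zero (key ![a, b]) (hsup _) c
  have hsum : ∫ z, (fderiv ℝ (fun z => φ z * θ z ![b, c]) z a +
      fderiv ℝ (fun z => φ z * θ z ![c, a]) z b + fderiv ℝ (fun z => φ z * θ z ![a, b]) z c) = 0 := by
    rw [int3 i1.1 i2.1 i3.1, i1.2, i2.2, i3.2]
    simp
  rw [← hsum]
  refine integral_congr_ae (Eventually.of_forall fun z => ?_)
  show θ z ![b, c] * fderiv ℝ φ z a + θ z ![c, a] * fderiv ℝ φ z b +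
      θ z ![a, b] * fderiv ℝ φ z c = fderiv ℝ (fun z => φ z * θ z ![b, c]) z a +
      fderiv ℝ (fun z => φ z * θ z ![c, a]) z b + fderiv ℝ (fun z => φ z * θ z ![a, b]) z c
  by_cases hz : z ∈ U
  · have hd : DifferentiableAt ℝ θ z := (hθ.contDiffAt (hU.mem_nhds hz)).differentiableAt (by simp)
    have hφd : DifferentiableAt ℝ φ z := hφ.differentiable (by simp) z
    have hev : ∀ v : Fin 2 → E d, HasFDerivAt (fun z => θ z v) ((ev v).comp (fderiv ℝ θ z)) z :=
      fun v => (ev v).hasFDerivAt.comp z hd.hasFDerivAt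
    have hpr : ∀ (v : Fin 2 → E d) (w : E d), fderiv ℝ (fun z => φ z * θ z v) z w =
        φ z * fderiv ℝ θ z w v + θ z v * fderiv ℝ φ z w := by
      intro v w
      have h1 := hev v
      have h2 := (hφd.hasFDerivAt.mul h1).fderiv
      have h3 : fderiv ℝ (fun z => φ z * θ z v) z =
        φ z • (ev v).comp (fderiv ℝ θ z) + θ z v • fderiv ℝ φ z := h2
      rw [h3]
      rfl
    have hx : fderiv ℝ θ z a ![b, c] + fderiv ℝ θ z b ![c, a] + fderiv ℝ θ z c ![a, b] = 0 := by
      have h1 : extDeriv θ z ![a, b, c] = 0 := by rw [hcl z hz]; rfl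
      rw [extDeriv_apply hd, Fin.sum_univ_three] at h1
      have e0 : (0 : Fin 3).removeNth ![a, b, c] = ![b, c] := by
        funext i; fin_cases i <;> rfl
      have e1 : (1 : Fin 3).removeNth ![a, b, c] = ![a, c] := by
        funext i; fin_cases i <;> rfl
      have e2 : (2 : Fin 3).removeNth ![a, b, c] = ![a, b] := by
        funext i; fin_cases i <;> rfl
      rw [e0, e1, e2, (hev _).fderiv, (hev _).fderiv, (hev _).fderiv] at h1
      have h2 : (fderiv ℝ θ z b) ![c, a] = - (fderiv ℝ θ z b) ![a, c] := swap2 _ _ _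
      have h3 : (((ev ![b, c]).comp (fderiv ℝ θ z)) a) - (((ev ![a, c]).comp (fderiv ℝ θ z)) b) +
          (((ev ![a, b]).comp (fderiv ℝ θ z)) c) = 0 := by
        rw [← h1]
        simp
        ring
      have h4 : (fderiv ℝ θ z a) ![b, c] - (fderiv ℝ θ z b) ![a, c] +
          (fderiv ℝ θ z c) ![a, b] = 0 := h3
      rw [h2]
      linarith
    rw [hpr, hpr, hpr]
    linear_combination (-φ z) * hx
  · have h1 : z ∉ tsupport φ := fun h => hz (ht h)
    have h2 : fderiv ℝ φ z = 0 := fderiv_of_notMem_tsupport (𝕜 := ℝ) h1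
    have h3 : ∀ (v : Fin 2 → E d), fderiv ℝ (fun z => φ z * θ z v) z = 0 := by
      intro v
      apply fderiv_of_notMem_tsupport (𝕜 := ℝ)
      intro h
      exact h1 (tsupport_mul_subset_left h)
    rw [h2, h3, h3, h3]
    simp

variable {X : Type} [TopologicalSpace X] [ChartedSpace (E d) X]

theorem int_term1 {U S : Set (E d)} (hS : IsCompact S) (hSU : S ⊆ U)
    {θ : E d → (E d) [⋀^Fin 1]→L[ℝ] ℝ} (hθ : LocallyIntegrableOn θ U) {ψ : E d → ℝ}
    (hψ : Continuous ψ) (h0 : ∀ z, z ∉ S → ψ z = 0) (v : Fin 1 → E d) :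
    Integrable (fun z => θ z v * ψ z) := by
  have h1 := int_bilin (ContinuousLinearMap.lsmul ℝ ℝ) hS hSU hψ h0 hθ
  have h2 := (ev v).integrable_comp h1
  refine h2.congr (Eventually.of_forall fun z => ?_)
  show (ψ z • θ z) v = _
  rw [ContinuousAlternatingMap.smul_apply, smul_eq_mul, mul_comm]

theorem weak_part {α : Form d X 1} {η : Form d X 2} (h : WeakPrim α η) (x₀ : X) :
    WeakClosed (chartAt (E d) x₀).target (pb (chartAt (E d) x₀).symm η) := by
  intro φ hφ hc ht a b c
  set A := pb (chartAt (E d) x₀).symm α with hA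
  set T := pb (chartAt (E d) x₀).symm η with hT
  set S := tsupport φ with hS
  have hSc : IsCompact S := hc
  have hD : ∀ w : E d, Continuous (fun z => fderiv ℝ φ z w) := fun w => (dir_smooth hφ w).continuous
  have hD0 : ∀ w z, z ∉ S → fderiv ℝ φ z w = 0 := by
    intro w z hz
    rw [fderiv_of_notMem_tsupport (𝕜 := ℝ) hz]
    rfl
  have hDD : ∀ w w' : E d, Continuous (fun z => fderiv ℝ (fun z => fderiv ℝ φ z w) z w') :=
    fun w w' => (dir_smooth (dir_smooth hφ w) w').continuous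
  have hDD0 : ∀ w w' z, z ∉ S → fderiv ℝ (fun z => fderiv ℝ φ z w) z w' = 0 := by
    intro w w' z hz
    rw [fderiv_of_notMem_tsupport (𝕜 := ℝ) (fun h' => hz (dir_tsupport φ w h'))]
    rfl
  have iT : ∀ (v : Fin 2 → E d) (w : E d), Integrable (fun z => T z v * fderiv ℝ φ z w) :=
    fun v w => int_term hSc ht (h.int2 x₀) (hD w) (hD0 w) v
  have iA : ∀ (v w w' : E d),
      Integrable (fun z => A z ![v] * fderiv ℝ (fun z => fderiv ℝ φ z w) z w') :=
    fun v w w' => int_term1 hSc ht (h.int1 x₀) (hDD w w') (hDD0 w w') _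
  have hw : ∀ (w u v : E d), ∫ z, T z ![u, v] * fderiv ℝ φ z w =
      - ∫ z, (A z ![v] * fderiv ℝ (fun z => fderiv ℝ φ z w) z u -
        A z ![u] * fderiv ℝ (fun z => fderiv ℝ φ z w) z v) := by
    intro w u v
    have h1 := h.weak x₀ (fun z => fderiv ℝ φ z w) (dir_smooth hφ w)
      (hSc.of_isClosed_subset (isClosed_tsupport _) (dir_tsupport φ w))
      ((dir_tsupport φ w).trans ht) u v
    rw [h1, neg_neg]
  rw [int3 (iT _ _) (iT _ _) (iT _ _), hw, hw, hw,
    integral_sub (iA _ _ _) (iA _ _ _), integral_sub (iA _ _ _) (iA _ _ _),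
    integral_sub (iA _ _ _) (iA _ _ _)]
  have s1 : (fun z => A z ![a] * fderiv ℝ (fun z => fderiv ℝ φ z b) z c) =
      fun z => A z ![a] * fderiv ℝ (fun z => fderiv ℝ φ z c) z b := by
    funext z; rw [dir_symm hφ b c z]
  have s2 : (fun z => A z ![b] * fderiv ℝ (fun z => fderiv ℝ φ z a) z c) =
      fun z => A z ![b] * fderiv ℝ (fun z => fderiv ℝ φ z c) z a := by
    funext z; rw [dir_symm hφ a c z]
  have s3 : (fun z => A z ![c] * fderiv ℝ (fun z => fderiv ℝ φ z a) z b) =
      fun z => A z ![c] * fderiv ℝ (fun z => fderiv ℝ φ z b) z a := by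
    funext z; rw [dir_symm hφ a b z]
  rw [s1, s2, s3]
  ring

variable [IsManifold (𝓡 d) ∞ X]

/-- **Weak closedness in the charts.** -/
theorem weakClosed_of {σ₀ : Form d X 2} (hσ : IsSmooth σ₀) (hcl : IsClosedForm σ₀)
    {α : Form d X 1} {η : Form d X 2} (h : WeakPrim α η) (x₀ : X) :
    LocallyIntegrableOn (pb (chartAt (E d) x₀).symm (σ₀ + η)) (chartAt (E d) x₀).target ∧
    WeakClosed (chartAt (E d) x₀).target (pb (chartAt (E d) x₀).symm (σ₀ + η)) := by
  have hsm := smooth_chart hσ x₀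
  have l1 : LocallyIntegrableOn (pb (chartAt (E d) x₀).symm σ₀) (chartAt (E d) x₀).target :=
    hsm.continuousOn.locallyIntegrableOn (chartAt (E d) x₀).open_target.measurableSet
  rw [pb_add]
  have l2 : LocallyIntegrableOn (pb (chartAt (E d) x₀).symm σ₀ + pb (chartAt (E d) x₀).symm η)
      (chartAt (E d) x₀).target := by
    intro x hx
    obtain ⟨s1, hs1, h1⟩ := l1 x hx
    obtain ⟨s2, hs2, h2⟩ := h.int2 x₀ x hx
    exact ⟨s1 ∩ s2, inter_mem hs1 hs2, int_add (h1.mono_set inter_subset_left)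
      (h2.mono_set inter_subset_right)⟩
  refine ⟨l2, ?_⟩
  intro φ hφ hc ht a b c
  have w1 := smooth_part (chartAt (E d) x₀).open_target hsm (closed_chart hcl x₀) φ hφ hc ht a b c
  have w2 := weak_part h x₀ φ hφ hc ht a b c
  set S := tsupport φ with hS
  have hSc : IsCompact S := hc
  have hD : ∀ w : E d, Continuous (fun z => fderiv ℝ φ z w) := fun w => (dir_smooth hφ w).continuous
  have hD0 : ∀ w z, z ∉ S → fderiv ℝ φ z w = 0 := by
    intro w z hz
    rw [fderiv_of_notMem_tsupport (𝕜 := ℝ) hz]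
    rfl
  have iT : ∀ (θ : E d → (E d) [⋀^Fin 2]→L[ℝ] ℝ) (_ : LocallyIntegrableOn θ (chartAt (E d) x₀).target)
      (v : Fin 2 → E d) (w : E d), Integrable (fun z => θ z v * fderiv ℝ φ z w) :=
    fun θ hθ v w => int_term hSc ht hθ (hD w) (hD0 w) v
  have j1 := int3_int (iT _ l1 ![b, c] a) (iT _ l1 ![c, a] b) (iT _ l1 ![a, b] c)
  have j2 := int3_int (iT _ (h.int2 x₀) ![b, c] a) (iT _ (h.int2 x₀) ![c, a] b)
    (iT _ (h.int2 x₀) ![a, b] c)
  have e1 := integral_add j1 j2
  rw [w1, w2, add_zero] at e1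
  rw [← e1]
  refine integral_congr_ae (Eventually.of_forall fun z => ?_)
  simp only [Pi.add_apply, ContinuousAlternatingMap.add_apply]
  ring

end Pool.Agent.H819.LN
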