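import Mathlib
import Pool.Agent.H819.LG.Lip

/-!
# Averages over a product of balls
-/

set_option autoImplicit false

open Set Filter Topology MeasureTheory Metric
open scoped ENNReal NNReal

noncomputable section

namespace Pool.Agent.H819.LN

/-- **Averages over a product of balls.**  If `ψ` is expanding by at least `1/2` in the `i`-th
variable (all other variables being fixed), then the average of `g ∘ ψ` over the product of balls
of radius `r` is at most `2 ^ d / |B_r|` times the integral of `g` over the target `T`.

Proof.  Let `B` be the closed ball of `ι → E` (sup norm: the product of the balls of `E`),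
`h = B.indicator (g ∘ ψ)` (measurable, see `Pool.Agent.H819.LG.average_le` in `LG/Lip.lean`,
where exactly this is done) and `b = B.indicator 1`.  For each `x : ι → E`
  `|B_r| * ∫⁻ u, h (Function.update x i u) ≤ 2 ^ d * (∫⁻ z in T, g z) * ∫⁻ u, b (Function.update x i u)`:
if `‖x j‖ > r` for one `j ≠ i` both integrands vanish; otherwise both integrals are over
`u ∈ closedBall 0 r`, the right one is `|B_r|`, and the left one is at most
`2 ^ d * ∫⁻ z in T, g z` by `Pool.Agent.H819.LG.lintegral_comp_le` applied to
`u ↦ ψ (Function.update x i u)` on `closedBall 0 r`.  Integrate over the other variables: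
`lintegral f = (∫⋯∫⁻_Finset.univ, f) x` (`lintegral_eq_lmarginal_univ`) and
`lmarginal_erase'`/`lmarginal_insert'`, `lmarginal_singleton`, `lmarginal_mono` (or
`MeasureTheory.volume_preserving_piEquivPiSubtypeProd`, or reduce to `Fin (n + 1)` and
`volume_preserving_piFinSuccAbove`). -/
theorem average_pi {d : ℕ} {ι : Type} [Fintype ι] [DecidableEq ι] (i : ι) {r : ℝ} (hr : 0 < r)
    {ψ : (ι → EuclideanSpace ℝ (Fin d)) → EuclideanSpace ℝ (Fin d)}
    {T : Set (EuclideanSpace ℝ (Fin d))} (hT : MeasurableSet T)
    (hψ : ContinuousOn ψ (closedBall 0 r)) (hψT : MapsTo ψ (closedBall 0 r) T)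
    (hexp : ∀ y ∈ closedBall (0 : ι → EuclideanSpace ℝ (Fin d)) r,
      ∀ v ∈ closedBall (0 : ι → EuclideanSpace ℝ (Fin d)) r,
      (∀ j, j ≠ i → y j = v j) → ‖y i - v i‖ ≤ 2 * ‖ψ y - ψ v‖)
    {g : EuclideanSpace ℝ (Fin d) → ℝ≥0∞} (hg : Measurable g) :
    volume (closedBall (0 : EuclideanSpace ℝ (Fin d)) r) *
      ∫⁻ y in closedBall (0 : ι → EuclideanSpace ℝ (Fin d)) r, g (ψ y) ≤
      2 ^ d * volume (closedBall (0 : ι → EuclideanSpace ℝ (Fin d)) r) * ∫⁻ z in T, g z := by
  classical
  set B : Set (ι → EuclideanSpace ℝ (Fin d)) := closedBall 0 r with hB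
  set D : Set (EuclideanSpace ℝ (Fin d)) := closedBall 0 r with hD
  have hBm : MeasurableSet B := measurableSet_closedBall
  have hDm : MeasurableSet D := measurableSet_closedBall
  have memB : ∀ y : ι → EuclideanSpace ℝ (Fin d), y ∈ B ↔ ∀ j, ‖y j‖ ≤ r := by
    intro y
    rw [hB, mem_closedBall_zero_iff, pi_norm_le_iff_of_nonneg hr.le]
  obtain ⟨h, hh⟩ : ∃ h : (ι → EuclideanSpace ℝ (Fin d)) → ℝ≥0∞,
    h = B.indicator (fun y => g (ψ y)) := ⟨_, rfl⟩
  have hhm : Measurable h := by
    rw [hh]
    have h1 : Measurable (B.piecewise ψ (fun _ => 0)) :=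
      hψ.measurable_piecewise continuousOn_const hBm
    have h2 : B.indicator (fun y => g (ψ y)) =
        B.indicator (fun y => g (B.piecewise ψ (fun _ => 0) y)) := by
      funext y
      by_cases hy : y ∈ B
      · rw [indicator_of_mem hy, indicator_of_mem hy, piecewise_eq_of_mem _ _ _ hy]
      · rw [indicator_of_notMem hy, indicator_of_notMem hy]
    rw [h2]
    exact (hg.comp h1).indicator hBm
  obtain ⟨b, hb⟩ : ∃ b : (ι → EuclideanSpace ℝ (Fin d)) → ℝ≥0∞,
    b = B.indicator (fun _ => 1) := ⟨_, rfl⟩
  have hbm : Measurable b := by
    rw [hb]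
    exact measurable_const.indicator hBm
  obtain ⟨J, hJ⟩ : ∃ J : ℝ≥0∞, J = ∫⁻ z in T, g z := ⟨_, rfl⟩
  -- the one-variable estimate
  have key : ∀ x : ι → EuclideanSpace ℝ (Fin d),
      ∫⁻ u, volume D * h (Function.update x i u) ≤ ∫⁻ u, 2 ^ d * J * b (Function.update x i u) := by
    intro x
    by_cases hx : ∀ j, j ≠ i → ‖x j‖ ≤ r
    · have hup : ∀ u : EuclideanSpace ℝ (Fin d), Function.update x i u ∈ B ↔ u ∈ D := by
        intro u
        rw [memB, hD, mem_closedBall_zero_iff]
        constructor
        · intro h1
          have := h1 i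
          rwa [Function.update_self] at this
        · intro h1 j
          by_cases hj : j = i
          · subst hj
            rwa [Function.update_self]
          · rw [Function.update_of_ne hj]
            exact hx j hj
      have e1 : ∫⁻ u, h (Function.update x i u) = ∫⁻ u in D, g (ψ (Function.update x i u)) := by
        rw [← lintegral_indicator hDm]
        congr 1
        funext u
        rw [hh]
        by_cases hu : u ∈ D
        · rw [indicator_of_mem hu, indicator_of_mem ((hup u).2 hu)]
        · rw [indicator_of_notMem hu, indicator_of_notMem fun h' => hu ((hup u).1 h')]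
      have e2 : ∫⁻ u, b (Function.update x i u) = volume D := by
        have e3 : (fun u => b (Function.update x i u)) = D.indicator fun _ => 1 := by
          funext u
          rw [hb]
          by_cases hu : u ∈ D
          · rw [indicator_of_mem hu, indicator_of_mem ((hup u).2 hu)]
          · rw [indicator_of_notMem hu, indicator_of_notMem fun h' => hu ((hup u).1 h')]
        rw [e3, lintegral_indicator hDm, lintegral_const, one_mul, Measure.restrict_apply_univ]
      have e4 : ∫⁻ u in D, g (ψ (Function.update x i u)) ≤ 2 ^ d * J := by
        rw [hJ]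
        refine Pool.Agent.H819.LG.lintegral_comp_le (f := fun u => ψ (Function.update x i u))
          hDm hT ?_ ?_ ?_ hg
        · have hcu : Continuous fun u : EuclideanSpace ℝ (Fin d) => Function.update x i u :=
            continuous_const.update i continuous_id
          refine hψ.comp hcu.continuousOn ?_
          intro u hu
          exact (hup u).2 hu
        · intro u hu
          exact hψT ((hup u).2 hu)
        · intro u hu v hv
          have h1 := hexp (Function.update x i u) ((hup u).2 hu) (Function.update x i v)
            ((hup v).2 hv) (fun j hj => by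
              rw [Function.update_of_ne hj, Function.update_of_ne hj])
          rwa [Function.update_self, Function.update_self] at h1
      have m1 : Measurable fun u : EuclideanSpace ℝ (Fin d) => h (Function.update x i u) :=
        hhm.comp (measurable_update x)
      have m2 : Measurable fun u : EuclideanSpace ℝ (Fin d) => b (Function.update x i u) :=
        hbm.comp (measurable_update x)
      rw [lintegral_const_mul _ m1, lintegral_const_mul _ m2, e1, e2, mul_comm]
      exact mul_le_mul_left e4 _
    · push Not at hx
      obtain ⟨j, hj, hxj⟩ := hx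
      have h0 : ∀ u : EuclideanSpace ℝ (Fin d), h (Function.update x i u) = 0 := by
        intro u
        rw [hh, indicator_of_notMem]
        intro h1
        have := (memB _).1 h1 j
        rw [Function.update_of_ne hj] at this
        exact absurd this (not_le.2 hxj)
      simp_rw [h0, mul_zero, lintegral_zero]
      exact zero_le
  have hle := lmarginal_le_of_subset (μ := fun _ : ι => (volume : Measure (EuclideanSpace ℝ (Fin d))))
    (s := {i}) (t := Finset.univ) (f := fun y => volume D * h y) (g := fun y => 2 ^ d * J * b y)
    (Finset.subset_univ _) (hhm.const_mul _) (hbm.const_mul _) (by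
      rw [lmarginal_singleton, lmarginal_singleton]
      exact fun x => key x)
  have hle0 := hle 0
  rw [lmarginal_univ, lmarginal_univ] at hle0
  have hfin : ∫⁻ y, volume D * h y ≤ ∫⁻ y, 2 ^ d * J * b y := hle0
  rw [lintegral_const_mul _ hhm, lintegral_const_mul _ hbm, hh, hb, lintegral_indicator hBm,
    lintegral_indicator hBm, lintegral_const, one_mul, Measure.restrict_apply_univ] at hfin
  rw [← hJ]
  refine hfin.trans (le_of_eq ?_)
  ring

end Pool.Agent.H819.LN
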