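import Mathlib
import Pool.Graph.R_seed8.Y604.SY.Pull
import Pool.Graph.R_seed8.Y431.SY.HT

/-!
# The homotopy formula for the maps `p ↦ p + t w(p)`
-/

set_option autoImplicit false

open Set Filter Topology MeasureTheory
open scoped ContDiff

noncomputable section

namespace Pool.Agent.H819.LN

open Pool.Agent.Y501.SY ContinuousAlternatingMap Pool.Agent.Y431.SY
open Pool.Agent.Y604.SY (contDiff_pull)

variable {d : ℕ}

/-- the homotopy -/
def hPhi (w : E d → E d) (q : E d × ℝ) : E d := q.1 + q.2 • w q.1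

/-- the pull-back of a two-form by the homotopy -/
def hF (s : E d → (E d) [⋀^Fin 2]→L[ℝ] ℝ) (w : E d → E d) (q : E d × ℝ) :
    (E d × ℝ) [⋀^Fin 2]→L[ℝ] ℝ :=
  (s (hPhi w q)).compContinuousLinearMap (fderiv ℝ (hPhi w) q)

/-- the integrand of the homotopy operator -/
def hG (s : E d → (E d) [⋀^Fin 2]→L[ℝ] ℝ) (w : E d → E d) (q : E d × ℝ) :
    (E d) [⋀^Fin 1]→L[ℝ] ℝ :=
  ((hF s w q).curryLeft (0, 1)).compContinuousLinearMap (ContinuousLinearMap.inl ℝ (E d) ℝ)

variable {s : E d → (E d) [⋀^Fin 2]→L[ℝ] ℝ} {w : E d → E d}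

theorem hPhi_smooth (hw : ContDiff ℝ ∞ w) : ContDiff ℝ ∞ (hPhi w) := by
  have h1 : ContDiff ℝ ∞ (fun q : E d × ℝ => w q.1) := hw.comp contDiff_fst
  exact contDiff_fst.add (contDiff_snd.smul h1)

theorem hPhi_fderiv (hw : ContDiff ℝ ∞ w) (p : E d) (t : ℝ) (v : E d) (a : ℝ) :
    fderiv ℝ (hPhi w) (p, t) (v, a) = v + (t • fderiv ℝ w p v + a • w p) := by
  have hwd : HasFDerivAt w (fderiv ℝ w p) p := ((hw.differentiable (by simp)) p).hasFDerivAt
  have h1 : HasFDerivAt (fun q : E d × ℝ => w q.1)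
      ((fderiv ℝ w p).comp (ContinuousLinearMap.fst ℝ (E d) ℝ)) (p, t) :=
    HasFDerivAt.comp (p, t) hwd hasFDerivAt_fst
  have h2 : HasFDerivAt (fun q : E d × ℝ => q.2) (ContinuousLinearMap.snd ℝ (E d) ℝ) (p, t) :=
    hasFDerivAt_snd
  have h3 : HasFDerivAt (fun q : E d × ℝ => q.1) (ContinuousLinearMap.fst ℝ (E d) ℝ) (p, t) :=
    hasFDerivAt_fst
  have h4 : HasFDerivAt (hPhi w) _ (p, t) := h3.add (h2.smul h1)
  rw [h4.fderiv]
  simp

theorem hF_smooth (hs : ContDiff ℝ ∞ s) (hw : ContDiff ℝ ∞ w) : ContDiff ℝ ∞ (hF s w) := by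
  have h1 := hPhi_smooth hw
  have h2 : ContDiff ℝ ∞ (fderiv ℝ (hPhi w)) := h1.fderiv_right (m := ∞) (by simp)
  exact contDiff_pull.comp ((hs.comp h1).prodMk h2)

theorem hG_smooth (hs : ContDiff ℝ ∞ s) (hw : ContDiff ℝ ∞ w) : ContDiff ℝ ∞ (hG s w) := by
  have h1 := hF_smooth hs hw
  have h2 : ContDiff ℝ ∞ (fun q : E d × ℝ => (hF s w q).curryLeft ((0, 1) : E d × ℝ)) := by
    have h := (curry_bb (E := E d × ℝ)).contDiff (n := ∞)
    exact ContDiff.comp (g := fun p : ((E d × ℝ) [⋀^Fin 2]→L[ℝ] ℝ) × (E d × ℝ) =>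
      p.1.curryLeft p.2) (f := fun q => (hF s w q, ((0, 1) : E d × ℝ))) h
      (h1.prodMk contDiff_const)
  exact contDiff_pull.comp (h2.prodMk contDiff_const)

theorem hG_apply (q : E d × ℝ) (v : E d) : hG s w q ![v] = hF s w q ![(0, 1), (v, 0)] := by
  unfold hG
  rw [compContinuousLinearMap_apply, curryLeft_apply_apply]
  congr 1
  funext i
  fin_cases i <;> rfl

theorem hF_apply (hw : ContDiff ℝ ∞ w) (p : E d) (t : ℝ) (v₀ v₁ : E d) :
    hF s w (p, t) ![(v₀, 0), (v₁, 0)] =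
      s (p + t • w p) ![v₀ + t • fderiv ℝ w p v₀, v₁ + t • fderiv ℝ w p v₁] := by
  unfold hF
  rw [compContinuousLinearMap_apply]
  show s (hPhi w (p, t)) _ = _
  congr 1
  funext i
  fin_cases i
  · show fderiv ℝ (hPhi w) (p, t) (v₀, 0) = _
    rw [hPhi_fderiv hw, zero_smul, add_zero]
    rfl
  · show fderiv ℝ (hPhi w) (p, t) (v₁, 0) = _
    rw [hPhi_fderiv hw, zero_smul, add_zero]
    rfl

theorem hF_closed (hs : ContDiff ℝ ∞ s) (hw : ContDiff ℝ ∞ w) {q : E d × ℝ}
    (h : extDeriv s (hPhi w q) = 0) : extDeriv (hF s w) q = 0 := by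
  have h1 : extDeriv (fun q => (s (hPhi w q)).compContinuousLinearMap (fderiv ℝ (hPhi w) q)) q = _ :=
    extDeriv_pullback (r := ∞) ((hs.differentiable (by simp)) _) ((hPhi_smooth hw).contDiffAt) (by
      rw [minSmoothness_of_isRCLikeNormedField]
      exact WithTop.coe_le_coe.2 le_top)
  have h2 : extDeriv (hF s w) q = _ := h1
  rw [h2, h]
  ext v
  rfl

/-- the homotopy operator -/
def hB (s : E d → (E d) [⋀^Fin 2]→L[ℝ] ℝ) (w : E d → E d) (p : E d) : (E d) [⋀^Fin 1]→L[ℝ] ℝ :=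
  ∫ t in Icc (0 : ℝ) 1, hG s w (p, t)

theorem hB_smooth (hs : ContDiff ℝ ∞ s) (hw : ContDiff ℝ ∞ w) : ContDiff ℝ ∞ (hB s w) :=
  contDiff_setInt volume isCompact_Icc (hG_smooth hs hw)

theorem hB_zero (hw : ContDiff ℝ ∞ w) {p : E d} (h : w p = 0) : hB s w p = 0 := by
  have h1 : ∀ t, hG s w (p, t) = 0 := by
    intro t
    ext v
    have hv : v = ![v 0] := by funext i; rw [Subsingleton.elim i 0]; rfl
    rw [hv, hG_apply]
    unfold hF
    rw [compContinuousLinearMap_apply]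
    have h2 : fderiv ℝ (hPhi w) (p, t) ((0 : E d), (1 : ℝ)) = 0 := by
      rw [hPhi_fderiv hw, h]
      simp
    exact ContinuousAlternatingMap.map_coord_zero _ 0 h2
  unfold hB
  simp only [h1]
  exact integral_zero _ _

theorem hB_fderiv (hs : ContDiff ℝ ∞ s) (hw : ContDiff ℝ ∞ w) (p u v : E d) :
    fderiv ℝ (fun x => hB s w x ![v]) p u =
      ∫ t in Icc (0 : ℝ) 1, fderiv ℝ (hF s w) (p, t) (u, 0) ![(0, 1), (v, 0)] := by
  have hR : ContDiff ℝ ∞ (fun q : E d × ℝ => hF s w q ![(0, 1), (v, 0)]) :=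
    (ev ![((0 : E d), (1 : ℝ)), (v, 0)]).contDiff.comp (hF_smooth hs hw)
  have h1 := setInt_hasFDerivAt' volume isCompact_Icc (K := Icc (0 : ℝ) 1) hR p
  have e : (fun x => hB s w x ![v]) = fun x => ∫ t in Icc (0 : ℝ) 1,
      hF s w (x, t) ![(0, 1), (v, 0)] := by
    funext x
    have h2 := (ev ![v]).integral_comp_comm (μ := volume.restrict (Icc (0 : ℝ) 1))
      (φ := fun t => hG s w (x, t))
      (((hG_smooth hs hw).continuous.comp (Continuous.prodMk_right x)).continuousOn.integrableOn_compact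
        isCompact_Icc)
    have h3 : hB s w x ![v] = ∫ t in Icc (0 : ℝ) 1, ev ![v] (hG s w (x, t)) := h2.symm
    rw [h3]
    refine integral_congr_ae (Eventually.of_forall fun t => ?_)
    exact hG_apply (x, t) v
  rw [e, h1.fderiv, ContinuousLinearMap.integral_apply]
  · refine integral_congr_ae (Eventually.of_forall fun t => ?_)
    have h4 : HasFDerivAt (fun q : E d × ℝ => hF s w q ![(0, 1), (v, 0)])
        ((ev ![((0 : E d), (1 : ℝ)), (v, 0)]).comp (fderiv ℝ (hF s w) (p, t))) (p, t) :=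
      (ev ![((0 : E d), (1 : ℝ)), (v, 0)]).hasFDerivAt.comp (p, t)
        (((hF_smooth hs hw).differentiable (by simp)) (p, t)).hasFDerivAt
    show ((fderiv ℝ (fun q : E d × ℝ => hF s w q ![(0, 1), (v, 0)]) (p, t)).comp
      (ContinuousLinearMap.inl ℝ (E d) ℝ)) u = _
    rw [h4.fderiv]
    rfl
  · exact ((slice_contDiff hR).continuous.comp
      (Continuous.prodMk_right p)).continuousOn.integrableOn_compact isCompact_Icc

/-- **The homotopy formula.** -/
theorem ext_hB (hs : ContDiff ℝ ∞ s) (hw : ContDiff ℝ ∞ w) (p : E d)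
    (hcl : ∀ t ∈ Icc (0 : ℝ) 1, extDeriv s (p + t • w p) = 0) :
    extDeriv (hB s w) p = (s (p + w p)).compContinuousLinearMap
      (ContinuousLinearMap.id ℝ (E d) + fderiv ℝ w p) - s p := by
  have hd : DifferentiableAt ℝ (hB s w) p := (hB_smooth hs hw).differentiable (by simp) p
  have hFs := hF_smooth hs hw
  have hFd : ContDiff ℝ ∞ (fderiv ℝ (hF s w)) := hFs.fderiv_right (m := ∞) (by simp)
  ext v
  rw [extDeriv_apply hd, Fin.sum_univ_two]
  have e0 : Fin.removeNth 0 v = ![v 1] := by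
    funext i; fin_cases i; rfl
  have e1 : Fin.removeNth 1 v = ![v 0] := by
    funext i; fin_cases i; rfl
  rw [e0, e1]
  simp only [Fin.val_zero, pow_zero, one_smul, Fin.val_one, pow_one, neg_smul]
  rw [hB_fderiv hs hw, hB_fderiv hs hw]
  have hcont : ∀ (u : E d) (W : Fin 2 → E d × ℝ), Continuous
      (fun t : ℝ => fderiv ℝ (hF s w) (p, t) (u, 0) W) := by
    intro u W
    have h1 : Continuous (fun t : ℝ => fderiv ℝ (hF s w) (p, t)) :=
      hFd.continuous.comp (Continuous.prodMk_right p)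
    exact (ev W).continuous.comp (h1.clm_apply continuous_const)
  rw [← sub_eq_add_neg, ← integral_sub
    ((hcont _ _).continuousOn.integrableOn_compact isCompact_Icc)
    ((hcont _ _).continuousOn.integrableOn_compact isCompact_Icc)]
  set Kf : ℝ → ℝ := fun t => hF s w (p, t) ![(v 0, 0), (v 1, 0)] with hK
  have hder : ∀ t : ℝ, HasDerivAt Kf (fderiv ℝ (hF s w) (p, t) (0, 1) ![(v 0, 0), (v 1, 0)]) t := by
    intro t
    have h1 : HasFDerivAt (hF s w) (fderiv ℝ (hF s w) (p, t)) (p, t) :=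
      ((hFs.differentiable (by simp)) (p, t)).hasFDerivAt
    have h2 : HasDerivAt (fun t : ℝ => ((p, t) : E d × ℝ)) ((0, 1) : E d × ℝ) t :=
      (hasDerivAt_const t p).prodMk (hasDerivAt_id t)
    have h3 := h1.comp_hasDerivAt t h2
    exact (ev ![((v 0 : E d), (0 : ℝ)), (v 1, 0)]).hasFDerivAt.comp_hasDerivAt t h3
  have hid : ∀ t ∈ Icc (0 : ℝ) 1, fderiv ℝ (hF s w) (p, t) (v 0, 0) ![(0, 1), (v 1, 0)] -
      fderiv ℝ (hF s w) (p, t) (v 1, 0) ![(0, 1), (v 0, 0)] =
      fderiv ℝ (hF s w) (p, t) (0, 1) ![(v 0, 0), (v 1, 0)] := by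
    intro t ht
    have h1 : extDeriv (hF s w) (p, t) = 0 := hF_closed hs hw (hcl t ht)
    exact closed_identity (fderiv ℝ (hF s w) (p, t)) h1 (0, 1) ![(v 0, 0), (v 1, 0)]
  rw [setIntegral_congr_fun measurableSet_Icc hid, integral_Icc_eq_integral_Ioc,
    ← intervalIntegral.integral_of_le zero_le_one,
    intervalIntegral.integral_eq_sub_of_hasDerivAt (fun t _ => hder t)]
  · rw [hK]
    simp only
    rw [hF_apply hw, hF_apply hw, one_smul, zero_smul, add_zero, one_smul, one_smul, zero_smul,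
      zero_smul, add_zero, add_zero]
    have hv : v = ![v 0, v 1] := by
      funext i; fin_cases i <;> rfl
    rw [ContinuousAlternatingMap.sub_apply, compContinuousLinearMap_apply]
    congr 1
    · congr 1
      funext i
      fin_cases i <;> rfl
    · conv_rhs => rw [hv]
  · have h1 : Continuous (fun t : ℝ => fderiv ℝ (hF s w) (p, t)) :=
      hFd.continuous.comp (Continuous.prodMk_right p)
    exact ((ev ![((v 0 : E d), (0 : ℝ)), (v 1, 0)]).continuous.comp
      (h1.clm_apply continuous_const)).intervalIntegrable _ _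

end Pool.Agent.H819.LN
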