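import Mathlib
import Pool.Agent.H819.LN.Shift
import Pool.Agent.H819.LN.Hom

/-!
# Pull-back by a small shift does not change the cohomology class
-/

set_option autoImplicit false

open Set Filter Topology MeasureTheory Metric
open scoped Manifold ContDiff

noncomputable section

namespace Pool.Agent.H819.LN

open Pool.Agent.Y501.SY
open Pool.Agent.Y487.SY (comp_chain)
open Pool.Agent.Y891.SY (contDiffAt_extDeriv pb_sub)
open Pool.Agent.Y604.SY (contDiff_pull)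
open Pool.Agent.H819.LG (pb_congr pb_congr_form pb_comp pb_pull mdiff_symm mdiff_chart smooth2
  extDeriv_zero' closed_chart smooth_chart)

variable {d : ℕ} {X : Type} [TopologicalSpace X] [ChartedSpace (E d) X]

theorem Sh.smooth_V (c : Sh d X) (y : E d) : ContDiff ℝ ∞ (fun z => c.V z y) :=
  c.smooth.clm_apply contDiff_const

theorem Sh.lo_fderiv (c : Sh d X) (y z : E d) : fderiv ℝ (c.lo y) z =
    ContinuousLinearMap.id ℝ (E d) + fderiv ℝ (fun z => c.V z y) z := by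
  have h1 : HasFDerivAt (fun z => c.V z y) (fderiv ℝ (fun z => c.V z y) z) z :=
    (((c.smooth_V y).differentiable (by simp)) z).hasFDerivAt
  exact ((hasFDerivAt_id z).add h1).fderiv

theorem Sh.lo_diff (c : Sh d X) (y : E d) : Differentiable ℝ (c.lo y) :=
  fun z => (differentiableAt_id (x := z)).add ((c.smooth_V y).differentiable (by simp) z)

/-- The primitive in the chart. -/
theorem Sh.exists_local (c : Sh d X) {y : E d} (hy : ‖y‖ < c.R) {t : E d → (E d) [⋀^Fin 2]→L[ℝ] ℝ}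
    (ht : ContDiffOn ℝ ∞ t c.e.target) (hcl : ∀ z ∈ c.e.target, extDeriv t z = 0) :
    ∃ b : E d → (E d) [⋀^Fin 1]→L[ℝ] ℝ, ContDiff ℝ ∞ b ∧ (∀ z, z ∉ tsupport c.V → b z = 0) ∧
      ∀ z ∈ c.e.target, extDeriv b z = (t (c.lo y z)).compContinuousLinearMap
        (fderiv ℝ (c.lo y) z) - t z := by
  have hlo := c.lo_fderiv y
  have hw := c.smooth_V y
  obtain ⟨Q, hQ⟩ : ∃ Q : Set (E d), Q = (fun q : ℝ × E d => q.2 + q.1 • c.V q.2 y) ''
    (Icc (0 : ℝ) 1 ×ˢ tsupport c.V) := ⟨_, rfl⟩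
  have hQc : IsCompact Q := by
    rw [hQ]
    refine (isCompact_Icc.prod c.comp.isCompact).image ?_
    have h1 : Continuous (fun q : ℝ × E d => c.V q.2 y) := hw.continuous.comp continuous_snd
    exact continuous_snd.add (continuous_fst.smul h1)
  have hQV : Q ⊆ c.e.target := by
    rw [hQ]
    rintro _ ⟨q, hq, rfl⟩
    exact c.lo_mem hy.le (c.tsub hq.2) hq.1
  obtain ⟨κ, hκ0, hκ1, -⟩ := exists_contMDiffMap_zero_one_nhds_of_isClosed (n := (⊤ : ℕ∞)) (𝓡 d)
    c.e.open_target.isClosed_compl hQc.isClosed (by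
      rw [Set.disjoint_left]
      intro z hz hz'
      exact hz (hQV hz'))
  have hκ : ContDiff ℝ ∞ (fun z => κ z) := κ.contMDiff.contDiff
  obtain ⟨t', ht'⟩ : ∃ t' : E d → (E d) [⋀^Fin 2]→L[ℝ] ℝ, t' = fun z => κ z • t z := ⟨_, rfl⟩
  have hs' : ContDiff ℝ ∞ t' := by
    rw [contDiff_iff_contDiffAt]
    intro z
    by_cases hz : z ∈ c.e.target
    · rw [ht']
      exact hκ.contDiffAt.smul (ht.contDiffAt (c.e.open_target.mem_nhds hz))
    · have h1 : ∀ᶠ x in 𝓝 z, κ x = 0 := hκ0.filter_mono (nhds_le_nhdsSet hz)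
      refine (contDiffAt_const (c := (0 : (E d) [⋀^Fin 2]→L[ℝ] ℝ))).congr_of_eventuallyEq ?_
      filter_upwards [h1] with x hx
      rw [ht']
      simp only
      rw [hx, zero_smul]
  have heq : ∀ z ∈ Q, t' =ᶠ[𝓝 z] t := by
    intro z hz
    have h1 : ∀ᶠ x in 𝓝 z, κ x = 1 := hκ1.filter_mono (nhds_le_nhdsSet hz)
    filter_upwards [h1] with x hx
    rw [ht']
    simp only
    rw [hx, one_smul]
  have hb0 : ∀ z, z ∉ tsupport c.V → hB t' (fun z => c.V z y) z = 0 := by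
    intro z hz
    refine hB_zero hw ?_
    show c.V z y = 0
    rw [c.V_zero hz]
    rfl
  refine ⟨hB t' (fun z => c.V z y), hB_smooth hs' hw, hb0, ?_⟩
  intro z hz
  by_cases h : z ∈ tsupport c.V
  · have h1 : ∀ s ∈ Icc (0 : ℝ) 1, z + s • c.V z y ∈ Q := by
      intro s hs
      rw [hQ]
      exact ⟨(s, z), ⟨hs, h⟩, rfl⟩
    have e0 := (heq _ (h1 0 ⟨le_rfl, zero_le_one⟩)).self_of_nhds
    have e1 := (heq _ (h1 1 ⟨zero_le_one, le_rfl⟩)).self_of_nhds
    rw [zero_smul, add_zero] at e0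
    rw [one_smul] at e1
    rw [ext_hB hs' hw z ?_, e0, e1, hlo z]
    · rfl
    · intro s hs
      rw [(heq _ (h1 s hs)).extDeriv_eq]
      exact hcl _ (hQV (h1 s hs))
  · have h1 : hB t' (fun z => c.V z y) =ᶠ[𝓝 z] fun _ => 0 := by
      filter_upwards [(isClosed_tsupport c.V).isOpen_compl.mem_nhds h] with x hx
      exact hb0 x hx
    have h2 : c.V z = 0 := c.V_zero h
    have h3 : fderiv ℝ (fun z => c.V z y) z = 0 := by
      have : (fun z => c.V z y) =ᶠ[𝓝 z] fun _ => 0 := by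
        filter_upwards [(isClosed_tsupport c.V).isOpen_compl.mem_nhds h] with x hx
        rw [c.V_zero hx]
        rfl
      rw [this.fderiv_eq]
      exact fderiv_const_apply 0
    rw [h1.extDeriv_eq, hlo z, h3]
    have h4 : c.lo y z = z := by
      show z + c.V z y = z
      rw [h2]
      exact add_zero z
    rw [h4, extDeriv_zero']
    ext v
    simp

section

variable [IsManifold (𝓡 d) ∞ X]

/-- a one-form given in a chart -/
def Sh.ext (c : Sh d X) (b : E d → (E d) [⋀^Fin 1]→L[ℝ] ℝ) : Form d X 1 := fun x =>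
  letI := Classical.propDecidable (x ∈ c.e.source)
  if x ∈ c.e.source then (b (c.e x)).compContinuousLinearMap (mfderiv (𝓡 d) (𝓡 d) c.e x) else 0

omit [IsManifold (𝓡 d) ∞ X] in
theorem Sh.ext_of_mem (c : Sh d X) (b : E d → (E d) [⋀^Fin 1]→L[ℝ] ℝ) {x : X}
    (hx : x ∈ c.e.source) : c.ext b x = (b (c.e x)).compContinuousLinearMap
      (mfderiv (𝓡 d) (𝓡 d) c.e x) := if_pos hx

omit [IsManifold (𝓡 d) ∞ X] in
theorem Sh.ext_of_notMem (c : Sh d X) (b : E d → (E d) [⋀^Fin 1]→L[ℝ] ℝ) {x : X}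
    (hx : x ∉ c.e.source) : c.ext b x = 0 := if_neg hx

omit [IsManifold (𝓡 d) ∞ X] in
theorem Sh.ext_zero (c : Sh d X) (b : E d → (E d) [⋀^Fin 1]→L[ℝ] ℝ)
    (hb : ∀ z, z ∉ tsupport c.V → b z = 0) {x : X} (hx : x ∉ c.M) : c.ext b x = 0 := by
  by_cases h : x ∈ c.e.source
  · rw [c.ext_of_mem b h, hb]
    · rfl
    · intro h'
      exact hx ⟨_, h', c.e.left_inv h⟩
  · exact c.ext_of_notMem b h

theorem Sh.exists_primitive [T2Space X] (c : Sh d X) {y : E d} (hy : ‖y‖ < c.R)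
    {σ : Form d X 2} (hσ : IsSmooth σ) (hσc : IsClosedForm σ) :
    ∃ β : Form d X 1, IsSmooth β ∧ IsD β (pull (d := d) (c.sh y) σ - σ) := by
  obtain ⟨b, hb, hb0, hbd⟩ := c.exists_local hy (smooth_chart hσ c.x₀) (closed_chart hσc c.x₀)
  have hsm := c.contMDiff_sh hy
  -- the pull-back of `β` near a point of the chart
  have key1 : ∀ (U : Set (E d)) (φ : E d → X), IsOpen U → ContMDiffOn (𝓡 d) (𝓡 d) ∞ φ U →
      ∀ p ∈ U, φ p ∈ c.e.source → ContDiffAt ℝ ∞ (c.e ∘ φ) p ∧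
        (∀ᶠ q in 𝓝 p, q ∈ U ∧ φ q ∈ c.e.source) := by
    intro U φ hU hφ p hp hs
    have h1 : ContMDiffAt (𝓡 d) (𝓡 d) ∞ φ p := hφ.contMDiffAt (hU.mem_nhds hp)
    have h2 : ContMDiffAt (𝓡 d) (𝓡 d) ∞ c.e (φ p) := contMDiffOn_chart.contMDiffAt
      (c.e.open_source.mem_nhds hs)
    refine ⟨contMDiffAt_iff_contDiffAt.1 (h2.comp p h1), ?_⟩
    have h3 : ∀ᶠ q in 𝓝 p, q ∈ U := hU.mem_nhds hp
    exact h3.and (h1.continuousAt.eventually (c.e.open_source.mem_nhds hs))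
  have key2 : ∀ (U : Set (E d)) (φ : E d → X), IsOpen U → ContMDiffOn (𝓡 d) (𝓡 d) ∞ φ U →
      ∀ p ∈ U, φ p ∈ c.e.source → pb φ (c.ext b) =ᶠ[𝓝 p]
        fun q => (b ((c.e ∘ φ) q)).compContinuousLinearMap (fderiv ℝ (c.e ∘ φ) q) := by
    intro U φ hU hφ p hp hs
    filter_upwards [(key1 U φ hU hφ p hp hs).2] with q hq
    have h1 : MDifferentiableAt (𝓡 d) (𝓡 d) φ q :=
      (hφ.contMDiffAt (hU.mem_nhds hq.1)).mdifferentiableAt (by simp)
    unfold pb
    rw [c.ext_of_mem b hq.2]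
    exact comp_chain _ (mdiff_chart c.x₀ hq.2) h1
  have key3 : ∀ (U : Set (E d)) (φ : E d → X), IsOpen U → ContMDiffOn (𝓡 d) (𝓡 d) ∞ φ U →
      ∀ p ∈ U, φ p ∉ c.M → (∀ᶠ q in 𝓝 p, φ q ∉ c.M) ∧ pb φ (c.ext b) =ᶠ[𝓝 p] fun _ => 0 := by
    intro U φ hU hφ p hp hs
    have h1 : ContMDiffAt (𝓡 d) (𝓡 d) ∞ φ p := hφ.contMDiffAt (hU.mem_nhds hp)
    have h2 : ∀ᶠ q in 𝓝 p, φ q ∉ c.M :=
      h1.continuousAt.eventually (c.M_compact.isClosed.isOpen_compl.mem_nhds hs)
    refine ⟨h2, ?_⟩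
    filter_upwards [h2] with q hq
    rw [pb_congr_form (τ := 0) φ (c.ext_zero b hb0 hq)]
    rfl
  refine ⟨c.ext b, ?_, ?_⟩
  · intro U φ hU hφ p hp
    refine ContDiffAt.contDiffWithinAt ?_
    by_cases hs : φ p ∈ c.M
    · have hs' := c.M_source hs
      refine ContDiffAt.congr_of_eventuallyEq ?_ (key2 U φ hU hφ p hp hs')
      have h1 := (key1 U φ hU hφ p hp hs').1
      have h2 : ContDiffAt ℝ ∞ (fun q => b ((c.e ∘ φ) q)) p := hb.contDiffAt.comp p h1
      have h3 : ContDiffAt ℝ ∞ (fderiv ℝ (c.e ∘ φ)) p := h1.fderiv_right (by simp)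
      exact (contDiff_pull (ι := Fin 1) (V := E d) (V' := E d)).contDiffAt.comp p (h2.prodMk h3)
    · exact contDiffAt_const.congr_of_eventuallyEq (key3 U φ hU hφ p hp hs).2
  · intro U φ hU hφ p hp
    have hφp : MDifferentiableAt (𝓡 d) (𝓡 d) φ p :=
      (hφ.contMDiffAt (hU.mem_nhds hp)).mdifferentiableAt (by simp)
    have hrhs : pb φ (pull (d := d) (c.sh y) σ - σ) p = pb (c.sh y ∘ φ) σ p - pb φ σ p := by
      rw [pb_sub, pb_pull σ ((hsm (φ p)).mdifferentiableAt (by simp)) hφp]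
    rw [hrhs]
    by_cases hs : φ p ∈ c.M
    · have hs' := c.M_source hs
      have hk := key1 U φ hU hφ p hp hs'
      rw [(key2 U φ hU hφ p hp hs').extDeriv_eq,
        extDeriv_pullback (r := ∞) (hb.differentiable (by simp) _) hk.1
          smooth2, show extDeriv b ((c.e ∘ φ) p) = _ from hbd _ (c.e.map_source hs')]
      have hlo : Differentiable ℝ (c.lo y) := c.lo_diff y
      have e1 : pb (c.sh y ∘ φ) σ p = (pb c.e.symm σ (c.lo y (c.e (φ p)))).compContinuousLinearMap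
          (fderiv ℝ (c.lo y ∘ (c.e ∘ φ)) p) := by
        have h1 : c.sh y ∘ φ =ᶠ[𝓝 p] c.e.symm ∘ (c.lo y ∘ (c.e ∘ φ)) := by
          filter_upwards [hk.2] with q hq
          exact c.sh_of_mem y hq.2
        rw [pb_congr σ h1]
        exact pb_comp σ (mdiff_symm c.x₀ (c.lo_mem' hy.le (c.e.map_source hs')))
          ((hlo _).comp p (hk.1.differentiableAt (by simp)))
      have e2 : pb φ σ p = (pb c.e.symm σ (c.e (φ p))).compContinuousLinearMap
          (fderiv ℝ (c.e ∘ φ) p) := by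
        have h1 : φ =ᶠ[𝓝 p] c.e.symm ∘ (c.e ∘ φ) := by
          filter_upwards [hk.2] with q hq
          exact (c.e.left_inv hq.2).symm
        rw [pb_congr σ h1]
        exact pb_comp σ (mdiff_symm c.x₀ (c.e.map_source hs'))
          (hk.1.differentiableAt (by simp))
      have e3 : fderiv ℝ (c.lo y ∘ (c.e ∘ φ)) p =
          (fderiv ℝ (c.lo y) (c.e (φ p))).comp (fderiv ℝ (c.e ∘ φ) p) :=
        fderiv_comp p (hlo _) (hk.1.differentiableAt (by simp))
      rw [e1, e2, e3]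
      rfl
    · obtain ⟨h1, h2⟩ := key3 U φ hU hφ p hp hs
      rw [h2.extDeriv_eq, extDeriv_zero']
      have h3 : c.sh y ∘ φ =ᶠ[𝓝 p] φ := by
        filter_upwards [h1] with q hq
        exact c.sh_eq_self y hq
      rw [pb_congr σ h3, sub_self]

end

end Pool.Agent.H819.LN
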