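import Mathlib
import Pool.Agent.H819.LN.Prim
import Pool.Agent.H819.LG.Fam

/-!
# Compositions of small shifts
-/

set_option autoImplicit false

open Set Filter Topology MeasureTheory Metric
open scoped Manifold ContDiff

noncomputable section

namespace Pool.Agent.H819.LN

open Pool.Agent.Y501.SY
open Pool.Agent.H819.LG (pull_comp pull_id)

variable {d : ℕ} {X : Type} [TopologicalSpace X] [ChartedSpace (E d) X] {ι : Type}

/-- composition of the shifts with indices in the list `l` -/
def fam (c : ι → Sh d X) (l : List ι) (y : ι → E d) (p : X) : X :=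
  l.foldr (fun i q => (c i).sh (y i) q) p

theorem fam_cons (c : ι → Sh d X) (i : ι) (l : List ι)
    (y : ι → E d) (p : X) : fam c (i :: l) y p = (c i).sh (y i) (fam c l y p) := rfl

theorem fam_zero (c : ι → Sh d X) (l : List ι) (p : X) :
    fam c l 0 p = p := by
  induction l with
  | nil => rfl
  | cons i l ih => rw [fam_cons, ih]; exact (c i).sh_zero p

/-- shifts which do not move the point and its image under the `i`-th shift -/
theorem fam_notMem (c : ι → Sh d X) (l : List ι) (y : ι → E d) {p : X}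
    (h : ∀ j ∈ l, (c j).sh (y j) p = p) : fam c l y p = p := by
  induction l with
  | nil => rfl
  | cons j l ih =>
    rw [fam_cons, ih fun k hk => h k (List.mem_cons_of_mem j hk)]
    exact h j List.mem_cons_self

theorem fam_one (c : ι → Sh d X) (l : List ι) (hl : l.Nodup) (i : ι) (hi : i ∈ l)
    (y : ι → E d) {p : X} (h : ∀ j ∈ l, j ≠ i → (c j).sh (y j) p = p)
    (h' : ∀ j ∈ l, j ≠ i → (c j).sh (y j) ((c i).sh (y i) p) = (c i).sh (y i) p) :
    fam c l y p = (c i).sh (y i) p := by
  induction l with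
  | nil => simp at hi
  | cons j l ih =>
    rw [List.nodup_cons] at hl
    rw [fam_cons]
    by_cases hj : j = i
    · subst hj
      rw [fam_notMem c l y]
      intro k hk
      refine h k (List.mem_cons_of_mem j hk) ?_
      rintro rfl
      exact hl.1 hk
    · have h2 : i ∈ l := by
        rcases List.mem_cons.1 hi with h3 | h3
        · exact absurd h3.symm hj
        · exact h3
      rw [ih hl.2 h2 (fun k hk => h k (List.mem_cons_of_mem j hk))
        fun k hk => h' k (List.mem_cons_of_mem j hk)]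
      exact h' j List.mem_cons_self hj

theorem fam_single [DecidableEq ι] (c : ι → Sh d X) (l : List ι) (hl : l.Nodup) (i : ι)
    (h : i ∈ l) (u : E d) (p : X) : fam c l (Pi.single i u) p = (c i).sh u p := by
  have h1 : (Pi.single i u : ι → E d) i = u := by simp
  have h2 := fam_one c l hl i h (Pi.single i u) (p := p)
    (fun j _ hj => by rw [Pi.single_eq_of_ne hj]; exact (c j).sh_zero p)
    (fun j _ hj => by rw [Pi.single_eq_of_ne hj]; exact (c j).sh_zero _)
  rw [h1] at h2
  exact h2

variable [IsManifold (𝓡 d) ∞ X] [Fintype ι]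

theorem contMDiffAt_fam [T2Space X] (c : ι → Sh d X) {R : ℝ} (hR : ∀ i, R ≤ (c i).R)
    (l : List ι) {y₀ : ι → E d} (hy : ‖y₀‖ < R) (p₀ : X) :
    ContMDiffAt (𝓘(ℝ, ι → E d).prod (𝓡 d)) (𝓡 d) ∞
      (fun q : (ι → E d) × X => fam c l q.1 q.2) (y₀, p₀) := by
  induction l with
  | nil => exact contMDiffAt_snd
  | cons i l ih =>
    have h1 : ContMDiffAt (𝓘(ℝ, ι → E d).prod (𝓡 d)) 𝓘(ℝ, E d) ∞
        (fun q : (ι → E d) × X => q.1 i) (y₀, p₀) := by
      have h0 : ContMDiff 𝓘(ℝ, ι → E d) 𝓘(ℝ, E d) ∞ (fun y : ι → E d => y i) :=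
        (contDiff_apply ℝ (E d) i).contMDiff
      exact (h0.contMDiffAt).comp (y₀, p₀) contMDiffAt_fst
    have h2 := (c i).contMDiffAt_sh (y₀ := y₀ i)
      (((norm_le_pi_norm y₀ i).trans_lt hy).trans_le (hR i)) (fam c l y₀ p₀)
    exact h2.comp (y₀, p₀) (h1.prodMk ih)

theorem contMDiff_fam [T2Space X] (c : ι → Sh d X) {R : ℝ} (hR : ∀ i, R ≤ (c i).R)
    (l : List ι) {y : ι → E d} (hy : ‖y‖ < R) : ContMDiff (𝓡 d) (𝓡 d) ∞ (fam c l y) := by
  intro p
  have h := contMDiffAt_fam c hR l hy p
  exact h.comp p (contMDiffAt_const.prodMk contMDiffAt_id)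

/-- The pull-back by a composition of small shifts is smooth and closed and in the same class. -/
theorem fam_class [T2Space X] (c : ι → Sh d X) {R : ℝ} (hR : ∀ i, R ≤ (c i).R)
    (l : List ι) {y : ι → E d} (hy : ‖y‖ < R) :
    ∀ σ : Form d X 2, IsSmooth σ → IsClosedForm σ →
      IsSmooth (pull (d := d) (fam c l y) σ) ∧ IsClosedForm (pull (d := d) (fam c l y) σ) ∧
      ∃ β : Form d X 1, IsSmooth β ∧ IsD β (pull (d := d) (fam c l y) σ - σ) := by
  induction l with
  | nil =>
    intro σ hσ hσc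
    have h : pull (d := d) (fam c [] y) σ = σ := pull_id σ
    rw [h, sub_self]
    exact ⟨hσ, hσc, 0, IsSmooth.zero, IsD.zero⟩
  | cons i l ih =>
    intro σ hσ hσc
    have hyi : ‖y i‖ < (c i).R := ((norm_le_pi_norm y i).trans_lt hy).trans_le (hR i)
    have hi := (c i).contMDiff_sh hyi
    obtain ⟨h1, h2⟩ := Pool.Agent.Y604.SY.t_PULL d d X X _ σ hi hσ hσc
    obtain ⟨β₁, h3, h4⟩ := (c i).exists_primitive hyi hσ hσc
    obtain ⟨h5, h6, β₂, h7, h8⟩ := ih _ h1 h2
    have he : pull (d := d) (fam c (i :: l) y) σ =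
        pull (d := d) (fam c l y) (pull (d := d) ((c i).sh (y i)) σ) :=
      pull_comp (f := (c i).sh (y i)) (g := fam c l y) hi (contMDiff_fam c hR l hy) σ
    rw [he]
    refine ⟨h5, h6, β₂ + β₁, h7.add h3, ?_⟩
    have h9 := h8.add h4 h7 h3
    rwa [sub_add_sub_cancel] at h9

end Pool.Agent.H819.LN
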