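import Mathlib
import Pool.Agent.H819.LN.Psi
import Pool.Agent.H819.LN.AvgPi
import Pool.Agent.H819.LG.Conv

/-!
# The local estimate
-/

set_option autoImplicit false

open Set Filter Topology MeasureTheory Metric
open scoped Manifold ContDiff ENNReal NNReal

noncomputable section

namespace Pool.Agent.H819.LN

open Pool.Agent.Y501.SY
open Pool.Agent.H819.LG (expanding basic slice1 slice2 avg avg_prob integral_le_of_lintegral GoodAt
  vol_ball)

variable {d : ℕ} {X : Type} [TopologicalSpace X] [ChartedSpace (E d) X] {ι : Type} [Fintype ι]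
  [DecidableEq ι]

/-- a lower bound for an average -/
theorem avg_lower2 (i : ι) {r : ℝ} (hr : 0 < r) {ψ : (ι → E d) → E d} {T : Set (E d)}
    (hψT : MapsTo ψ (closedBall 0 r) T)
    (hd : ∀ y : ι → E d, ‖y‖ ≤ r → DifferentiableAt ℝ ψ y ∧
      ‖(fderiv ℝ ψ y).comp (inc i) - ContinuousLinearMap.id ℝ _‖ ≤ 1 / 2)
    {G : E d → ℝ≥0∞} (hG : AEMeasurable G (volume.restrict T)) (hT : MeasurableSet T)
    {good : E d → Prop} (hgood : ∀ᵐ z ∂(volume.restrict T), good z)
    {F : (ι → E d) → ℝ} (hF : ContinuousOn F (closedBall 0 r)) {c₀ : ℝ}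
    (hFG : ∀ y ∈ closedBall (0 : ι → E d) r, good (ψ y) → ENNReal.ofReal (c₀ - F y) ≤ G (ψ y))
    {a : ℝ} (ha : 0 ≤ a)
    (hsm : 2 ^ d * ∫⁻ z in T, G z ≤ ENNReal.ofReal a * volume (closedBall (0 : E d) r)) :
    c₀ - a ≤ ∫ y, F y ∂(avg volume r) := by
  have hprob := avg_prob (volume : Measure (ι → E d)) hr
  obtain ⟨g0, hg0, hGg0⟩ := hG
  have hnull : volume.restrict T {z | ¬ (good z ∧ G z = g0 z)} = 0 := by
    have : ∀ᵐ z ∂(volume.restrict T), good z ∧ G z = g0 z := by
      filter_upwards [hgood, hGg0] with z h1 h2 using ⟨h1, h2⟩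
    exact this
  obtain ⟨Z, hZsub, hZm, hZ0⟩ := exists_measurable_superset_of_null hnull
  set g : E d → ℝ≥0∞ := fun z => g0 z + Z.indicator (fun _ => ⊤) z with hg
  have hgm : Measurable g := hg0.add (measurable_const.indicator hZm)
  have hgint : ∫⁻ z in T, g z = ∫⁻ z in T, G z := by
    refine lintegral_congr_ae ?_
    have h1 : ∀ᵐ z ∂(volume.restrict T), z ∉ Z := by
      rw [ae_iff]
      simpa using hZ0
    filter_upwards [h1, hGg0] with z h2 h3
    rw [hg]
    simp only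
    rw [indicator_of_notMem h2, add_zero, h3]
  have hψc : ContinuousOn ψ (closedBall 0 r) := fun y hy =>
    (hd y (by simpa using hy)).1.continuousAt.continuousWithinAt
  have hav := average_pi i hr hT hψc hψT (fun y hy v hv hyv => by
      have h1 : v = inc i (v i - y i) + y := by
        funext j
        show v j = (Pi.single i (v i - y i) : ι → E d) j + y j
        by_cases hj : j = i
        · subst hj
          simp
        · rw [Pi.single_eq_of_ne hj, zero_add, hyv j hj]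
      have h2 := expanding hd y 0 (v i - y i) (by
        rw [map_zero, zero_add]
        simpa using hy) (by
        rw [← h1]
        simpa using hv)
      rw [map_zero, zero_add, ← h1, zero_sub, neg_sub] at h2
      exact h2) hgm
  rw [hgint] at hav
  have hV0 : volume (closedBall (0 : E d) r) ≠ 0 :=
    (measure_closedBall_pos volume 0 hr).ne'
  have hVt : volume (closedBall (0 : E d) r) ≠ ⊤ :=
    (isCompact_closedBall 0 r).measure_lt_top.ne
  have hμ0 : volume (closedBall (0 : ι → E d) r) ≠ 0 := (measure_closedBall_pos volume 0 hr).ne'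
  have hμt : volume (closedBall (0 : ι → E d) r) ≠ ⊤ :=
    (isCompact_closedBall 0 r).measure_lt_top.ne
  have h1 : ∫⁻ y in closedBall (0 : ι → E d) r, g (ψ y) ≤
      ENNReal.ofReal a * volume (closedBall (0 : ι → E d) r) := by
    have h3 : volume (closedBall (0 : E d) r) *
        ∫⁻ y in closedBall (0 : ι → E d) r, g (ψ y) ≤
        volume (closedBall (0 : E d) r) *
          (ENNReal.ofReal a * volume (closedBall (0 : ι → E d) r)) := by
      refine hav.trans ?_
      calc 2 ^ d * volume (closedBall (0 : ι → E d) r) * ∫⁻ z in T, G z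
          = volume (closedBall (0 : ι → E d) r) * (2 ^ d * ∫⁻ z in T, G z) := by ring
        _ ≤ volume (closedBall (0 : ι → E d) r) *
            (ENNReal.ofReal a * volume (closedBall (0 : E d) r)) := by gcongr
        _ = _ := by ring
    exact (ENNReal.mul_le_mul_iff_right hV0 hVt).1 h3
  have h4 : ∫⁻ y, ENNReal.ofReal (c₀ - F y) ∂(avg volume r) ≤ ENNReal.ofReal a := by
    rw [avg, lintegral_smul_measure, smul_eq_mul]
    have h5 : ∫⁻ y in closedBall (0 : ι → E d) r, ENNReal.ofReal (c₀ - F y) ≤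
        ∫⁻ y in closedBall (0 : ι → E d) r, g (ψ y) := by
      refine setLIntegral_mono' measurableSet_closedBall fun y hy => ?_
      by_cases hz : ψ y ∈ Z
      · rw [hg]
        simp only
        rw [indicator_of_mem hz]
        simp
      · have h6 : good (ψ y) ∧ G (ψ y) = g0 (ψ y) := by
          by_contra h7
          exact hz (hZsub h7)
        rw [hg]
        simp only
        rw [indicator_of_notMem hz, add_zero, ← h6.2]
        exact hFG y hy h6.1
    calc (volume (closedBall (0 : ι → E d) r))⁻¹ *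
          ∫⁻ y in closedBall (0 : ι → E d) r, ENNReal.ofReal (c₀ - F y)
        ≤ (volume (closedBall (0 : ι → E d) r))⁻¹ *
          (ENNReal.ofReal a * volume (closedBall (0 : ι → E d) r)) := by
          gcongr
          exact h5.trans h1
      _ = ENNReal.ofReal a * ((volume (closedBall (0 : ι → E d) r))⁻¹ *
          volume (closedBall (0 : ι → E d) r)) := by ring
      _ = ENNReal.ofReal a := by rw [ENNReal.inv_mul_cancel hμ0 hμt, mul_one]
  have hFi : Integrable F (avg volume r) := by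
    have h7 : IntegrableOn F (closedBall 0 r) volume :=
      hF.integrableOn_compact (isCompact_closedBall 0 r)
    exact Integrable.smul_measure h7 (ENNReal.inv_ne_top.2 hμ0)
  have h8 : Integrable (fun y => c₀ - F y) (avg volume r) := (integrable_const c₀).sub hFi
  have h9 := integral_le_of_lintegral h8 ha h4
  rw [integral_sub (integrable_const c₀) hFi] at h9
  simp only [integral_const, probReal_univ, one_smul] at h9
  linarith

/-- the value of the averaged form -/
def val (c : ι → Sh d X) (x₀ : X) (t : E d → (E d) [⋀^Fin 2]→L[ℝ] ℝ)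
    (A : E d → (E d →L[ℝ] E d)) (z u : E d) (y : ι → E d) : ℝ :=
  t (Psi c x₀ (y, z)) ![fderiv ℝ (fun z' => Psi c x₀ (y, z')) z u,
    fderiv ℝ (fun z' => Psi c x₀ (y, z')) z (A z u)]

/-- the constant of the local estimate -/
def epsC (d : ℕ) (C M : ℝ) : ℝ :=
  (volume (closedBall (0 : E d) 1)).toReal / (32 * 2 ^ d * (C / 2 * M + 1))

theorem epsC_pos {C M : ℝ} (hC : 0 ≤ C) (hM : 0 ≤ M) : 0 < epsC d C M := by
  have hb1p : 0 < volume (closedBall (0 : E d) 1) := measure_closedBall_pos _ _ one_pos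
  have hb1t : volume (closedBall (0 : E d) 1) ≠ ⊤ := (isCompact_closedBall _ _).measure_lt_top.ne
  have hv₁p : 0 < (volume (closedBall (0 : E d) 1)).toReal := ENNReal.toReal_pos hb1p.ne' hb1t
  unfold epsC
  positivity

/-- the estimates for the composition of the shifts on the piece `K` at the scale `r` -/
structure PieceAt (c : ι → Sh d X) (R : ℝ) (i : ι) (K N : Set (E d)) (A : E d → (E d →L[ℝ] E d))
    (θ : E d → (E d) [⋀^Fin 2]→L[ℝ] ℝ) (C M c₀ r ρ e : ℝ) : Prop where
  pos : 0 ≤ ρ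
  ball : ∀ z ∈ K, closedBall z ρ ⊆ N
  dom : ∀ y : ι → E d, ‖y‖ ≤ r → ∀ z ∈ K, (y, z) ∈ PsiD c R (c i).x₀
  near : ∀ y : ι → E d, ‖y‖ ≤ r → ∀ z ∈ K, ‖Psi c (c i).x₀ (y, z) - z‖ ≤ ρ
  dz : ∀ y : ι → E d, ‖y‖ ≤ r → ∀ z ∈ K,
    ‖fderiv ℝ (fun z' => Psi c (c i).x₀ (y, z')) z - ContinuousLinearMap.id ℝ (E d)‖ ≤ 1 / 2
  dy : ∀ y : ι → E d, ‖y‖ ≤ r → ∀ z ∈ K,
    ‖(fderiv ℝ (fun y' => Psi c (c i).x₀ (y', z)) y).comp (inc i) -
      ContinuousLinearMap.id ℝ (E d)‖ ≤ 1 / 2
  err : ∀ y : ι → E d, ‖y‖ ≤ r → ∀ z ∈ K,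
    ‖(fderiv ℝ (fun z' => Psi c (c i).x₀ (y, z')) z).comp (A z) -
      (A (Psi c (c i).x₀ (y, z))).comp (fderiv ℝ (fun z' => Psi c (c i).x₀ (y, z')) z)‖ ≤ e
  small : ∀ z ∈ K, ENNReal.ofReal (e ^ 2) * ∫⁻ z' in closedBall z ρ, ‖θ z'‖ₑ ≤
    ENNReal.ofReal (epsC d C M * c₀ * r ^ d)

variable [IsManifold (𝓡 d) ∞ X]

omit [DecidableEq ι] in
theorem continuousOn_val [T2Space X] (c : ι → Sh d X) {R : ℝ}
    (hR : ∀ i, R ≤ (c i).R) (x₀ : X) {t : E d → (E d) [⋀^Fin 2]→L[ℝ] ℝ} {N : Set (E d)}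
    (ht : ContinuousOn t N) {A : E d → (E d →L[ℝ] E d)} (hA : ContinuousOn A N)
    {B : Set ((ι → E d) × E d × E d)}
    (hB : ∀ q ∈ B, (q.1, q.2.1) ∈ PsiD c R x₀ ∧ Psi c x₀ (q.1, q.2.1) ∈ N ∧ q.2.1 ∈ N) :
    ContinuousOn (fun q : (ι → E d) × E d × E d => val c x₀ t A q.2.1 q.2.2 q.1) B := by
  have h1 : ContinuousOn (fun q : (ι → E d) × E d × E d => Psi c x₀ (q.1, q.2.1)) B := by
    intro q hq
    have h2 : ContinuousAt (Psi c x₀) (q.1, q.2.1) := (contDiffAt_Psi c hR _ (hB q hq).1).continuousAt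
    have h3 : ContinuousAt (fun q : (ι → E d) × E d × E d => (q.1, q.2.1)) q := by fun_prop
    exact (ContinuousAt.comp (f := fun q : (ι → E d) × E d × E d => (q.1, q.2.1))
      (g := Psi c x₀) h2 h3).continuousWithinAt
  have h4 : ContinuousOn (fun q : (ι → E d) × E d × E d =>
      fderiv ℝ (fun z' => Psi c x₀ (q.1, z')) q.2.1) B := by
    have h5 : ∀ q ∈ B, fderiv ℝ (fun z' => Psi c x₀ (q.1, z')) q.2.1 =
        (fderiv ℝ (Psi c x₀) (q.1, q.2.1)).comp
          (ContinuousLinearMap.inr ℝ (ι → E d) (E d)) := fun q hq =>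
      (slice2 ((contDiffAt_Psi c hR _ (hB q hq).1).differentiableAt (by simp))).fderiv
    refine ContinuousOn.congr ?_ h5
    intro q hq
    have h2 : ContinuousAt (fderiv ℝ (Psi c x₀)) (q.1, q.2.1) :=
      ((contDiffAt_Psi c hR _ (hB q hq).1).fderiv_right (m := 0) (by simp)).continuousAt
    have h3 : ContinuousAt (fun q : (ι → E d) × E d × E d => (q.1, q.2.1)) q := by fun_prop
    have h6 := (ContinuousAt.comp (f := fun q : (ι → E d) × E d × E d => (q.1, q.2.1))
      (g := fderiv ℝ (Psi c x₀)) h2 h3)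
    exact (h6.clm_comp continuousAt_const).continuousWithinAt
  have h7 : ContinuousOn (fun q : (ι → E d) × E d × E d => t (Psi c x₀ (q.1, q.2.1))) B :=
    ht.comp h1 fun q hq => (hB q hq).2.1
  have h8 : ContinuousOn (fun q : (ι → E d) × E d × E d => A q.2.1) B :=
    hA.comp (by fun_prop) fun q hq => (hB q hq).2.2
  have h9 : ContinuousOn (fun q : (ι → E d) × E d × E d =>
      ((![fderiv ℝ (fun z' => Psi c x₀ (q.1, z')) q.2.1 q.2.2,
        fderiv ℝ (fun z' => Psi c x₀ (q.1, z')) q.2.1 (A q.2.1 q.2.2)] : Fin 2 → E d))) B := by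
    rw [continuousOn_pi]
    intro i
    fin_cases i
    · exact h4.clm_apply (by fun_prop)
    · exact h4.clm_apply (h8.clm_apply (by fun_prop))
  exact Pool.Agent.H819.LG.continuous_ev2.comp_continuousOn (h7.prodMk h9)

/-- **The local estimate.** -/
theorem local_avg2 [T2Space X] {c : ι → Sh d X} {R : ℝ} (hR : ∀ i, R ≤ (c i).R) {i : ι}
    {K N : Set (E d)} (hN : IsCompact N) {C M : ℝ} (hC : 0 ≤ C) (hM1 : 1 ≤ M)
    {A : E d → (E d →L[ℝ] E d)} (hA : ContinuousOn A N) (hM : ∀ z ∈ N, ‖A z‖ ≤ M)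
    {θ : E d → (E d) [⋀^Fin 2]→L[ℝ] ℝ} (hθ : AEStronglyMeasurable θ (volume.restrict N))
    {c₀ : ℝ} (hc₀ : 0 < c₀) (hgood : ∀ᵐ z ∂(volume.restrict N), GoodAt θ A C c₀ z)
    {r ρ e : ℝ} (hr : 0 < r) (h : PieceAt c R i K N A θ C M c₀ r ρ e) :
    ∃ δ : ℝ, 0 < δ ∧ ∀ t : E d → (E d) [⋀^Fin 2]→L[ℝ] ℝ, ContinuousOn t N →
      ∫⁻ z in N, ‖t z - θ z‖ₑ ≤ ENNReal.ofReal δ → ∀ z ∈ K, ∀ u : E d, ‖u‖ = 1 →
      c₀ / 16 ≤ ∫ y, val c (c i).x₀ t A z u y ∂(avg volume r) := by
  have hb1p : 0 < volume (closedBall (0 : E d) 1) := measure_closedBall_pos _ _ one_pos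
  have hb1t : volume (closedBall (0 : E d) 1) ≠ ⊤ := (isCompact_closedBall _ _).measure_lt_top.ne
  set v₁ : ℝ := (volume (closedBall (0 : E d) 1)).toReal with hv₁
  have hv₁p : 0 < v₁ := ENNReal.toReal_pos hb1p.ne' hb1t
  have hv₁e : volume (closedBall (0 : E d) 1) = ENNReal.ofReal v₁ :=
    (ENNReal.ofReal_toReal hb1t).symm
  -- constants
  set C₃ : ℝ := C / 2 * M with hC₃
  have hC₃0 : 0 ≤ C₃ := by positivity
  set D : ℝ := 2 ^ d / v₁ with hD
  have hDp : 0 < D := by positivity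
  have heps : epsC d C M = 1 / (32 * (D * (C₃ + 1))) := by
    unfold epsC
    rw [hD, ← hv₁, ← hC₃]
    field_simp
  have hrd : 0 < r ^ d := by positivity
  refine ⟨c₀ * r ^ d / (32 * (D * (4 * M))), by positivity, ?_⟩
  intro t ht htθ z hz u hu
  have hball : closedBall z ρ ⊆ N := h.ball z hz
  have hzN : z ∈ N := hball (mem_closedBall_self h.pos)
  set T : Set (E d) := closedBall z ρ with hT
  have hTm : MeasurableSet T := measurableSet_closedBall
  -- the majorant
  set G : E d → ℝ≥0∞ := fun z' => ENNReal.ofReal C₃ * (ENNReal.ofReal (e ^ 2) * ‖θ z'‖ₑ) +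
    ENNReal.ofReal (4 * M) * ‖t z' - θ z'‖ₑ with hG
  have hθT : AEStronglyMeasurable θ (volume.restrict T) :=
    hθ.mono_measure (Measure.restrict_mono hball le_rfl)
  have htT : AEStronglyMeasurable t (volume.restrict T) :=
    (ht.mono hball).aestronglyMeasurable hTm
  have hm0 : AEMeasurable (fun z' => ‖θ z'‖ₑ) (volume.restrict T) := hθT.enorm
  have hm1 : AEMeasurable (fun z' => ENNReal.ofReal (e ^ 2) * ‖θ z'‖ₑ) (volume.restrict T) :=
    hm0.const_mul _
  have hm2 : AEMeasurable (fun z' => ‖t z' - θ z'‖ₑ) (volume.restrict T) :=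
    (htT.sub hθT).enorm
  have hGm : AEMeasurable G (volume.restrict T) :=
    (hm1.const_mul _).add (hm2.const_mul _)
  have hGint : ∫⁻ z' in T, G z' ≤ ENNReal.ofReal (c₀ / 16 * r ^ d / D) := by
    rw [hG, lintegral_add_left' (hm1.const_mul _), lintegral_const_mul'' _ hm1,
      lintegral_const_mul'' _ hm2, lintegral_const_mul'' _ hm0]
    have h1 : ENNReal.ofReal C₃ * (ENNReal.ofReal (e ^ 2) * ∫⁻ z' in T, ‖θ z'‖ₑ)
        ≤ ENNReal.ofReal (c₀ / 32 * r ^ d / D) := by
      calc _ ≤ ENNReal.ofReal C₃ * ENNReal.ofReal (epsC d C M * c₀ * r ^ d) := by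
            gcongr; exact h.small z hz
        _ = ENNReal.ofReal (C₃ * (epsC d C M * c₀ * r ^ d)) := (ENNReal.ofReal_mul hC₃0).symm
        _ ≤ _ := by
          refine ENNReal.ofReal_le_ofReal ?_
          have h2 : C₃ * (epsC d C M * c₀ * r ^ d) =
              C₃ / (C₃ + 1) * (c₀ / 32 * r ^ d / D) := by
            rw [heps]
            field_simp
          rw [h2]
          have h3 : C₃ / (C₃ + 1) ≤ 1 := by
            rw [div_le_one (by positivity)]; linarith
          have h4 : 0 ≤ c₀ / 32 * r ^ d / D := by positivity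
          nlinarith
    have h5 : ENNReal.ofReal (4 * M) * ∫⁻ z' in T, ‖t z' - θ z'‖ₑ ≤
        ENNReal.ofReal (c₀ / 32 * r ^ d / D) := by
      calc _ ≤ ENNReal.ofReal (4 * M) * ENNReal.ofReal (c₀ * r ^ d / (32 * (D * (4 * M)))) := by
            gcongr
            exact (lintegral_mono_set hball).trans htθ
        _ = ENNReal.ofReal (4 * M * (c₀ * r ^ d / (32 * (D * (4 * M))))) :=
            (ENNReal.ofReal_mul (by positivity)).symm
        _ ≤ _ := by
          refine ENNReal.ofReal_le_ofReal (le_of_eq ?_)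
          field_simp
    refine (add_le_add h1 h5).trans (le_of_eq ?_)
    rw [← ENNReal.ofReal_add (by positivity) (by positivity)]
    congr 1
    ring
  have hres := avg_lower2 (ι := ι) i hr (ψ := fun y => Psi c (c i).x₀ (y, z)) (T := T)
    (fun y hy => by
      rw [mem_closedBall_zero_iff] at hy
      show Psi c (c i).x₀ (y, z) ∈ closedBall z ρ
      rw [mem_closedBall, dist_eq_norm]
      exact h.near y hy z hz)
    (fun y hy => ⟨(slice1 ((contDiffAt_Psi c hR _ (h.dom y hy z hz)).differentiableAt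
      (by simp))).differentiableAt, h.dy y hy z hz⟩)
    hGm hTm (good := fun z' => z' ∈ N ∧ GoodAt θ A C c₀ z')
    (ae_restrict_of_ae_restrict_of_subset hball (by
      filter_upwards [hgood, ae_restrict_mem hN.measurableSet] with z' h1 h2 using ⟨h2, h1⟩))
    (F := fun y => val c (c i).x₀ t A z u y) (c₀ := c₀ / 8) ?_ ?_ (a := c₀ / 16) (by positivity) ?_
  · have : c₀ / 8 - c₀ / 16 = c₀ / 16 := by ring
    rw [this] at hres
    exact hres
  · -- continuity
    have h := continuousOn_val c hR (c i).x₀ ht hA (B := (fun y => (y, z, u)) ''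
      closedBall (0 : ι → E d) r) (by
        rintro _ ⟨y, hy, rfl⟩
        rw [mem_closedBall_zero_iff] at hy
        refine ⟨h.dom y hy z hz, hball ?_, hzN⟩
        rw [mem_closedBall, dist_eq_norm]
        exact h.near y hy z hz)
    exact h.comp (f := fun y : ι → E d => (y, z, u)) (by fun_prop) (mapsTo_image _ _)
  · -- the pointwise inequality
    intro y hy hg
    rw [mem_closedBall_zero_iff] at hy
    set P := Psi c (c i).x₀ (y, z) with hP
    set Dz := fderiv ℝ (fun z' => Psi c (c i).x₀ (y, z')) z with hDz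
    have h5 : ‖Dz - ContinuousLinearMap.id ℝ (E d)‖ ≤ 1 / 2 := h.dz y hy z hz
    have h6 : ‖Dz.comp (A z) - (A P).comp Dz‖ ≤ e := h.err y hy z hz
    have hbas := basic (θ P) (t P) (A z) (A P) Dz hC hc₀.le hg.2.2 hg.2.1 h5 u
    rw [hu, one_pow, mul_one] at hbas
    have hAz := hM z hzN
    have hAP : ‖A P‖ ≤ M := hM P hg.1
    have h17 : ‖Dz.comp (A z) - (A P).comp Dz‖ ^ 2 ≤ e ^ 2 :=
      pow_le_pow_left₀ (norm_nonneg _) h6 2
    have h18 : c₀ / 8 - val c (c i).x₀ t A z u y ≤ C₃ * (e ^ 2 * ‖θ P‖) +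
        4 * M * ‖t P - θ P‖ := by
      have h19 : c₀ / 8 - C / 2 * ‖A P‖ * (‖θ P‖ * ‖Dz.comp (A z) - (A P).comp Dz‖ ^ 2) -
          4 * ‖A z‖ * ‖t P - θ P‖ ≤ val c (c i).x₀ t A z u y := hbas
      have h20 : C / 2 * ‖A P‖ * (‖θ P‖ * ‖Dz.comp (A z) - (A P).comp Dz‖ ^ 2) ≤
          C₃ * (e ^ 2 * ‖θ P‖) := by
        calc C / 2 * ‖A P‖ * (‖θ P‖ * ‖Dz.comp (A z) - (A P).comp Dz‖ ^ 2)
            ≤ C / 2 * M * (‖θ P‖ * e ^ 2) := by
              gcongr
          _ = _ := by rw [hC₃]; ring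
      have h21 : 4 * ‖A z‖ * ‖t P - θ P‖ ≤ 4 * M * ‖t P - θ P‖ := by gcongr
      linarith
    refine (ENNReal.ofReal_le_ofReal h18).trans (le_of_eq ?_)
    have e1 : ENNReal.ofReal (C₃ * (e ^ 2 * ‖θ P‖)) = ENNReal.ofReal C₃ *
        (ENNReal.ofReal (e ^ 2) * ‖θ P‖ₑ) := by
      rw [ENNReal.ofReal_mul hC₃0, ENNReal.ofReal_mul (sq_nonneg _), ofReal_norm]
    have e2 : ENNReal.ofReal (4 * M * ‖t P - θ P‖) = ENNReal.ofReal (4 * M) * ‖t P - θ P‖ₑ := by
      rw [ENNReal.ofReal_mul (by positivity), ofReal_norm]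
    rw [ENNReal.ofReal_add (by positivity) (by positivity), e1, e2]
  · -- smallness
    rw [vol_ball 0 hr.le, hv₁e]
    calc 2 ^ d * ∫⁻ z' in T, G z'
        ≤ 2 ^ d * ENNReal.ofReal (c₀ / 16 * r ^ d / D) := by gcongr
      _ = ENNReal.ofReal (2 ^ d) * ENNReal.ofReal (c₀ / 16 * r ^ d / D) := by
          have : (2 : ℝ≥0∞) ^ d = ENNReal.ofReal (2 ^ d) := by
            rw [ENNReal.ofReal_pow (by norm_num)]
            norm_num
          rw [this]
      _ = ENNReal.ofReal (c₀ / 16 * (r ^ d * v₁)) := by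
          rw [← ENNReal.ofReal_mul (by positivity)]
          congr 1
          rw [hD]
          field_simp
      _ ≤ _ := by
          rw [ENNReal.ofReal_mul (by positivity), ENNReal.ofReal_mul (by positivity)]

end Pool.Agent.H819.LN
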