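import Mathlib
import Pool.Agent.H819.LN.Loc
import Pool.Agent.H819.LG.AvgConv
import Pool.Graph.R_seed8.Y455.SY.Pert

/-!
# The global estimate
-/

set_option autoImplicit false

open Set Filter Topology MeasureTheory Metric
open scoped Manifold ContDiff ENNReal NNReal

noncomputable section

namespace Pool.Agent.H819.LN

open Pool.Agent.Y501.SY
open Pool.Agent.H819.LG (slice1 slice2 avg avg_prob GoodAt InClass avg_convex pb_congr pb_comp
  pb_pull mdiff_symm mdiff_chart smooth_chart)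

variable {d : ℕ} {X : Type} [TopologicalSpace X] [ChartedSpace (E d) X] {ι : Type} [Fintype ι]
  [DecidableEq ι] [IsManifold (𝓡 d) ∞ X]

omit [DecidableEq ι] in
/-- the value of the pull-back -/
theorem val_eq [T2Space X] (c : ι → Sh d X) {R : ℝ} (hR : ∀ i, R ≤ (c i).R) (x₀ : X)
    (J : End d X) (w : Form d X 2) {y : ι → E d} {z : E d} (hq : (y, z) ∈ PsiD c R x₀)
    (u : E d) :
    pb (chartAt (E d) x₀).symm (pull (d := d) (Fam c y) w) z ![u, inChart J x₀ z u] =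
      val c x₀ (pb (chartAt (E d) x₀).symm w) (inChart J x₀) z u y := by
  have hf : MDifferentiableAt (𝓡 d) (𝓡 d) (Fam c y) ((chartAt (E d) x₀).symm z) :=
    (contMDiff_fam c hR (Finset.univ (α := ι)).toList hq.1 _).mdifferentiableAt (by simp)
  rw [pb_pull w hf (mdiff_symm x₀ hq.2.1)]
  have h1 : Fam c y ∘ (chartAt (E d) x₀).symm =ᶠ[𝓝 z]
      (chartAt (E d) x₀).symm ∘ (fun z' => Psi c x₀ (y, z')) := by
    have h2 : ∀ᶠ z' in 𝓝 z, (y, z') ∈ PsiD c R x₀ := by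
      have h3 : ContinuousAt (fun z' : E d => (y, z')) z := by fun_prop
      exact h3.eventually ((isOpen_PsiD c hR x₀).mem_nhds hq)
    filter_upwards [h2] with z' hz'
    exact ((chartAt (E d) x₀).left_inv hz'.2.2).symm
  have h4 : DifferentiableAt ℝ (fun z' => Psi c x₀ (y, z')) z :=
    (slice2 ((contDiffAt_Psi c hR _ hq).differentiableAt (by simp))).differentiableAt
  rw [pb_congr w h1, pb_comp w (mdiff_symm x₀ ((chartAt (E d) x₀).map_source hq.2.2)) h4]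
  unfold val
  rw [ContinuousAlternatingMap.compContinuousLinearMap_apply]
  congr 1
  funext i
  fin_cases i <;> rfl

theorem exists_pos_le' {κ : Type} [Finite κ] (f : κ → ℝ) (hf : ∀ i, 0 < f i) :
    ∃ ε : ℝ, 0 < ε ∧ ∀ i, ε ≤ f i := by
  rcases isEmpty_or_nonempty κ with h | h
  · exact ⟨1, one_pos, fun i => (h.false i).elim⟩
  · obtain ⟨i, hi⟩ := Finite.exists_min f
    exact ⟨f i, hf i, hi⟩

theorem glob2 [T2Space X] (c : ι → Sh d X) {R : ℝ} (hR : ∀ i, R ≤ (c i).R)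
    {κ : Type} [Finite κ] (a : κ → ι) (K N : κ → Set (E d)) (hK : ∀ k, IsCompact (K k))
    (hN : ∀ k, IsCompact (N k)) (hNt : ∀ k, N k ⊆ (c (a k)).e.target)
    (hcov : ∀ p : X, ∃ k, ∃ z ∈ K k, (c (a k)).e.symm z = p) {J : End d X}
    (hJ : ∀ k, ContinuousOn (inChart J (c (a k)).x₀) (N k)) {C M c₀ : κ → ℝ}
    (hC : ∀ k, 0 ≤ C k) (hM1 : ∀ k, 1 ≤ M k) (hM : ∀ k, ∀ z ∈ N k, ‖inChart J (c (a k)).x₀ z‖ ≤ M k)
    (hc₀ : ∀ k, 0 < c₀ k) {θ : Form d X 2}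
    (hθ : ∀ k, AEStronglyMeasurable (pb (c (a k)).e.symm θ) (volume.restrict (N k)))
    (hgood : ∀ k, ∀ᵐ z ∂(volume.restrict (N k)),
      GoodAt (pb (c (a k)).e.symm θ) (inChart J (c (a k)).x₀) (C k) (c₀ k) z)
    {r : ℝ} (hr : 0 < r) (hrR : r < R) (ρ e : κ → ℝ)
    (hP : ∀ k, PieceAt c R (a k) (K k) (N k) (inChart J (c (a k)).x₀) (pb (c (a k)).e.symm θ)
      (C k) (M k) (c₀ k) r (ρ k) (e k)) :
    ∃ δ : ℝ, 0 < δ ∧ ∀ w : Form d X 2, IsSmooth w → IsClosedForm w →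
      (∀ k, ∫⁻ z in N k, ‖pb (c (a k)).e.symm w z - pb (c (a k)).e.symm θ z‖ₑ ≤
        ENNReal.ofReal δ) →
      ∃ σ : Form d X 2, InClass w σ ∧ ∀ x, TamesAt σ J x := by
  classical
  have hKN : ∀ k, K k ⊆ N k := fun k z hz => (hP k).ball z hz (mem_closedBall_self (hP k).pos)
  have hKt : ∀ k, K k ⊆ (c (a k)).e.target := fun k => (hKN k).trans (hNt k)
  have hδ := fun k => local_avg2 hR (hN k) (hC k) (hM1 k) (hJ k) (hM k) (hθ k) (hc₀ k) (hgood k)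
    hr (hP k)
  choose δ hδ hδ' using hδ
  obtain ⟨δ₀, hδ₀, hδ₀'⟩ := exists_pos_le' δ hδ
  obtain ⟨cm, hcm, hcm'⟩ := exists_pos_le' c₀ hc₀
  refine ⟨δ₀, hδ₀, ?_⟩
  intro w hw hwc hwθ
  -- the compact space
  have hScomp : ∀ i, CompactSpace (K i ×ˢ sphere (0 : E d) 1 : Set (E d × E d)) := fun i =>
    isCompact_iff_compactSpace.1 ((hK i).prod (isCompact_sphere 0 1))
  set S := Σ i : κ, (K i ×ˢ sphere (0 : E d) 1 : Set (E d × E d)) with hS
  set 𝒜 : Set C(S, ℝ) := {g | ∃ σ : Form d X 2, InClass w σ ∧ ∀ (i : κ)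
    (q : (K i ×ˢ sphere (0 : E d) 1 : Set (E d × E d))), g ⟨i, q⟩ =
      pb (c (a i)).e.symm σ q.1.1 ![q.1.2, inChart J (c (a i)).x₀ q.1.1 q.1.2]} with h𝒜
  have hconv : Convex ℝ 𝒜 := by
    rintro g₁ ⟨σ₁, h₁, e₁⟩ g₂ ⟨σ₂, h₂, e₂⟩ a b ha hb hab
    refine ⟨a • σ₁ + b • σ₂, h₁.comb h₂ hab, fun i q => ?_⟩
    show a • g₁ ⟨i, q⟩ + b • g₂ ⟨i, q⟩ = _
    rw [e₁, e₂]
    rfl
  set F : (ι → E d) × S → ℝ := fun q => val c (c (a q.2.1)).x₀ (pb (c (a q.2.1)).e.symm w)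
    (inChart J (c (a q.2.1)).x₀) q.2.2.1.1 q.2.2.1.2 q.1 with hF
  have hmemN : ∀ (k : κ) (y : ι → E d), ‖y‖ ≤ r → ∀ z ∈ K k,
      Psi c (c (a k)).x₀ (y, z) ∈ N k := by
    intro k y hy z hz
    refine (hP k).ball z hz ?_
    rw [mem_closedBall, dist_eq_norm]
    exact (hP k).near y hy z hz
  have hFc : ContinuousOn F (closedBall 0 r ×ˢ univ) := by
    have hpiece : ∀ i : κ, ContinuousOn
        (fun q : (ι → E d) × (K i ×ˢ sphere (0 : E d) 1 : Set (E d × E d)) =>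
          F (q.1, ⟨i, q.2⟩)) (closedBall 0 r ×ˢ univ) := by
      intro i
      have h := continuousOn_val c hR (c (a i)).x₀
        ((smooth_chart hw (c (a i)).x₀).continuousOn.mono (hNt i)) (hJ i)
        (B := {q | ‖q.1‖ ≤ r ∧ q.2.1 ∈ K i}) (by
          rintro q ⟨hq1, hq2⟩
          exact ⟨(hP i).dom q.1 hq1 q.2.1 hq2, hmemN i q.1 hq1 q.2.1 hq2, hKN i hq2⟩)
      refine h.comp (f := fun q : (ι → E d) × (K i ×ˢ sphere (0 : E d) 1 :
        Set (E d × E d)) => (q.1, q.2.1.1, q.2.1.2)) (by fun_prop) ?_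
      rintro q ⟨hq, -⟩
      exact ⟨by simpa using hq, q.2.2.1⟩
    rintro ⟨y, ⟨i, s⟩⟩ ⟨hy, -⟩
    have h1 := (hpiece i) (y, s) ⟨hy, mem_univ _⟩
    -- neighbourhoods in the sigma type
    have h2 : 𝓝[closedBall (0 : ι → E d) r ×ˢ univ] ((y, ⟨i, s⟩) : (ι → E d) × S) =
        Filter.map (fun q : (ι → E d) × (K i ×ˢ sphere (0 : E d) 1 : Set (E d × E d)) =>
          ((q.1, ⟨i, q.2⟩) : (ι → E d) × S))
          (𝓝[closedBall (0 : ι → E d) r ×ˢ univ] (y, s)) := by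
      rw [nhdsWithin_prod_eq, nhdsWithin_prod_eq, nhdsWithin_univ, nhdsWithin_univ,
        Sigma.nhds_mk, Filter.prod_map_right]
      rfl
    unfold ContinuousWithinAt
    rw [h2, Filter.tendsto_map'_iff]
    exact h1
  have hmem : ∀ y ∈ closedBall (0 : ι → E d) r, ∃ g ∈ 𝒜, ∀ s, g s = F (y, s) := by
    intro y hy
    have hy' : ‖y‖ ≤ r := by simpa using hy
    have hgc : Continuous (fun s : S => F (y, s)) := by
      have h2 : Continuous (fun s : S => ((y, s) : (ι → E d) × S)) := by fun_prop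
      exact hFc.comp_continuous h2 fun s => ⟨hy, mem_univ _⟩
    refine ⟨⟨_, hgc⟩, ⟨pull (d := d) (Fam c y) w, ?_, ?_⟩, fun s => rfl⟩
    · exact fam_class c hR (Finset.univ (α := ι)).toList (hy'.trans_lt hrR) w hw hwc
    · intro i q
      exact (val_eq c hR (c (a i)).x₀ J w ((hP i).dom y hy' q.1.1 q.2.1) q.1.2).symm
  obtain ⟨g, ⟨σ, hσ, hg⟩, hpos⟩ := avg_convex (volume : Measure (ι → E d)) hr hFc hconv hmem
    (a := cm / 16) (by positivity) (by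
      rintro ⟨i, q⟩
      refine le_trans ?_ (hδ' i (pb (c (a i)).e.symm w)
        ((smooth_chart hw (c (a i)).x₀).continuousOn.mono (hNt i))
        ((hwθ i).trans (ENNReal.ofReal_le_ofReal (hδ₀' i))) q.1.1 q.2.1 q.1.2 ?_)
      · have := hcm' i
        linarith
      · simpa using q.2.2)
  refine ⟨σ, hσ, fun x => ?_⟩
  obtain ⟨i, z, hz, rfl⟩ := hcov x
  rw [Pool.Agent.Y455.SY.tames_iff σ J (c (a i)).x₀ (hKt i hz)]
  rw [Pool.Agent.Y455.SY.pos_iff _ fun s v =>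
    Pool.Agent.Y455.SY.Q_smul σ J (c (a i)).x₀ z v s]
  intro v hv
  have h1 := hpos ⟨i, ⟨(z, v), ⟨hz, hv⟩⟩⟩
  rw [hg] at h1
  exact h1

end Pool.Agent.H819.LN
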