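import Mathlib
import Pool.Agent.H819.LN.Glob
import Pool.Agent.H819.LG.Fin

/-!
# Taming forms from families of shifts
-/

set_option autoImplicit false

open Set Filter Topology MeasureTheory Metric
open scoped Manifold ContDiff ENNReal NNReal

noncomputable section

namespace Pool.Agent.H819.LN

open Pool.Agent.Y501.SY
open Pool.Agent.H819.LG (GoodAt InClass TamedIn Represents tamedIn_of approx smooth_chart)

variable {d : ℕ} {X : Type} [TopologicalSpace X] [ChartedSpace (E d) X] [IsManifold (𝓡 d) ∞ X]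

theorem assemble [T2Space X] [CompactSpace X] {ι : Type} [Fintype ι] [DecidableEq ι]
    (c : ι → Sh d X) {R : ℝ} (hR0 : 0 < R) (hR : ∀ i, R ≤ (c i).R)
    {κ : Type} [Finite κ] (a : κ → ι) (K N : κ → Set (E d)) (hK : ∀ k, IsCompact (K k))
    (hN : ∀ k, IsCompact (N k)) (hNt : ∀ k, N k ⊆ (c (a k)).e.target)
    (hcov : ∀ p : X, ∃ k, ∃ z ∈ K k, (c (a k)).e.symm z = p) {J : End d X}
    (hJ : ∀ x₀, ContinuousOn (inChart J x₀) (chartAt (E d) x₀).target)
    {σ₀ θ : Form d X 2} (hσ : IsSmooth σ₀) (hcl : IsClosedForm σ₀) (hrep : Represents σ₀ θ)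
    (h : ∀ k, ∃ M C c₀ : ℝ, 1 ≤ M ∧ 0 ≤ C ∧ 0 < c₀ ∧
      (∀ z ∈ N k, ‖inChart J (c (a k)).x₀ z‖ ≤ M) ∧
      (∀ᵐ z ∂(volume.restrict (N k)),
        GoodAt (pb (c (a k)).e.symm θ) (inChart J (c (a k)).x₀) C c₀ z) ∧
      ∃ r₀ : ℝ, 0 < r₀ ∧ ∀ r : ℝ, 0 < r → r ≤ r₀ → ∃ ρ e : ℝ,
        PieceAt c R (a k) (K k) (N k) (inChart J (c (a k)).x₀) (pb (c (a k)).e.symm θ)
          C M c₀ r ρ e) : TamedIn σ₀ J := by
  obtain ⟨α, hα⟩ := hrep
  choose M C c₀ hM1 hC hc₀ hM hgood r₀ hr₀ hP using h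
  obtain ⟨r₁, hr₁, hr₁'⟩ := exists_pos_le' r₀ hr₀
  set r : ℝ := min r₁ (R / 2) with hrdef
  have hr : 0 < r := by positivity
  have hrR : r < R := (min_le_right _ _).trans_lt (by linarith)
  choose ρ e hP using fun k => hP k r hr ((min_le_left _ _).trans (hr₁' k))
  have hadd : σ₀ + (θ - σ₀) = θ := by abel
  have hθ : ∀ k, AEStronglyMeasurable (pb (c (a k)).e.symm θ) (volume.restrict (N k)) := by
    intro k
    have m1 : AEStronglyMeasurable (pb (c (a k)).e.symm σ₀) (volume.restrict (N k)) :=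
      ((smooth_chart hσ (c (a k)).x₀).continuousOn.mono (hNt k)).aestronglyMeasurable
        (hN k).measurableSet
    have m2 := ((hα.int2 (c (a k)).x₀).integrableOn_compact_subset (hNt k)
      (hN k)).aestronglyMeasurable
    have m3 := m1.add m2
    have e1 : pb (c (a k)).e.symm θ = pb (c (a k)).e.symm σ₀ + pb (c (a k)).e.symm (θ - σ₀) := by
      rw [← pb_add, hadd]
    rw [e1]
    exact m3
  obtain ⟨δ, hδ, hglob⟩ := glob2 c hR a K N hK hN hNt hcov
    (fun k => (hJ (c (a k)).x₀).mono (hNt k)) hC hM1 hM hc₀ hθ hgood hr hrR ρ e hP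
  obtain ⟨n, ⟨ε⟩⟩ := Finite.exists_equiv_fin κ
  obtain ⟨w, hw, hwest⟩ := approx hσ hcl hα (fun j : Fin n => (c (a (ε.symm j))).x₀)
    (fun j => N (ε.symm j)) (fun j => hN (ε.symm j)) (fun j => hNt (ε.symm j)) hδ
  obtain ⟨σ, hσ', ht⟩ := hglob w hw.1 hw.2.1 (fun k => by
    have h1 := hwest (ε k)
    rw [hadd] at h1
    simp only [Equiv.symm_apply_apply] at h1
    exact h1)
  exact tamedIn_of ⟨σ, hw.trans hσ', ht⟩

/-- shifts along a given field of endomorphisms near a compact set -/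
theorem exists_sh (x₀ : X) {K O : Set (E d)} (hK : IsCompact K) (hO : IsOpen O) (hKO : K ⊆ O)
    (hOt : O ⊆ (chartAt (E d) x₀).target) {T : E d → E d →L[ℝ] E d} (hT : ContDiff ℝ ∞ T)
    (hTb : ∀ z ∈ O, ‖T z‖ ≤ 2) :
    ∃ c : Sh d X, c.x₀ = x₀ ∧ (∃ O₁ : Set (E d), IsOpen O₁ ∧ K ⊆ O₁ ∧ O₁ ⊆ O ∧
      ∀ z ∈ O₁, c.V z = T z) ∧ tsupport c.V ⊆ O := by
  obtain ⟨K', hK', hKK', hK'O⟩ := exists_compact_between hK hO hKO
  obtain ⟨r, hr, hrt⟩ := hK'.exists_cthickening_subset_open hO hK'O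
  have hr4 : 0 < r / 4 := by positivity
  obtain ⟨f, hf, hf1, hf2, hf3⟩ := exists_contMDiff_support_eq_eq_one_iff (n := (⊤ : ℕ∞)) 𝓘(ℝ, E d)
    (isOpen_thickening (δ := r / 4) (E := K')) hK'.isClosed (self_subset_thickening hr4 K')
  have hfs : ContDiff ℝ ∞ f := contMDiff_iff_contDiff.1 hf
  have h01 : ∀ z, f z ∈ Icc (0 : ℝ) 1 := fun z => hf1 (mem_range_self z)
  have hts : tsupport f ⊆ cthickening (r / 4) K' := by
    rw [tsupport, hf2]
    exact closure_thickening_subset_cthickening _ _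
  have hcO : cthickening (r / 4) K' ⊆ O := (cthickening_mono (by linarith) K').trans hrt
  have hfO : tsupport f ⊆ O := hts.trans hcO
  have hVsup : tsupport (fun z => f z • T z) ⊆ tsupport f := by
    refine closure_mono fun z hz => ?_
    rw [Function.mem_support] at hz ⊢
    intro h0
    exact hz (by rw [h0]; exact zero_smul ℝ (T z))
  refine ⟨⟨x₀, fun z => f z • T z, r / 4, hfs.smul hT, ?_, ?_, hr4, ?_⟩, rfl,
    ⟨interior K', isOpen_interior, hKK', interior_subset.trans hK'O, fun z hz => ?_⟩, ?_⟩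
  · intro z
    by_cases hz : z ∈ tsupport f
    · rw [norm_smul, Real.norm_eq_abs, abs_of_nonneg (h01 z).1]
      have h1 := hTb z (hfO hz)
      have h2 := (h01 z).2
      have h3 := (h01 z).1
      nlinarith [norm_nonneg (T z)]
    · rw [image_eq_zero_of_notMem_tsupport hz, show (0 : ℝ) • T z = 0 from zero_smul ℝ (T z),
        norm_zero]
      norm_num
  · exact (hK'.cthickening (r := r / 4)).of_isClosed_subset (isClosed_tsupport _) (hVsup.trans hts)
  · intro z hz y hy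
    apply hOt
    apply hrt
    have h1 := mem_cthickening_iff.1 (hts (hVsup hz))
    rw [mem_cthickening_iff]
    calc infEDist y K' ≤ edist y z + infEDist z K' := infEDist_le_edist_add_infEDist
      _ ≤ ENNReal.ofReal (2 * (r / 4)) + ENNReal.ofReal (r / 4) := by
          gcongr
          rw [edist_dist]
          exact ENNReal.ofReal_le_ofReal hy
      _ ≤ ENNReal.ofReal r := by
          rw [← ENNReal.ofReal_add (by positivity) hr4.le]
          exact ENNReal.ofReal_le_ofReal (by linarith)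
  · show f z • T z = T z
    rw [(hf3 z).1 (interior_subset hz)]
    exact one_smul ℝ (T z)
  · exact hVsup.trans hfO

end Pool.Agent.H819.LN
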