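import Mathlib
import Pool.Agent.H819.LG.CV

/-!
# The masses of balls in two charts
-/

set_option autoImplicit false

open Set Filter Topology MeasureTheory Metric
open scoped Manifold ContDiff ENNReal NNReal

noncomputable section

namespace Pool.Agent.H819.LN

open Pool.Agent.Y501.SY
open Pool.Agent.H819.LG (tr trD tr_smooth isOpen_trD pb_tr norm_comp2 chart_compare)

variable {d : ℕ} {X : Type} [TopologicalSpace X] [ChartedSpace (E d) X] [IsManifold (𝓡 d) ∞ X]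

/-- **The masses of balls in two charts.**

Proof.  `τ = tr x₀ x₁` is smooth on the open set `trD x₀ x₁` (`tr_smooth`, `isOpen_trD`), so it is
`L`-Lipschitz on a closed ball `closedBall z (2 * s₀) ⊆ trD x₀ x₁`
(`ContDiffAt.exists_lipschitzOnWith`), hence maps `closedBall z'' s` into
`closedBall (τ z'') (L * s)` for `‖z'' - z‖ ≤ s₀`, `s ≤ s₀`.  Change of variables with
`lintegral_image_eq_lintegral_abs_det_fderiv_mul`, `pb_tr` and `norm_comp2` as in
`chart_compare`. -/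
theorem dens_chart [T2Space X] (x₀ x₁ : X) {z : E d} (hz : z ∈ trD (d := d) x₀ x₁) :
    ∃ s₀ : ℝ, 0 < s₀ ∧ ∃ L : ℝ, 1 ≤ L ∧ ∃ C : ℝ, 0 ≤ C ∧ ∀ z' ∈ closedBall z s₀,
      z' ∈ trD (d := d) x₀ x₁ ∧ ‖tr x₀ x₁ z' - tr x₀ x₁ z‖ ≤ L * ‖z' - z‖ ∧
      ∀ s : ℝ, 0 ≤ s → s ≤ s₀ → ∀ θ : Form d X 2,
        ∫⁻ w in closedBall z' s, ‖pb (chartAt (E d) x₀).symm θ w‖ₑ ≤
          ENNReal.ofReal C * ∫⁻ w in closedBall (tr x₀ x₁ z') (L * s),
            ‖pb (chartAt (E d) x₁).symm θ w‖ₑ := by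
  have hO := isOpen_trD (d := d) x₀ x₁
  have hcd : ContDiffAt ℝ 1 (tr (d := d) x₀ x₁) z :=
    ((tr_smooth x₀ x₁).contDiffAt (hO.mem_nhds hz)).of_le (by simp)
  obtain ⟨K, t, ht, hK⟩ := hcd.exists_lipschitzOnWith
  obtain ⟨r, hr, hrs⟩ : ∃ r : ℝ, 0 < r ∧ closedBall z r ⊆ t ∩ trD x₀ x₁ :=
    Metric.nhds_basis_closedBall.mem_iff.1 (inter_mem ht (hO.mem_nhds hz))
  set D : Set (E d) := closedBall z r with hD
  have hDc : IsCompact D := isCompact_closedBall z r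
  have hDO : D ⊆ trD x₀ x₁ := fun y hy => (hrs hy).2
  have hfc : ContinuousOn (fun z => fderiv ℝ (tr (d := d) x₀ x₁) z) D :=
    ((tr_smooth x₀ x₁).continuousOn_fderiv_of_isOpen (isOpen_trD x₀ x₁) (by simp)).mono hDO
  obtain ⟨M, hM⟩ := hDc.exists_bound_of_continuousOn hfc
  obtain ⟨m, hm, hm'⟩ : ∃ m : ℝ, 0 < m ∧ ∀ z ∈ D, m ≤ |(fderiv ℝ (tr (d := d) x₀ x₁) z).det| := by
    rcases D.eq_empty_or_nonempty with h0 | h0
    · exact ⟨1, one_pos, fun z hz => by rw [h0] at hz; exact hz.elim⟩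
    · have hc : ContinuousOn (fun z => |(fderiv ℝ (tr (d := d) x₀ x₁) z).det|) D :=
        (ContinuousLinearMap.continuous_det.comp_continuousOn hfc).abs
      obtain ⟨z, hz, hmin⟩ := hDc.exists_isMinOn h0 hc
      exact ⟨_, abs_pos.2 (LG.tr_det (hDO hz)), fun y hy => hmin hy⟩
  have hzD : z ∈ D := mem_closedBall_self hr.le
  refine ⟨r / 2, by positivity, max (K : ℝ) 1, le_max_right _ _, M ^ 2 / m, by positivity,
    fun z' hz' => ?_⟩
  have hz'D : z' ∈ D := closedBall_subset_closedBall (by linarith) hz'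
  refine ⟨hDO hz'D, ?_, fun s hs hs0 θ => ?_⟩
  · have h1 := hK.dist_le_mul z' (hrs hz'D).1 z (hrs hzD).1
    rw [dist_eq_norm, dist_eq_norm] at h1
    exact h1.trans (mul_le_mul_of_nonneg_right (le_max_left _ _) (norm_nonneg _))
  · set B : Set (E d) := closedBall z' s with hB
    have hBD : B ⊆ D := by
      refine closedBall_subset_closedBall' ?_
      have : dist z' z ≤ r / 2 := hz'
      linarith
    have hBm : MeasurableSet B := measurableSet_closedBall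
    have hBO : B ⊆ trD x₀ x₁ := hBD.trans hDO
    have h4 : ∀ z ∈ B, ‖pb (chartAt (E d) x₀).symm θ z‖ₑ ≤ ENNReal.ofReal (M ^ 2 / m) *
        (ENNReal.ofReal |(fderiv ℝ (tr (d := d) x₀ x₁) z).det| *
          ‖pb (chartAt (E d) x₁).symm θ (tr x₀ x₁ z)‖ₑ) := by
      intro z hz
      rw [pb_tr θ (hBO hz)]
      set f := pb (chartAt (E d) x₁).symm θ (tr x₀ x₁ z) with hf
      have h5 := norm_comp2 f (fderiv ℝ (tr x₀ x₁) z)
      have hm'' := hm' z (hBD hz)
      have hM'' := hM z (hBD hz)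
      have h6 : ‖f.compContinuousLinearMap (fderiv ℝ (tr x₀ x₁) z)‖ ≤
          M ^ 2 / m * (|(fderiv ℝ (tr (d := d) x₀ x₁) z).det| * ‖f‖) := by
        calc ‖f.compContinuousLinearMap (fderiv ℝ (tr x₀ x₁) z)‖
            ≤ ‖f‖ * ‖fderiv ℝ (tr x₀ x₁) z‖ ^ 2 := h5
          _ ≤ ‖f‖ * M ^ 2 := by gcongr
          _ = M ^ 2 / m * (m * ‖f‖) := by field_simp
          _ ≤ _ := by gcongr
      rw [← ofReal_norm, ← ofReal_norm, ← ENNReal.ofReal_mul (abs_nonneg _),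
        ← ENNReal.ofReal_mul (by positivity)]
      exact ENNReal.ofReal_le_ofReal h6
    calc ∫⁻ z in B, ‖pb (chartAt (E d) x₀).symm θ z‖ₑ
        ≤ ∫⁻ z in B, ENNReal.ofReal (M ^ 2 / m) *
          (ENNReal.ofReal |(fderiv ℝ (tr (d := d) x₀ x₁) z).det| *
          ‖pb (chartAt (E d) x₁).symm θ (tr x₀ x₁ z)‖ₑ) := setLIntegral_mono' hBm h4
      _ = ENNReal.ofReal (M ^ 2 / m) * ∫⁻ z in B,
          (ENNReal.ofReal |(fderiv ℝ (tr (d := d) x₀ x₁) z).det| *
          ‖pb (chartAt (E d) x₁).symm θ (tr x₀ x₁ z)‖ₑ) :=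
          lintegral_const_mul' _ _ ENNReal.ofReal_ne_top
      _ = ENNReal.ofReal (M ^ 2 / m) * ∫⁻ z in tr x₀ x₁ '' B,
          ‖pb (chartAt (E d) x₁).symm θ z‖ₑ := by
          rw [lintegral_image_eq_lintegral_abs_det_fderiv_mul volume hBm
            (fun z hz => (LG.tr_diff (hBO hz)).hasFDerivAt.hasFDerivWithinAt)
            ((LG.tr_injOn x₀ x₁).mono hBO)]
      _ ≤ _ := by
          gcongr
          rintro _ ⟨w, hw, rfl⟩
          have h7 := hK.dist_le_mul w (hrs (hBD hw)).1 z' (hrs hz'D).1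
          have h8 : dist w z' ≤ s := hw
          refine mem_closedBall.2 (h7.trans ?_)
          exact mul_le_mul (le_max_left _ _) h8 dist_nonneg (by positivity)

end Pool.Agent.H819.LN
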