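import Mathlib
import Pool.Agent.H819.LN.Stat

/-!
# The monotonicity formula
-/

set_option autoImplicit false

open Set Filter Topology MeasureTheory Metric
open scoped ContDiff ENNReal NNReal RealInnerProductSpace

noncomputable section

namespace Pool.Agent.H819.LN

open Pool.Agent.Y501.SY (E)
open Pool.Agent.H819.LG (int_bilin continuous_ev2 form2_le)

variable {d : ℕ}

theorem int_term2 {U S : Set (E d)} (hS : IsCompact S) (hSU : S ⊆ U)
    {θ : E d → (E d) [⋀^Fin 2]→L[ℝ] ℝ} (hθ : LocallyIntegrableOn θ U) {ψ : E d → ℝ}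
    (hψ : Continuous ψ) (h0 : ∀ z, z ∉ S → ψ z = 0) {w₁ w₂ : E d → E d} (h1 : Continuous w₁)
    (h2 : Continuous w₂) : Integrable (fun z => θ z ![w₁ z, w₂ z] * ψ z) := by
  have hi : IntegrableOn θ S := hθ.integrableOn_compact_subset hSU hS
  obtain ⟨C, hC⟩ := hS.exists_bound_of_continuousOn
    (f := fun z => ‖w₁ z‖ * ‖w₂ z‖ * ψ z) (by fun_prop)
  have hm : AEStronglyMeasurable (fun z => θ z ![w₁ z, w₂ z] * ψ z) (volume.restrict S) := by
    have hw : Continuous (fun z => (![w₁ z, w₂ z] : Fin 2 → E d)) := by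
      refine continuous_pi fun i => ?_
      fin_cases i
      · exact h1
      · exact h2
    have := continuous_ev2.comp_aestronglyMeasurable
      (hi.aestronglyMeasurable.prodMk hw.aestronglyMeasurable)
    exact this.mul hψ.aestronglyMeasurable
  have h3 : IntegrableOn (fun z => θ z ![w₁ z, w₂ z] * ψ z) S := by
    refine Integrable.mono' (hi.norm.const_mul |C|) hm ?_
    refine (ae_restrict_iff' hS.measurableSet).2 (Eventually.of_forall fun z hz => ?_)
    have h4 := form2_le (θ z) (w₁ z) (w₂ z)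
    have h5 := hC z hz
    rw [Real.norm_eq_abs, abs_mul, abs_of_nonneg (by positivity)] at h5
    rw [norm_mul, Real.norm_eq_abs, Real.norm_eq_abs]
    calc |θ z ![w₁ z, w₂ z]| * |ψ z| ≤ ‖θ z‖ * (‖w₁ z‖ * ‖w₂ z‖) * |ψ z| := by gcongr
      _ = (‖w₁ z‖ * ‖w₂ z‖ * |ψ z|) * ‖θ z‖ := by ring
      _ ≤ |C| * ‖θ z‖ := by
        gcongr
        exact h5.trans (le_abs_self C)
  refine (integrableOn_iff_integrable_of_support_subset ?_).1 h3
  intro z hz
  by_contra h
  apply hz
  show θ z _ * ψ z = 0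
  rw [h0 z h, mul_zero]

theorem int_tr {U S : Set (E d)} (hS : IsCompact S) (hSU : S ⊆ U)
    {θ : E d → (E d) [⋀^Fin 2]→L[ℝ] ℝ} (hθ : LocallyIntegrableOn θ U) {ψ : E d → ℝ}
    (hψ : Continuous ψ) (h0 : ∀ z, z ∉ S → ψ z = 0) (J : E d →L[ℝ] E d)
    (e : OrthonormalBasis (Fin d) ℝ (E d)) (g : Fin d → ℝ) :
    Integrable (fun z => tr J e g (θ z) * ψ z) := by
  have h1 : ∀ i, Integrable (fun z => (g i)⁻¹ * (θ z ![e i, J (e i)] * ψ z)) := fun i =>
    (int_term hS hSU hθ hψ h0 _).const_mul _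
  have h2 := integrable_finsetSum Finset.univ fun i _ => h1 i
  refine h2.congr (Eventually.of_forall fun z => ?_)
  unfold tr
  simp only
  rw [Finset.sum_mul]
  refine Finset.sum_congr rfl fun i _ => ?_
  ring

/-- the weighted mass -/
def mI (J : E d →L[ℝ] E d) (e : OrthonormalBasis (Fin d) ℝ (E d)) (g : Fin d → ℝ)
    (θ : E d → (E d) [⋀^Fin 2]→L[ℝ] ℝ) (z₀ : E d) (ρ : ℝ) : ℝ :=
  ∫ z, tr J e g (θ z) * eta (qf J (z - z₀) / ρ ^ 2)

/-- its derivative, up to the factor `ρ / 2` -/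
def mD (J : E d →L[ℝ] E d) (e : OrthonormalBasis (Fin d) ℝ (E d)) (g : Fin d → ℝ)
    (θ : E d → (E d) [⋀^Fin 2]→L[ℝ] ℝ) (z₀ : E d) (ρ : ℝ) : ℝ :=
  ∫ z, tr J e g (θ z) * (- deriv eta (qf J (z - z₀) / ρ ^ 2) * (qf J (z - z₀) / ρ ^ 2))

theorem q_far (J : E d →L[ℝ] E d) {z₀ z : E d} {r ρ : ℝ} (hρ : 0 < ρ) (hr : 2 * ρ ≤ r)
    (hz : z ∉ closedBall z₀ r) : 1 ≤ qf J (z - z₀) / ρ ^ 2 := by
  rw [mem_closedBall, dist_eq_norm, not_le] at hz
  have h1 := qf_lower J (z - z₀)
  have h2 : (2 * ρ) ^ 2 ≤ ‖z - z₀‖ ^ 2 := pow_le_pow_left₀ (by positivity) (hr.trans hz.le) 2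
  rw [le_div_iff₀ (by positivity)]
  nlinarith

theorem continuous_q (J : E d →L[ℝ] E d) (z₀ : E d) : Continuous (fun z => qf J (z - z₀)) :=
  (qf_smooth J).continuous.comp (by fun_prop)

section

variable {U : Set (E d)} {θ : E d → (E d) [⋀^Fin 2]→L[ℝ] ℝ} {J : E d →L[ℝ] E d}
  {e : OrthonormalBasis (Fin d) ℝ (E d)} {g : Fin d → ℝ} {z₀ : E d} {r : ℝ}

theorem int_eta (hθ : LocallyIntegrableOn θ U) (hB : closedBall z₀ r ⊆ U) {ρ : ℝ} (hρ : 0 < ρ)
    (hr : 2 * ρ ≤ r) :
    Integrable (fun z => tr J e g (θ z) * eta (qf J (z - z₀) / ρ ^ 2)) := by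
  refine int_tr (isCompact_closedBall z₀ r) hB hθ ?_ ?_ J e g
  · have := continuous_q J z₀
    exact eta_smooth.continuous.comp (by fun_prop)
  · intro z hz
    exact eta_zero (q_far J hρ hr hz)

theorem int_deta (hθ : LocallyIntegrableOn θ U) (hB : closedBall z₀ r ⊆ U) {ρ : ℝ} (hρ : 0 < ρ)
    (hr : 2 * ρ ≤ r) :
    Integrable (fun z => tr J e g (θ z) *
      (- deriv eta (qf J (z - z₀) / ρ ^ 2) * (qf J (z - z₀) / ρ ^ 2))) := by
  refine int_tr (isCompact_closedBall z₀ r) hB hθ ?_ ?_ J e g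
  · have := continuous_q J z₀
    have h1 : Continuous (fun z => qf J (z - z₀) / ρ ^ 2) := by fun_prop
    exact (deriv_eta_cont.comp h1).neg.mul h1
  · intro z hz
    rw [deriv_eta_zero (q_far J hρ hr hz), neg_zero, zero_mul]

theorem mI_deriv (hθ : LocallyIntegrableOn θ U) (hB : closedBall z₀ r ⊆ U) {ρ : ℝ} (hρ : 0 < ρ)
    (hr : 2 * ρ < r) : HasDerivAt (mI J e g θ z₀) (2 / ρ * mD J e g θ z₀ ρ) ρ := by
  set S := closedBall z₀ r with hS
  have hSc : IsCompact S := isCompact_closedBall _ _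
  have hqc := continuous_q J z₀
  set f : E d → ℝ := fun z => tr J e g (θ z) with hf
  have hfi : IntegrableOn f S := by
    have hi : IntegrableOn θ S := hθ.integrableOn_compact_subset hB hSc
    rw [hf]
    unfold tr
    refine integrable_finsetSum _ fun i _ => ?_
    exact ((Pool.Agent.Y431.SY.ev ![e i, J (e i)]).integrable_comp hi).const_mul _
  obtain ⟨ε, hε, hε1, hε2⟩ : ∃ ε : ℝ, 0 < ε ∧ ε ≤ ρ / 2 ∧ 2 * (ρ + ε) ≤ r :=
    ⟨min (ρ / 2) ((r - 2 * ρ) / 2), by
      have : 0 < r - 2 * ρ := by linarith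
      positivity, min_le_left _ _, by
      have := min_le_right (ρ / 2) ((r - 2 * ρ) / 2)
      linarith⟩
  have hball : ∀ x ∈ ball ρ ε, ρ / 2 ≤ x ∧ 2 * x ≤ r := by
    intro x hx
    rw [mem_ball, Real.dist_eq, abs_lt] at hx
    exact ⟨by linarith [hx.1], by linarith [hx.2]⟩
  have hres : ∀ x, ρ / 2 ≤ x → 2 * x ≤ r → mI J e g θ z₀ x =
      ∫ z in S, f z * eta (qf J (z - z₀) / x ^ 2) := by
    intro x hx1 hx2
    unfold mI
    rw [setIntegral_eq_integral_of_forall_compl_eq_zero]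
    intro z hz
    rw [eta_zero (q_far J (by linarith) hx2 hz), mul_zero]
  obtain ⟨B, hB0, hBd⟩ := exists_deriv_bound
  obtain ⟨Q, hQ⟩ := hSc.exists_bound_of_continuousOn (hqc.continuousOn (s := S))
  have hQ0 : 0 ≤ Q := by
    have := hQ z₀ (mem_closedBall_self (by linarith))
    exact (norm_nonneg _).trans this
  have key := hasDerivAt_integral_of_dominated_loc_of_deriv_le (μ := volume.restrict S)
    (F := fun x z => f z * eta (qf J (z - z₀) / x ^ 2))
    (F' := fun x z => f z * (deriv eta (qf J (z - z₀) / x ^ 2) *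
      (- (2 * x) * qf J (z - z₀) / (x ^ 2) ^ 2)))
    (x₀ := ρ) (s := ball ρ ε) (bound := fun z => ‖f z‖ * (B * (2 * r * Q / ((ρ / 2) ^ 2) ^ 2)))
    (ball_mem_nhds ρ hε) ?_ ?_ ?_ ?_ ?_ ?_
  · have h1 := key.2
    have h2 : (fun x => ∫ z in S, f z * eta (qf J (z - z₀) / x ^ 2)) =ᶠ[𝓝 ρ]
        mI J e g θ z₀ := by
      filter_upwards [ball_mem_nhds ρ hε] with x hx
      exact (hres x (hball x hx).1 (hball x hx).2).symm
    have h3 := h1.congr_of_eventuallyEq h2.symm
    refine h3.congr_deriv ?_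
    unfold mD
    rw [← integral_const_mul, setIntegral_eq_integral_of_forall_compl_eq_zero]
    · refine integral_congr_ae (Eventually.of_forall fun z => ?_)
      simp only [hf]
      field_simp
    · intro z hz
      rw [deriv_eta_zero (q_far J hρ hr.le hz)]
      ring
  · refine Eventually.of_forall fun x => ?_
    have h1 : Continuous (fun z => eta (qf J (z - z₀) / x ^ 2)) :=
      eta_smooth.continuous.comp (by fun_prop)
    exact hfi.aestronglyMeasurable.mul h1.aestronglyMeasurable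
  · refine Integrable.mono' hfi.norm ?_ ?_
    · have h1 : Continuous (fun z => eta (qf J (z - z₀) / ρ ^ 2)) :=
        eta_smooth.continuous.comp (by fun_prop)
      exact hfi.aestronglyMeasurable.mul h1.aestronglyMeasurable
    · refine Eventually.of_forall fun z => ?_
      rw [norm_mul]
      have h1 : ‖eta (qf J (z - z₀) / ρ ^ 2)‖ ≤ 1 := by
        rw [Real.norm_eq_abs, abs_of_nonneg (eta_nonneg _)]
        exact eta_le_one _
      nlinarith [norm_nonneg (f z)]
  · have h1 : Continuous (fun z => deriv eta (qf J (z - z₀) / ρ ^ 2) *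
        (- (2 * ρ) * qf J (z - z₀) / (ρ ^ 2) ^ 2)) := by
      have h2 : Continuous (fun z => qf J (z - z₀) / ρ ^ 2) := by fun_prop
      exact (deriv_eta_cont.comp h2).mul (by fun_prop)
    exact hfi.aestronglyMeasurable.mul h1.aestronglyMeasurable
  · refine (ae_restrict_iff' hSc.measurableSet).2 (Eventually.of_forall fun z hz x hx => ?_)
    obtain ⟨hx1, hx2⟩ := hball x hx
    have hx0 : 0 < x := by linarith
    have hq0 := qf_nonneg J (z - z₀)
    have hqQ : qf J (z - z₀) ≤ Q := (le_abs_self _).trans (hQ z hz)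
    rw [norm_mul, norm_mul, Real.norm_eq_abs (deriv _ _), Real.norm_eq_abs (_ / _)]
    have h1 : |deriv eta (qf J (z - z₀) / x ^ 2)| ≤ B := hBd _ (by positivity)
    have h2 : |- (2 * x) * qf J (z - z₀) / (x ^ 2) ^ 2| ≤ 2 * r * Q / ((ρ / 2) ^ 2) ^ 2 := by
      rw [abs_div, abs_mul, abs_neg, abs_of_nonneg (by positivity : (0 : ℝ) ≤ 2 * x),
        abs_of_nonneg hq0, abs_of_nonneg (by positivity : (0 : ℝ) ≤ (x ^ 2) ^ 2)]
      have hr0 : 0 < r := by linarith
      have h3 : 2 * x * qf J (z - z₀) ≤ 2 * r * Q := by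
        have : x ≤ r := by linarith
        gcongr
      gcongr
    gcongr
  · exact hfi.norm.mul_const _
  · refine Eventually.of_forall fun z x hx => ?_
    obtain ⟨hx1, hx2⟩ := hball x hx
    have hx0 : 0 < x := by linarith
    have h1 : HasDerivAt (fun x : ℝ => qf J (z - z₀) / x ^ 2)
        (- (2 * x) * qf J (z - z₀) / (x ^ 2) ^ 2) x := by
      have h2 : HasDerivAt (fun x : ℝ => x ^ 2) (2 * x) x := by
        simpa using hasDerivAt_pow 2 x
      have h3 := (hasDerivAt_const x (qf J (z - z₀))).div h2 (by positivity)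
      refine h3.congr_deriv ?_
      ring
    exact ((eta_hasDeriv _).comp x h1).const_mul (f z)

end

end Pool.Agent.H819.LN
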