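import Mathlib
import Pool.Agent.H819.LN.Mono

/-!
# The monotonicity formula, continued
-/

set_option autoImplicit false

open Set Filter Topology MeasureTheory Metric
open scoped ContDiff ENNReal NNReal RealInnerProductSpace

noncomputable section

namespace Pool.Agent.H819.LN

open Pool.Agent.Y501.SY (E)
open Pool.Agent.H819.LG (int_bilin continuous_ev2 form2_le)

variable {d : ℕ}

section

variable {U : Set (E d)} {θ : E d → (E d) [⋀^Fin 2]→L[ℝ] ℝ} {J : E d →L[ℝ] E d}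
  {e : OrthonormalBasis (Fin d) ℝ (E d)} {g : Fin d → ℝ} {z₀ : E d} {r : ℝ}

/-- The identity between the weighted mass and its derivative. -/
theorem mI_identity (hθ : LocallyIntegrableOn θ U) (hw : WeakClosed U θ) (hA : Adapted J e g)
    (hB : closedBall z₀ r ⊆ U) {ρ : ℝ} (hρ : 0 < ρ) (hr : 2 * ρ ≤ r) :
    2 * mD J e g θ z₀ ρ = ((d : ℝ) - 2) * mI J e g θ z₀ ρ +
      ∫ z, θ z ![z - z₀, J (z - z₀)] *
        (- deriv eta (qf J (z - z₀) / ρ ^ 2) * (4 / ρ ^ 2)) := by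
  have hr0 : 0 < r := by linarith
  have hρ2 : (0 : ℝ) < ρ ^ 2 := by positivity
  have hqc := continuous_q J z₀
  set h : ℝ → ℝ := fun s => eta (s / ρ ^ 2) with hh
  have hhs : ContDiff ℝ ∞ h := eta_smooth.comp (by fun_prop)
  have hhd : ∀ s, deriv h s = deriv eta (s / ρ ^ 2) / ρ ^ 2 := by
    intro s
    have h1 : HasDerivAt (fun s : ℝ => s / ρ ^ 2) (1 / ρ ^ 2) s := (hasDerivAt_id s).div_const _
    have h2 := (eta_hasDeriv (s / ρ ^ 2)).comp s h1
    have h3 : HasDerivAt h (deriv eta (s / ρ ^ 2) * (1 / ρ ^ 2)) s := h2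
    rw [h3.deriv]
    ring
  have hst := stationary hθ hw hA hB hhs (by
    intro s hs
    refine eta_zero ?_
    rw [le_div_iff₀ hρ2]
    have : (2 * ρ) ^ 2 ≤ r ^ 2 := pow_le_pow_left₀ (by positivity) hr 2
    nlinarith) hr0
  simp only [hhd] at hst
  have i1 := int_deta (J := J) (e := e) (g := g) hθ hB hρ hr
  have i2 := int_eta (J := J) (e := e) (g := g) hθ hB hρ hr
  have i3 : Integrable (fun z => θ z ![z - z₀, J (z - z₀)] *
      (- deriv eta (qf J (z - z₀) / ρ ^ 2) * (4 / ρ ^ 2))) := by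
    refine int_term2 (isCompact_closedBall z₀ r) hB hθ ?_ ?_ (by fun_prop)
      (J.continuous.comp (by fun_prop))
    · have h1 : Continuous (fun z => qf J (z - z₀) / ρ ^ 2) := by fun_prop
      exact (deriv_eta_cont.comp h1).neg.mul continuous_const
    · intro z hz
      rw [deriv_eta_zero (q_far J hρ hr hz), neg_zero, zero_mul]
  have h1 : ∫ z, (- 2 * (tr J e g (θ z) *
      (- deriv eta (qf J (z - z₀) / ρ ^ 2) * (qf J (z - z₀) / ρ ^ 2))) +
      ((d : ℝ) - 2) * (tr J e g (θ z) * eta (qf J (z - z₀) / ρ ^ 2)) +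
      θ z ![z - z₀, J (z - z₀)] * (- deriv eta (qf J (z - z₀) / ρ ^ 2) * (4 / ρ ^ 2))) = 0 := by
    rw [← hst]
    refine integral_congr_ae (Eventually.of_forall fun z => ?_)
    simp only [hh]
    ring
  have j12 : Integrable (fun z => - 2 * (tr J e g (θ z) *
      (- deriv eta (qf J (z - z₀) / ρ ^ 2) * (qf J (z - z₀) / ρ ^ 2))) +
      ((d : ℝ) - 2) * (tr J e g (θ z) * eta (qf J (z - z₀) / ρ ^ 2))) :=
    (i1.const_mul _).add (i2.const_mul _)
  rw [integral_add j12 i3,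
    integral_add (i1.const_mul _) (i2.const_mul _), integral_const_mul, integral_const_mul] at h1
  unfold mI mD
  linarith

/-- The pointwise hypotheses of the monotonicity formula. -/
def Pt (J : E d →L[ℝ] E d) (e : OrthonormalBasis (Fin d) ℝ (E d)) (g : Fin d → ℝ)
    (θ : E d → (E d) [⋀^Fin 2]→L[ℝ] ℝ) (z₀ : E d) (K L : ℝ) (z : E d) : Prop :=
  ‖θ z‖ ≤ K * tr J e g (θ z) ∧ - (L * ‖z - z₀‖ ^ 3 * ‖θ z‖) ≤ θ z ![z - z₀, J (z - z₀)]

theorem Pt.tr_nonneg {K L : ℝ} (hK : 0 < K) {z : E d} (h : Pt J e g θ z₀ K L z) :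
    0 ≤ tr J e g (θ z) := by
  by_contra h1
  rw [not_le] at h1
  have := h.1
  nlinarith [norm_nonneg (θ z)]

/-- **The differential inequality.** -/
theorem diff_ineq (hθ : LocallyIntegrableOn θ U) (hw : WeakClosed U θ) (hA : Adapted J e g)
    (hB : closedBall z₀ r ⊆ U) {K L : ℝ} (hK : 0 < K) (hL : 0 ≤ L)
    (hP : ∀ᵐ z ∂(volume.restrict (closedBall z₀ r)), Pt J e g θ z₀ K L z) {ρ : ℝ} (hρ : 0 < ρ)
    (hr : 2 * ρ ≤ r) :
    0 ≤ mI J e g θ z₀ ρ ∧ 0 ≤ mD J e g θ z₀ ρ ∧ ((d : ℝ) - 2) * mI J e g θ z₀ ρ ≤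
      (1 + 8 * L * K * ρ) * (2 * mD J e g θ z₀ ρ) := by
  have hρ2 : (0 : ℝ) < ρ ^ 2 := by positivity
  have hqc := continuous_q J z₀
  have hP' : ∀ᵐ z ∂(volume : Measure (E d)), z ∈ closedBall z₀ r → Pt J e g θ z₀ K L z :=
    (ae_restrict_iff' measurableSet_closedBall).1 hP
  have i1 := int_deta (J := J) (e := e) (g := g) hθ hB hρ hr
  have i2 := int_eta (J := J) (e := e) (g := g) hθ hB hρ hr
  have i3 : Integrable (fun z => θ z ![z - z₀, J (z - z₀)] *
      (- deriv eta (qf J (z - z₀) / ρ ^ 2) * (4 / ρ ^ 2))) := by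
    refine int_term2 (isCompact_closedBall z₀ r) hB hθ ?_ ?_ (by fun_prop)
      (J.continuous.comp (by fun_prop))
    · have h1 : Continuous (fun z => qf J (z - z₀) / ρ ^ 2) := by fun_prop
      exact (deriv_eta_cont.comp h1).neg.mul continuous_const
    · intro z hz
      rw [deriv_eta_zero (q_far J hρ hr hz), neg_zero, zero_mul]
  refine ⟨?_, ?_, ?_⟩
  · refine integral_nonneg_of_ae ?_
    filter_upwards [hP'] with z hz
    by_cases h : z ∈ closedBall z₀ r
    · exact mul_nonneg ((hz h).tr_nonneg hK) (eta_nonneg _)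
    · show 0 ≤ _ * _
      rw [eta_zero (q_far J hρ hr h), mul_zero]
  · refine integral_nonneg_of_ae ?_
    filter_upwards [hP'] with z hz
    by_cases h : z ∈ closedBall z₀ r
    · have h1 := deriv_eta_nonpos (qf J (z - z₀) / ρ ^ 2)
      have h2 := qf_nonneg J (z - z₀)
      exact mul_nonneg ((hz h).tr_nonneg hK) (mul_nonneg (by linarith) (by positivity))
    · show 0 ≤ _ * _
      rw [deriv_eta_zero (q_far J hρ hr h), neg_zero, zero_mul, mul_zero]
  · have hid := mI_identity hθ hw hA hB hρ hr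
    have hlow : - (16 * L * K * ρ) * mD J e g θ z₀ ρ ≤ ∫ z, θ z ![z - z₀, J (z - z₀)] *
        (- deriv eta (qf J (z - z₀) / ρ ^ 2) * (4 / ρ ^ 2)) := by
      unfold mD
      rw [← integral_const_mul]
      refine integral_mono_ae (i1.const_mul _) i3 ?_
      filter_upwards [hP'] with z hz
      set q := qf J (z - z₀) with hq
      have hq0 : 0 ≤ q := qf_nonneg J (z - z₀)
      by_cases h1 : 1 ≤ q / ρ ^ 2
      · rw [deriv_eta_zero h1]
        simp
      · rw [not_le, div_lt_one hρ2] at h1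
        have h : z ∈ closedBall z₀ r := by
          by_contra h2
          have := q_far J hρ hr h2
          rw [le_div_iff₀ hρ2] at this
          linarith
        obtain ⟨h3, h4⟩ := hz h
        have h5 := (hz h).tr_nonneg hK
        set u := ‖z - z₀‖ with hu
        have hu0 : 0 ≤ u := norm_nonneg _
        have hq1 : u ^ 2 ≤ 2 * q := qf_lower J (z - z₀)
        have hu1 : u ≤ 2 * ρ := by
          by_contra h6
          rw [not_le] at h6
          nlinarith
        have hu3 : u ^ 3 ≤ 4 * ρ * q := by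
          calc u ^ 3 = u * u ^ 2 := by ring
            _ ≤ (2 * ρ) * (2 * q) := mul_le_mul hu1 hq1 (by positivity) (by positivity)
            _ = _ := by ring
        have h7 : L * u ^ 3 * ‖θ z‖ ≤ 4 * L * K * ρ * q * tr J e g (θ z) := by
          calc L * u ^ 3 * ‖θ z‖ ≤ L * (4 * ρ * q) * (K * tr J e g (θ z)) := by gcongr
            _ = _ := by ring
        have h8 := deriv_eta_nonpos (q / ρ ^ 2)
        have h9 : 0 ≤ - deriv eta (q / ρ ^ 2) * (4 / ρ ^ 2) :=
          mul_nonneg (by linarith) (by positivity)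
        calc - (16 * L * K * ρ) * (tr J e g (θ z) * (- deriv eta (q / ρ ^ 2) * (q / ρ ^ 2)))
            = - (4 * L * K * ρ * q * tr J e g (θ z)) * (- deriv eta (q / ρ ^ 2) * (4 / ρ ^ 2)) := by
              field_simp
              ring
          _ ≤ θ z ![z - z₀, J (z - z₀)] * (- deriv eta (q / ρ ^ 2) * (4 / ρ ^ 2)) := by
              refine mul_le_mul_of_nonneg_right ?_ h9
              linarith
    nlinarith

/-- **Monotonicity** of the weighted density. -/
theorem mono_F (hd : 2 ≤ d) (hθ : LocallyIntegrableOn θ U) (hw : WeakClosed U θ)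
    (hA : Adapted J e g) (hB : closedBall z₀ r ⊆ U) {K L : ℝ} (hK : 0 < K) (hL : 0 ≤ L)
    (hP : ∀ᵐ z ∂(volume.restrict (closedBall z₀ r)), Pt J e g θ z₀ K L z) :
    MonotoneOn (fun ρ => Real.exp (((d : ℝ) - 2) * (8 * L * K) * ρ) * (mI J e g θ z₀ ρ /
      ρ ^ (d - 2))) (Ioo 0 (r / 2)) := by
  set a : ℝ := 8 * L * K with ha
  have ha0 : 0 ≤ a := by positivity
  have hder : ∀ ρ ∈ Ioo (0 : ℝ) (r / 2), HasDerivAt (fun ρ => Real.exp (((d : ℝ) - 2) * a * ρ) *
      (mI J e g θ z₀ ρ / ρ ^ (d - 2))) (Real.exp (((d : ℝ) - 2) * a * ρ) * (((d : ℝ) - 2) * a) *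
      (mI J e g θ z₀ ρ / ρ ^ (d - 2)) + Real.exp (((d : ℝ) - 2) * a * ρ) *
      ((2 / ρ * mD J e g θ z₀ ρ * ρ ^ (d - 2) - mI J e g θ z₀ ρ *
        (((d - 2 : ℕ) : ℝ) * ρ ^ (d - 2 - 1))) / (ρ ^ (d - 2)) ^ 2)) ρ := by
    intro ρ hρ
    have h1 := mI_deriv (J := J) (e := e) (g := g) hθ hB hρ.1 (by linarith [hρ.2])
    have h2 : HasDerivAt (fun ρ : ℝ => ρ ^ (d - 2)) (((d - 2 : ℕ) : ℝ) * ρ ^ (d - 2 - 1)) ρ :=
      hasDerivAt_pow (d - 2) ρ
    have h3 := h1.div h2 (pow_pos hρ.1 _).ne'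
    have h4 : HasDerivAt (fun ρ : ℝ => ((d : ℝ) - 2) * a * ρ) (((d : ℝ) - 2) * a) ρ := by
      simpa using (hasDerivAt_id ρ).const_mul (((d : ℝ) - 2) * a)
    exact h4.exp.mul h3
  refine monotoneOn_of_deriv_nonneg (convex_Ioo _ _) ?_ ?_ ?_
  · intro ρ hρ
    exact (hder ρ hρ).continuousAt.continuousWithinAt
  · intro ρ hρ
    rw [interior_Ioo] at hρ
    exact (hder ρ hρ).differentiableAt.differentiableWithinAt
  · intro ρ hρ
    rw [interior_Ioo] at hρ
    rw [(hder ρ hρ).deriv]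
    obtain ⟨h1, h2, h3⟩ := diff_ineq hθ hw hA hB hK hL hP hρ.1 (by linarith [hρ.2])
    have hρ0 := hρ.1
    obtain ⟨m, hm⟩ : ∃ m, d = m + 2 := ⟨d - 2, by omega⟩
    have hm1 : d - 2 = m := by omega
    have hm2 : ((d : ℝ) - 2) = m := by rw [hm]; push_cast; ring
    rw [hm1, hm2]
    rw [hm2] at h3
    set I := mI J e g θ z₀ ρ with hI
    set D := mD J e g θ z₀ ρ with hD
    have hx : 0 < Real.exp ((m : ℝ) * a * ρ) := Real.exp_pos _
    have h5 : (m : ℝ) * I ≤ 2 * D + m * a * ρ * I := by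
      have h6 : (1 + a * ρ) * ((m : ℝ) * I) ≤ (1 + a * ρ) * (2 * D + m * a * ρ * I) := by
        have h7 : 0 ≤ a * ρ := by positivity
        have h8 : (0 : ℝ) ≤ m := Nat.cast_nonneg m
        have h9 : 0 ≤ (a * ρ) ^ 2 * (m * I) := by positivity
        have h10 : (m : ℝ) * I ≤ (1 + a * ρ) * (2 * D) := h3
        nlinarith
      exact le_of_mul_le_mul_left h6 (by positivity)
    rcases Nat.eq_zero_or_pos m with h0 | h0
    · subst h0
      simp only [pow_zero, Nat.cast_zero, zero_mul, mul_one, div_one, one_pow, Real.exp_zero,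
        mul_zero, sub_zero, one_mul, zero_add]
      positivity
    · obtain ⟨k, rfl⟩ : ∃ k, m = k + 1 := ⟨m - 1, by omega⟩
      have e1 : k + 1 - 1 = k := by omega
      rw [e1]
      have h11 : Real.exp (((k + 1 : ℕ) : ℝ) * a * ρ) * (((k + 1 : ℕ) : ℝ) * a) *
          (I / ρ ^ (k + 1)) + Real.exp (((k + 1 : ℕ) : ℝ) * a * ρ) *
          ((2 / ρ * D * ρ ^ (k + 1) - I * (((k + 1 : ℕ) : ℝ) * ρ ^ k)) / (ρ ^ (k + 1)) ^ 2) =
          Real.exp (((k + 1 : ℕ) : ℝ) * a * ρ) / ρ ^ (k + 2) *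
            (2 * D + ((k + 1 : ℕ) : ℝ) * a * ρ * I - ((k + 1 : ℕ) : ℝ) * I) := by
        field_simp
        ring
      rw [h11]
      exact mul_nonneg (by positivity) (by linarith)

end

end Pool.Agent.H819.LN
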