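import Mathlib
import Pool.Agent.H819.LN.Mono2

/-!
# The density of a strongly taming closed form is almost monotone
-/

set_option autoImplicit false

open Set Filter Topology MeasureTheory Metric
open scoped ContDiff ENNReal NNReal RealInnerProductSpace

noncomputable section

namespace Pool.Agent.H819.LN

open Pool.Agent.Y501.SY (E)
open Pool.Agent.H819.LG (int_bilin continuous_ev2 form2_le GoodAt)

variable {d : ℕ}

theorem norm_le_sum (e : OrthonormalBasis (Fin d) ℝ (E d)) (s : (E d) [⋀^Fin 2]→L[ℝ] ℝ) :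
    ‖s‖ ≤ ∑ i, ∑ j, |s ![e i, e j]| := by
  refine ContinuousAlternatingMap.opNorm_le_bound _ (by positivity) fun v => ?_
  have hv : v = ![v 0, v 1] := by
    funext i; fin_cases i <;> rfl
  rw [hv, Fin.prod_univ_two]
  simp only [Matrix.cons_val_zero, Matrix.cons_val_one]
  have h1 : s ![v 0, v 1] = ∑ i, ∑ j, ⟪e i, v 0⟫ * (⟪e j, v 1⟫ * s ![e i, e j]) := by
    have h2 : v 0 = ∑ i, ⟪e i, v 0⟫ • e i := (e.sum_repr' (v 0)).symm
    have h3 : v 1 = ∑ j, ⟪e j, v 1⟫ • e j := (e.sum_repr' (v 1)).symm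
    have h4 : bil s (v 0) (v 1) = ∑ i, ⟪e i, v 0⟫ * bil s (e i) (v 1) := by
      conv_lhs => rw [h2]
      rw [map_sum, LinearMap.sum_apply]
      refine Finset.sum_congr rfl fun i _ => ?_
      rw [map_smul, LinearMap.smul_apply, smul_eq_mul]
    have h5 : ∀ i, bil s (e i) (v 1) = ∑ j, ⟪e j, v 1⟫ * bil s (e i) (e j) := by
      intro i
      conv_lhs => rw [h3]
      rw [map_sum]
      refine Finset.sum_congr rfl fun j _ => ?_
      rw [map_smul, smul_eq_mul]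
    rw [← bil_apply, h4]
    refine Finset.sum_congr rfl fun i _ => ?_
    rw [h5, Finset.mul_sum]
    rfl
  rw [Real.norm_eq_abs, h1]
  refine (Finset.abs_sum_le_sum_abs _ _).trans ?_
  rw [Finset.sum_mul]
  refine Finset.sum_le_sum fun i _ => ?_
  refine (Finset.abs_sum_le_sum_abs _ _).trans ?_
  rw [Finset.sum_mul]
  refine Finset.sum_le_sum fun j _ => ?_
  rw [abs_mul, abs_mul]
  have h4 : |⟪e i, v 0⟫| ≤ ‖v 0‖ := by
    have := abs_real_inner_le_norm (e i) (v 0)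
    rwa [e.norm_eq_one, one_mul] at this
  have h5 : |⟪e j, v 1⟫| ≤ ‖v 1‖ := by
    have := abs_real_inner_le_norm (e j) (v 1)
    rwa [e.norm_eq_one, one_mul] at this
  calc |⟪e i, v 0⟫| * (|⟪e j, v 1⟫| * |s ![e i, e j]|) ≤ ‖v 0‖ * (‖v 1‖ * |s ![e i, e j]|) := by
        gcongr
    _ = _ := by ring

/-- The pointwise hypotheses hold for a strongly taming form. -/
theorem pt_of_good {J : E d →L[ℝ] E d} {e : OrthonormalBasis (Fin d) ℝ (E d)} {g : Fin d → ℝ}
    (hA : Adapted J e g) {θ : E d → (E d) [⋀^Fin 2]→L[ℝ] ℝ} {A : E d → E d →L[ℝ] E d}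
    {C c₀ M L r : ℝ} (hC : 0 ≤ C) (hc : 0 ≤ c₀) (hM : ‖J‖ ≤ M) (hL : 0 ≤ L) {z₀ z : E d}
    (hg : GoodAt θ A C c₀ z) (hAJ : ‖A z - J‖ ≤ L * ‖z - z₀‖) (hz : ‖z - z₀‖ ≤ r)
    (hsm : Real.sqrt C * d * (1 + M ^ 2) * (d * (L * r)) ≤ 1 / 2) :
    Pt J e g θ z₀ (Real.sqrt C * d * (1 + M ^ 2) + 1) L z := by
  have hr0 : 0 ≤ r := (norm_nonneg _).trans hz
  have hM0 : 0 ≤ M := (norm_nonneg _).trans hM
  set s := θ z with hs
  set B := A z with hB
  have hpos : ∀ u, 0 ≤ s ![u, B u] := fun u => le_trans (by positivity) (hg.1 u)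
  set a : Fin d → ℝ := fun i => s ![e i, B (e i)] with ha
  have ha0 : ∀ i, 0 ≤ a i := fun i => hpos (e i)
  set sC := Real.sqrt C with hsC
  have hsC0 : 0 ≤ sC := Real.sqrt_nonneg _
  have hij : ∀ i j, |s ![e i, e j]| ≤ sC * ((a i + a j) / 2) := by
    intro i j
    have h1 := hg.2 (e i) (e j)
    refine abs_le_of_sq_le_sq ?_ (by have := ha0 i; have := ha0 j; positivity)
    have h2 : sC ^ 2 = C := Real.sq_sqrt hC
    rw [mul_pow, h2]
    have h3 : s ![e i, e j] ^ 2 ≤ C * (a i * a j) := by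
      calc s ![e i, e j] ^ 2 ≤ C * a i * a j := h1
        _ = _ := by ring
    have h4 : a i * a j ≤ ((a i + a j) / 2) ^ 2 := by nlinarith [sq_nonneg (a i - a j)]
    exact h3.trans (by gcongr)
  have hn : ‖s‖ ≤ sC * d * ∑ i, a i := by
    refine (norm_le_sum e s).trans ?_
    calc ∑ i, ∑ j, |s ![e i, e j]| ≤ ∑ i, ∑ j, sC * ((a i + a j) / 2) :=
          Finset.sum_le_sum fun i _ => Finset.sum_le_sum fun j _ => hij i j
      _ = sC * d * ∑ i, a i := by
          simp only [← Finset.mul_sum, add_div, Finset.sum_add_distrib, Finset.sum_const,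
            Finset.card_univ, Fintype.card_fin, nsmul_eq_mul, ← Finset.sum_div]
          ring
  have hgi : ∀ i, 0 < g i := fun i => by linarith [hA.lower i]
  have hgl : ∀ i, (g i)⁻¹ ≤ 2 := by
    intro i
    have := hA.lower i
    rw [inv_le_comm₀ (hgi i) (by norm_num)]
    linarith
  have hgu : ∀ i, 2 / (1 + M ^ 2) ≤ (g i)⁻¹ := by
    intro i
    have h1 := hA.upper i
    have h2 := pow_le_pow_left₀ (norm_nonneg _) hM 2
    rw [div_le_iff₀ (by positivity), ← div_eq_inv_mul, le_div_iff₀ (hgi i)]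
    linarith
  have hdiff : ∀ u v : E d, |s ![u, (J - B) v]| ≤ ‖s‖ * (‖u‖ * (L * ‖z - z₀‖ * ‖v‖)) := by
    intro u v
    refine (form2_le s _ _).trans ?_
    have h1 : ‖(J - B) v‖ ≤ L * ‖z - z₀‖ * ‖v‖ := by
      refine ((J - B).le_opNorm v).trans ?_
      have h2 : ‖J - B‖ ≤ L * ‖z - z₀‖ := by rw [norm_sub_rev]; exact hAJ
      gcongr
    gcongr
  have hJB : ∀ u v : E d, s ![u, J v] = s ![u, B v] + s ![u, (J - B) v] := by
    intro u v
    rw [← bil_apply, ← bil_apply, ← bil_apply, ← map_add]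
    congr 1
    simp
  have htr : 2 / (1 + M ^ 2) * ∑ i, a i - 2 * (d * (L * r)) * ‖s‖ ≤ tr J e g s := by
    unfold tr
    have h1 : ∀ i, 2 / (1 + M ^ 2) * a i - 2 * (L * r) * ‖s‖ ≤ (g i)⁻¹ * s ![e i, J (e i)] := by
      intro i
      rw [hJB]
      have h2 := (abs_le.1 (hdiff (e i) (e i))).1
      rw [e.norm_eq_one, one_mul, mul_one] at h2
      have h3 : ‖s‖ * (L * ‖z - z₀‖) ≤ ‖s‖ * (L * r) := by gcongr
      have h4 : (g i)⁻¹ * (‖s‖ * (L * r)) ≤ 2 * (‖s‖ * (L * r)) := by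
        gcongr
        exact hgl i
      have h5 : 2 / (1 + M ^ 2) * a i ≤ (g i)⁻¹ * a i := by
        gcongr
        · exact ha0 i
        · exact hgu i
      have h6 : 0 < (g i)⁻¹ := inv_pos.2 (hgi i)
      have h7 : (g i)⁻¹ * -(‖s‖ * (L * r)) ≤ (g i)⁻¹ * s ![e i, (J - B) (e i)] := by
        refine mul_le_mul_of_nonneg_left ?_ h6.le
        linarith
      have h8 : s ![e i, B (e i)] = a i := rfl
      rw [h8, mul_add]
      linarith
    have h2 := Finset.sum_le_sum fun i (_ : i ∈ Finset.univ) => h1 i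
    refine le_trans (le_of_eq ?_) h2
    rw [Finset.sum_sub_distrib, ← Finset.mul_sum, Finset.sum_const, Finset.card_univ,
      Fintype.card_fin, nsmul_eq_mul]
    ring
  have hS0 : 0 ≤ ∑ i, a i := Finset.sum_nonneg fun i _ => ha0 i
  set Sa := ∑ i, a i with hSa
  set T := tr J e g s with hT
  have h1M : 0 < 1 + M ^ 2 := by positivity
  have hSa' : Sa ≤ (1 + M ^ 2) / 2 * (T + 2 * (d * (L * r)) * ‖s‖) := by
    have h1 : 2 / (1 + M ^ 2) * Sa ≤ T + 2 * (d * (L * r)) * ‖s‖ := by linarith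
    have h2 : Sa = (1 + M ^ 2) / 2 * (2 / (1 + M ^ 2) * Sa) := by field_simp
    rw [h2]
    exact mul_le_mul_of_nonneg_left h1 (by positivity)
  have hns : ‖s‖ ≤ sC * d * (1 + M ^ 2) * T := by
    have h1 : ‖s‖ ≤ sC * d * ((1 + M ^ 2) / 2 * (T + 2 * (d * (L * r)) * ‖s‖)) :=
      hn.trans (mul_le_mul_of_nonneg_left hSa' (by positivity))
    have h2 : sC * d * ((1 + M ^ 2) / 2 * (T + 2 * (d * (L * r)) * ‖s‖)) =
        sC * d * (1 + M ^ 2) / 2 * T + (sC * d * (1 + M ^ 2) * (d * (L * r))) * ‖s‖ := by ring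
    rw [h2] at h1
    have h3 : (sC * d * (1 + M ^ 2) * (d * (L * r))) * ‖s‖ ≤ 1 / 2 * ‖s‖ := by gcongr
    linarith
  have hT0 : 0 ≤ T := by
    by_contra h
    rw [not_le] at h
    have h1 : 0 ≤ sC * d * (1 + M ^ 2) := by positivity
    have h2 : ‖s‖ = 0 := le_antisymm (hns.trans (by nlinarith)) (norm_nonneg _)
    rw [h2] at htr
    have : 0 ≤ 2 / (1 + M ^ 2) * Sa := by positivity
    linarith
  refine ⟨hns.trans ?_, ?_⟩
  · show _ ≤ _ * T
    linarith
  · show _ ≤ s ![z - z₀, J (z - z₀)]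
    rw [hJB]
    have h1 := (abs_le.1 (hdiff (z - z₀) (z - z₀))).1
    have h2 := hpos (z - z₀)
    have h3 : ‖s‖ * (‖z - z₀‖ * (L * ‖z - z₀‖ * ‖z - z₀‖)) = L * ‖z - z₀‖ ^ 3 * ‖s‖ := by ring
    rw [h3] at h1
    linarith

theorem tr_le {J : E d →L[ℝ] E d} {e : OrthonormalBasis (Fin d) ℝ (E d)} {g : Fin d → ℝ}
    (hA : Adapted J e g) {M : ℝ} (hM : ‖J‖ ≤ M) (s : (E d) [⋀^Fin 2]→L[ℝ] ℝ) :
    tr J e g s ≤ 2 * d * M * ‖s‖ := by
  have hM0 : 0 ≤ M := (norm_nonneg _).trans hM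
  unfold tr
  have h1 : ∀ i, (g i)⁻¹ * s ![e i, J (e i)] ≤ 2 * M * ‖s‖ := by
    intro i
    have hgi : 0 < g i := by linarith [hA.lower i]
    have h2 : (g i)⁻¹ ≤ 2 := by
      have := hA.lower i
      rw [inv_le_comm₀ hgi (by norm_num)]
      linarith
    have h3 := form2_le s (e i) (J (e i))
    have h4 : ‖J (e i)‖ ≤ M := by
      have := J.le_opNorm (e i)
      rw [e.norm_eq_one, mul_one] at this
      exact this.trans hM
    rw [e.norm_eq_one, one_mul] at h3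
    have h5 : s ![e i, J (e i)] ≤ ‖s‖ * M := (le_abs_self _).trans (h3.trans (by gcongr))
    have h6 : 0 < (g i)⁻¹ := inv_pos.2 hgi
    calc (g i)⁻¹ * s ![e i, J (e i)] ≤ (g i)⁻¹ * (‖s‖ * M) := by gcongr
      _ ≤ 2 * (‖s‖ * M) := by gcongr
      _ = _ := by ring
  calc ∑ i, (g i)⁻¹ * s ![e i, J (e i)] ≤ ∑ _i : Fin d, 2 * M * ‖s‖ :=
        Finset.sum_le_sum fun i _ => h1 i
    _ = 2 * d * M * ‖s‖ := by
        rw [Finset.sum_const, Finset.card_univ, Fintype.card_fin, nsmul_eq_mul]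
        ring

/-- **Almost monotonicity of the density.** -/
theorem density_mono (hd : 2 ≤ d) {C M L : ℝ} (hC : 0 ≤ C) (hM : 0 ≤ M) (hL : 0 ≤ L) :
    ∃ r₀ : ℝ, 0 < r₀ ∧ ∃ κ : ℝ, 1 ≤ κ ∧ ∃ D : ℝ, 0 ≤ D ∧
    ∀ (U : Set (E d)) (θ : E d → (E d) [⋀^Fin 2]→L[ℝ] ℝ) (A : E d → E d →L[ℝ] E d) (c₀ : ℝ)
      (z₀ : E d) (r : ℝ), LocallyIntegrableOn θ U → WeakClosed U θ → 0 ≤ c₀ → 0 < r → r ≤ r₀ →
      closedBall z₀ r ⊆ U → (∀ u, A z₀ (A z₀ u) = -u) → ‖A z₀‖ ≤ M →
      (∀ᵐ z ∂(volume.restrict (closedBall z₀ r)), GoodAt θ A C c₀ z ∧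
        ‖A z - A z₀‖ ≤ L * ‖z - z₀‖) →
      ∀ s R : ℝ, 0 < s → κ * s ≤ R → 2 * R < r →
        ∫ z in closedBall z₀ s, ‖θ z‖ ≤ D * (s / R) ^ (d - 2) *
          ∫ z in closedBall z₀ (2 * R), ‖θ z‖ := by
  set Q : ℝ := Real.sqrt C * d * (1 + M ^ 2) with hQ
  have hQ0 : 0 ≤ Q := by positivity
  set K : ℝ := Q + 1 with hK
  have hK0 : 0 < K := by positivity
  set r₀ : ℝ := min 1 (1 / (2 * (Q * (d * L) + 1))) with hr₀
  have hr₀0 : 0 < r₀ := by positivity
  set κ : ℝ := 1 + M with hκ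
  set a : ℝ := ((d : ℝ) - 2) * (8 * L * K) with ha
  have hd2 : (0 : ℝ) ≤ (d : ℝ) - 2 := by
    have : (2 : ℝ) ≤ d := by exact_mod_cast hd
    linarith
  have ha0 : 0 ≤ a := by positivity
  set cη := eta (1 / 2) with hcη
  have hcη0 : 0 < cη := eta_half_pos
  refine ⟨r₀, hr₀0, κ, by linarith, K / cη * κ ^ (d - 2) * Real.exp a * (2 * d * M),
    by positivity, ?_⟩
  intro U θ A c₀ z₀ r hθ hw hc hr hrr hB hJ hAM hgood s R hs hsR hR
  have hR0 : 0 < R := lt_of_lt_of_le (by positivity) hsR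
  obtain ⟨e, g, hA⟩ := exists_adapted (d := d) (by simp) (A z₀) hJ
  set J := A z₀ with hJd
  have hP : ∀ᵐ z ∂(volume.restrict (closedBall z₀ r)), Pt J e g θ z₀ K L z := by
    filter_upwards [hgood, ae_restrict_mem measurableSet_closedBall] with z hz hzb
    rw [mem_closedBall, dist_eq_norm] at hzb
    refine pt_of_good hA hC hc hAM hL hz.1 hz.2 hzb ?_
    have h1 : r ≤ 1 / (2 * (Q * (d * L) + 1)) := hrr.trans (min_le_right _ _)
    rw [le_div_iff₀ (by positivity)] at h1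
    show Q * (d * (L * r)) ≤ 1 / 2
    nlinarith
  have hmono := mono_F hd hθ hw hA hB hK0 hL hP
  set ρ : ℝ := κ * s with hρ
  have hρ0 : 0 < ρ := by positivity
  have h1 := hmono (a := ρ) (b := R) ⟨hρ0, by linarith⟩ ⟨hR0, by linarith⟩ hsR
  simp only at h1
  have hi : IntegrableOn θ (closedBall z₀ r) :=
    hθ.integrableOn_compact_subset hB (isCompact_closedBall _ _)
  -- the lower bound
  have hlow : cη * ∫ z in closedBall z₀ s, ‖θ z‖ ≤ K * mI J e g θ z₀ ρ := by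
    have i1 := int_eta (J := J) (e := e) (g := g) hθ hB hρ0 (by linarith : 2 * ρ ≤ r)
    have hsr : closedBall z₀ s ⊆ closedBall z₀ r := by
      refine closedBall_subset_closedBall ?_
      have : s ≤ κ * s := by nlinarith
      linarith
    have i2 : IntegrableOn (fun z => ‖θ z‖) (closedBall z₀ s) := (hi.mono_set hsr).norm
    unfold mI
    rw [← integral_const_mul, ← integral_const_mul, ← integral_indicator measurableSet_closedBall]
    have hP' := (ae_restrict_iff' measurableSet_closedBall).1 hP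
    refine integral_mono_ae (IntegrableOn.integrable_indicator (i2.const_mul cη)
      measurableSet_closedBall) (i1.const_mul K) ?_
    filter_upwards [hP'] with z hz
    by_cases h : z ∈ closedBall z₀ s
    · rw [indicator_of_mem h]
      have h3 := hz (hsr h)
      have h4 := h3.tr_nonneg hK0
      have h5 : qf J (z - z₀) / ρ ^ 2 ≤ 1 / 2 := by
        rw [div_le_iff₀ (by positivity)]
        have h6 := qf_upper J hAM (z - z₀)
        rw [mem_closedBall, dist_eq_norm] at h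
        have h7 : ‖z - z₀‖ ^ 2 ≤ s ^ 2 := pow_le_pow_left₀ (norm_nonneg _) h 2
        have h8 : (1 + M ^ 2) * ‖z - z₀‖ ^ 2 ≤ (1 + M ^ 2) * s ^ 2 := by gcongr
        have h9 : (1 + M ^ 2) * s ^ 2 ≤ ρ ^ 2 := by
          rw [hρ, hκ, mul_pow]
          have : 1 + M ^ 2 ≤ (1 + M) ^ 2 := by nlinarith
          gcongr
        linarith
      have h10 := eta_half_le h5
      calc cη * ‖θ z‖ ≤ eta (qf J (z - z₀) / ρ ^ 2) * (K * tr J e g (θ z)) := by
            gcongr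
            · exact eta_nonneg _
            · exact h3.1
        _ = _ := by ring
    · rw [indicator_of_notMem h]
      by_cases h2 : z ∈ closedBall z₀ r
      · have h3 := (hz h2).tr_nonneg hK0
        exact mul_nonneg hK0.le (mul_nonneg h3 (eta_nonneg _))
      · rw [eta_zero (q_far J hρ0 (by linarith) h2)]
        simp
  -- the upper bound
  have hup : mI J e g θ z₀ R ≤ 2 * d * M * ∫ z in closedBall z₀ (2 * R), ‖θ z‖ := by
    have i1 := int_eta (J := J) (e := e) (g := g) hθ hB hR0 hR.le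
    have i2 : IntegrableOn (fun z => ‖θ z‖) (closedBall z₀ (2 * R)) :=
      (hi.mono_set (closedBall_subset_closedBall hR.le)).norm
    unfold mI
    rw [← integral_const_mul, ← integral_indicator measurableSet_closedBall]
    refine integral_mono_ae i1 (IntegrableOn.integrable_indicator (i2.const_mul _)
      measurableSet_closedBall) ?_
    refine Eventually.of_forall fun z => ?_
    show tr J e g (θ z) * eta (qf J (z - z₀) / R ^ 2) ≤ _
    have h3 := tr_le hA hAM (θ z)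
    have h6 := eta_nonneg (qf J (z - z₀) / R ^ 2)
    have h7 := eta_le_one (qf J (z - z₀) / R ^ 2)
    by_cases h : z ∈ closedBall z₀ (2 * R)
    · rw [indicator_of_mem h]
      have h4 : 0 ≤ 2 * d * M * ‖θ z‖ := by positivity
      calc tr J e g (θ z) * eta (qf J (z - z₀) / R ^ 2)
          ≤ 2 * d * M * ‖θ z‖ * eta (qf J (z - z₀) / R ^ 2) := by gcongr
        _ ≤ 2 * d * M * ‖θ z‖ * 1 := by gcongr
        _ = _ := mul_one _
    · rw [indicator_of_notMem h, eta_zero (q_far J hR0 le_rfl h), mul_zero]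
  have hI0 : 0 ≤ mI J e g θ z₀ R := (diff_ineq hθ hw hA hB hK0 hL hP hR0 hR.le).1
  have hIρ0 : 0 ≤ mI J e g θ z₀ ρ := (diff_ineq hθ hw hA hB hK0 hL hP hρ0 (by linarith)).1
  have h2 : mI J e g θ z₀ ρ / ρ ^ (d - 2) ≤ Real.exp a * (mI J e g θ z₀ R / R ^ (d - 2)) := by
    have h3 : 1 ≤ Real.exp (((d : ℝ) - 2) * (8 * L * K) * ρ) :=
      Real.one_le_exp (by positivity)
    have h4 : Real.exp (((d : ℝ) - 2) * (8 * L * K) * R) ≤ Real.exp a := by
      refine Real.exp_le_exp.2 ?_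
      have : R ≤ 1 := by
        have := hrr.trans (min_le_left _ _)
        linarith
      show a * R ≤ a
      nlinarith
    calc mI J e g θ z₀ ρ / ρ ^ (d - 2) = 1 * (mI J e g θ z₀ ρ / ρ ^ (d - 2)) := (one_mul _).symm
      _ ≤ _ := mul_le_mul_of_nonneg_right h3 (by positivity)
      _ ≤ _ := h1
      _ ≤ _ := mul_le_mul_of_nonneg_right h4 (by positivity)
  have h3 : mI J e g θ z₀ ρ ≤ κ ^ (d - 2) * (s / R) ^ (d - 2) * Real.exp a *
      mI J e g θ z₀ R := by
    rw [div_le_iff₀ (by positivity)] at h2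
    refine h2.trans (le_of_eq ?_)
    rw [hρ, mul_pow, div_pow]
    field_simp
  have h4 : ∫ z in closedBall z₀ s, ‖θ z‖ ≤ K / cη * mI J e g θ z₀ ρ := by
    rw [div_mul_eq_mul_div, le_div_iff₀ hcη0]
    linarith
  calc ∫ z in closedBall z₀ s, ‖θ z‖ ≤ K / cη * mI J e g θ z₀ ρ := h4
    _ ≤ K / cη * (κ ^ (d - 2) * (s / R) ^ (d - 2) * Real.exp a *
        (2 * d * M * ∫ z in closedBall z₀ (2 * R), ‖θ z‖)) := by
      gcongr
      exact h3.trans (by gcongr)
    _ = _ := by ring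

end Pool.Agent.H819.LN
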