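import Mathlib
import Pool.Agent.H819.LN.Dens
import Pool.Agent.H819.LG.Crit

/-!
# Consequences of the monotonicity formula: uniform bounds on compact sets
-/

set_option autoImplicit false

open Set Filter Topology MeasureTheory Metric
open scoped ContDiff ENNReal NNReal

noncomputable section

namespace Pool.Agent.H819.LN

open Pool.Agent.Y501.SY (E)
open Pool.Agent.H819.LG (GoodAt)

variable {d : ℕ}

/-- the mass of `θ` in a ball -/
def ms (θ : E d → (E d) [⋀^Fin 2]→L[ℝ] ℝ) (z : E d) (r : ℝ) : ℝ≥0∞ :=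
  ∫⁻ z' in closedBall z r, ‖θ z'‖ₑ

/-- hypotheses on `θ` and `A` on the open set `U` -/
structure Taming (U : Set (E d)) (θ : E d → (E d) [⋀^Fin 2]→L[ℝ] ℝ) (A : E d → E d →L[ℝ] E d) :
    Prop where
  isOpen : IsOpen U
  int : LocallyIntegrableOn θ U
  closed : WeakClosed U θ
  sq : ∀ z ∈ U, ∀ u, A z (A z u) = -u
  cont : ContinuousOn A U
  lip : ∀ N, IsCompact N → N ⊆ U → ∃ L : ℝ, ∀ z ∈ N, ∀ z' ∈ N, ‖A z' - A z‖ ≤ L * ‖z' - z‖
  good : ∀ N, IsCompact N → N ⊆ U → ∃ c₀ : ℝ, 0 < c₀ ∧ ∃ C : ℝ, ∀ᵐ z ∂(volume.restrict N),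
    GoodAt θ A C c₀ z

/-- **Core estimate.** -/
theorem dens_core (hd : 2 ≤ d) {U : Set (E d)} {θ : E d → (E d) [⋀^Fin 2]→L[ℝ] ℝ}
    {A : E d → E d →L[ℝ] E d} (h : Taming U θ A) {N : Set (E d)} (hN : IsCompact N)
    (hNU : N ⊆ U) :
    ∃ r₀ : ℝ, 0 < r₀ ∧ ∃ κ : ℝ, 1 ≤ κ ∧ ∃ D : ℝ, 0 ≤ D ∧ ∀ (z : E d) (r : ℝ), 0 < r → r ≤ r₀ →
      closedBall z r ⊆ N → ∀ s R : ℝ, 0 < s → κ * s ≤ R → 2 * R < r →
        ms θ z s ≤ ENNReal.ofReal (D * (s / R) ^ (d - 2)) * ms θ z (2 * R) := by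
  obtain ⟨M0, hM0⟩ := hN.exists_bound_of_continuousOn (h.cont.mono hNU)
  obtain ⟨L0, hL0⟩ := h.lip N hN hNU
  obtain ⟨c₀, hc₀, C0, hC0⟩ := h.good N hN hNU
  obtain ⟨r₀, hr₀, κ, hκ, D, hD, H⟩ := density_mono (d := d) hd (C := max C0 0) (M := max M0 0)
    (L := max L0 0) (le_max_right _ _) (le_max_right _ _) (le_max_right _ _)
  refine ⟨r₀, hr₀, κ, hκ, D, hD, ?_⟩
  intro z r hr hrr hball s R hs hsR hR
  have hR0 : 0 < R := lt_of_lt_of_le (mul_pos (by linarith) hs) hsR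
  have hzN : z ∈ N := hball (mem_closedBall_self hr.le)
  have hsub : ∀ ρ : ℝ, ρ ≤ r → closedBall z ρ ⊆ U := fun ρ hρ =>
    (closedBall_subset_closedBall hρ).trans (hball.trans hNU)
  have hms : ∀ ρ : ℝ, ρ ≤ r → ms θ z ρ = ENNReal.ofReal (∫ z' in closedBall z ρ, ‖θ z'‖) := by
    intro ρ hρ
    have hint : IntegrableOn θ (closedBall z ρ) volume :=
      h.int.integrableOn_compact_subset (hsub ρ hρ) (isCompact_closedBall z ρ)
    rw [ms, ofReal_integral_norm_eq_lintegral_enorm hint]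
  have hae : ∀ᵐ z' ∂(volume.restrict (closedBall z r)), GoodAt θ A (max C0 0) c₀ z' ∧
      ‖A z' - A z‖ ≤ max L0 0 * ‖z' - z‖ := by
    have h1 : ∀ᵐ z' ∂(volume.restrict (closedBall z r)), GoodAt θ A C0 c₀ z' :=
      ae_mono (Measure.restrict_mono hball le_rfl) hC0
    filter_upwards [h1, ae_restrict_mem measurableSet_closedBall] with z' hz' hz'b
    refine ⟨hz'.mono hc₀.le (le_max_left _ _) le_rfl, ?_⟩
    refine (hL0 z hzN z' (hball hz'b)).trans ?_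
    exact mul_le_mul_of_nonneg_right (le_max_left _ _) (norm_nonneg _)
  have key := H U θ A c₀ z r h.int h.closed hc₀.le hr hrr (hball.trans hNU)
    (h.sq z (hNU hzN)) ((hM0 z hzN).trans (le_max_left _ _)) hae s R hs hsR hR
  have hsr : s ≤ r := by nlinarith
  rw [hms s hsr, hms (2 * R) hR.le, ← ENNReal.ofReal_mul (by positivity)]
  exact ENNReal.ofReal_le_ofReal key

/-- **Uniform bound.**  Proof of this and of the next theorem: thicken `K` to the compact set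
`N = cthickening δ K ⊆ U` (`IsCompact.exists_cthickening_subset_open`), take
`M` a bound of `‖A‖` on `N`, `L ≥ 0`, `C ≥ 0` (note that `GoodAt` is monotone in `C`, see
`GoodAt.mono` in `LG/Conv.lean`, its proof needs `0 ≤ c₀`), and apply `density_mono hd hC hM hL`
(`LN/Dens.lean`) at the points `z₀` near `K` with `r = min r₀ (δ / 2)`, `R = r / 3`; the set
integrals of norms there are the `toReal` of `ms` (`θ` is integrable on `N`).  Then
`ms θ z s ≤ D (s / R) ^ (d - 2) ∫_N ‖θ‖` for `κ * s ≤ R`. -/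
theorem dens_bound (hd : 2 ≤ d) {U : Set (E d)} {θ : E d → (E d) [⋀^Fin 2]→L[ℝ] ℝ}
    {A : E d → E d →L[ℝ] E d} (h : Taming U θ A) {K : Set (E d)} (hK : IsCompact K)
    (hKU : K ⊆ U) :
    ∃ s₀ : ℝ, 0 < s₀ ∧ ∃ D₀ : ℝ, 0 ≤ D₀ ∧ ∀ z ∈ K, ∀ s : ℝ, 0 < s → s ≤ s₀ →
      ms θ z s ≤ ENNReal.ofReal (D₀ * s ^ (d - 2)) := by
  obtain ⟨δ, hδ, hδU⟩ := hK.exists_cthickening_subset_open h.isOpen hKU
  have hN : IsCompact (cthickening δ K) := hK.cthickening
  obtain ⟨r₀, hr₀, κ, hκ, D, hD, H⟩ := dens_core hd h hN hδU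
  set r : ℝ := min r₀ δ with hr
  have hr0 : 0 < r := lt_min hr₀ hδ
  set R : ℝ := r / 3 with hR
  have hR0 : 0 < R := by positivity
  set T : ℝ≥0∞ := ∫⁻ z' in cthickening δ K, ‖θ z'‖ₑ with hT
  have hTfin : T ≠ ⊤ := by
    have hint : IntegrableOn θ (cthickening δ K) volume :=
      h.int.integrableOn_compact_subset hδU hN
    exact hint.2.ne
  refine ⟨R / κ, by positivity, D / R ^ (d - 2) * T.toReal, by positivity, ?_⟩
  intro z hz s hs hss
  have hκ0 : 0 < κ := by linarith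
  have hsR : κ * s ≤ R := by
    rw [le_div_iff₀ hκ0] at hss
    linarith
  have hball : closedBall z r ⊆ cthickening δ K :=
    (closedBall_subset_closedBall (min_le_right _ _)).trans (closedBall_subset_cthickening hz δ)
  have h2R : 2 * R < r := by rw [hR]; linarith
  refine (H z r hr0 (min_le_left _ _) hball s R hs hsR h2R).trans ?_
  have hle : ms θ z (2 * R) ≤ ENNReal.ofReal T.toReal := by
    rw [ENNReal.ofReal_toReal hTfin]
    exact lintegral_mono_set ((closedBall_subset_closedBall h2R.le).trans hball)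
  calc ENNReal.ofReal (D * (s / R) ^ (d - 2)) * ms θ z (2 * R)
      ≤ ENNReal.ofReal (D * (s / R) ^ (d - 2)) * ENNReal.ofReal T.toReal := by gcongr
    _ = ENNReal.ofReal (D / R ^ (d - 2) * T.toReal * s ^ (d - 2)) := by
        rw [← ENNReal.ofReal_mul (by positivity)]
        congr 1
        rw [div_pow]
        ring

/-- **Small density near a point.**  Proof: as above with `K = {z₀}`: given `ε`, choose
`ε' = ε / (D * 4 ^ (d - 2) + 1)` or similar and a small `ρ` with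
`ms θ z₀ ρ ≤ ε' ρ ^ (d - 2)`; for `‖z - z₀‖ ≤ ρ / 4` put `R = ρ / 4`:
`closedBall z (2 * R) ⊆ closedBall z₀ ρ`, so `ms θ z s ≤ D (s / R) ^ (d - 2) ms θ z₀ ρ
≤ D 4 ^ (d - 2) ε' s ^ (d - 2)` for `κ * s ≤ R`. -/
theorem dens_small_local (hd : 2 ≤ d) {U : Set (E d)} {θ : E d → (E d) [⋀^Fin 2]→L[ℝ] ℝ}
    {A : E d → E d →L[ℝ] E d} (h : Taming U θ A) {z₀ : E d} (hz₀ : z₀ ∈ U)
    (h0 : ∀ ε : ℝ, 0 < ε → ∀ r₀ : ℝ, 0 < r₀ → ∃ r : ℝ, 0 < r ∧ r < r₀ ∧
      ms θ z₀ r ≤ ENNReal.ofReal (ε * r ^ (d - 2))) :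
    ∀ ε : ℝ, 0 < ε → ∃ s₀ : ℝ, 0 < s₀ ∧ ∀ z ∈ closedBall z₀ s₀, ∀ s : ℝ, 0 < s → s ≤ s₀ →
      ms θ z s ≤ ENNReal.ofReal (ε * s ^ (d - 2)) := by
  intro ε hε
  obtain ⟨δ, hδ, hδU⟩ := Metric.nhds_basis_closedBall.mem_iff.1 (h.isOpen.mem_nhds hz₀)
  obtain ⟨r₀, hr₀, κ, hκ, D, hD, H⟩ := dens_core hd h (isCompact_closedBall z₀ δ) hδU
  have hκ0 : 0 < κ := by linarith
  have hden : 0 < D * 4 ^ (d - 2) + 1 := by positivity
  obtain ⟨ρ, hρ0, hρ1, hρ2⟩ := h0 (ε / (D * 4 ^ (d - 2) + 1)) (by positivity) (min δ r₀)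
    (lt_min hδ hr₀)
  have hρδ : ρ < δ := lt_of_lt_of_le hρ1 (min_le_left _ _)
  have hρr : ρ < r₀ := lt_of_lt_of_le hρ1 (min_le_right _ _)
  refine ⟨ρ / 4 / κ, by positivity, ?_⟩
  intro z hz s hs hss
  have hsR : κ * s ≤ ρ / 4 := by
    rw [le_div_iff₀ hκ0] at hss
    linarith
  have hzz : dist z z₀ ≤ ρ / 4 := by
    refine (mem_closedBall.1 hz).trans ?_
    exact div_le_self (by positivity) hκ
  have hball : closedBall z (3 * ρ / 4) ⊆ closedBall z₀ δ := by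
    apply closedBall_subset_closedBall'
    linarith
  have hball2 : closedBall z (2 * (ρ / 4)) ⊆ closedBall z₀ ρ := by
    apply closedBall_subset_closedBall'
    linarith
  refine (H z (3 * ρ / 4) (by positivity) (by linarith) hball s (ρ / 4) hs hsR
    (by linarith)).trans ?_
  have hle : ms θ z (2 * (ρ / 4)) ≤
      ENNReal.ofReal (ε / (D * 4 ^ (d - 2) + 1) * ρ ^ (d - 2)) :=
    le_trans (lintegral_mono_set hball2) hρ2
  calc ENNReal.ofReal (D * (s / (ρ / 4)) ^ (d - 2)) * ms θ z (2 * (ρ / 4))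
      ≤ ENNReal.ofReal (D * (s / (ρ / 4)) ^ (d - 2)) *
        ENNReal.ofReal (ε / (D * 4 ^ (d - 2) + 1) * ρ ^ (d - 2)) := by gcongr
    _ = ENNReal.ofReal (D * 4 ^ (d - 2) / (D * 4 ^ (d - 2) + 1) * (ε * s ^ (d - 2))) := by
        rw [← ENNReal.ofReal_mul (by positivity)]
        congr 1
        have : (s / (ρ / 4)) ^ (d - 2) = 4 ^ (d - 2) * s ^ (d - 2) / ρ ^ (d - 2) := by
          rw [← mul_pow, ← div_pow]
          congr 1
          field_simp
        rw [this]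
        have hρp : ρ ^ (d - 2) ≠ 0 := (pow_pos hρ0 _).ne'
        field_simp
    _ ≤ ENNReal.ofReal (ε * s ^ (d - 2)) := by
        apply ENNReal.ofReal_le_ofReal
        have h1 : D * 4 ^ (d - 2) / (D * 4 ^ (d - 2) + 1) ≤ 1 := by
          rw [div_le_one hden]; linarith
        have h2 : 0 ≤ ε * s ^ (d - 2) := by positivity
        nlinarith

end Pool.Agent.H819.LN
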