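import Mathlib

/-!
# Translations corrected to first order
-/

set_option autoImplicit false

open Set Filter Topology Metric
open scoped ContDiff

noncomputable section

namespace Pool.Agent.H819.LN

variable {V : Type} [NormedAddCommGroup V] [NormedSpace ℝ V]

/-- the correction: `corr J p y = (1/2) J(p) ∘ (J'(p) y)` -/
def corr (J : V → V →L[ℝ] V) (p : V) : V →L[ℝ] V →L[ℝ] V :=
  (1 / 2 : ℝ) • (ContinuousLinearMap.compL ℝ V V V (J p)).comp (fderiv ℝ J p)

theorem corr_apply (J : V → V →L[ℝ] V) (p y : V) :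
    corr J p y = (1 / 2 : ℝ) • (J p).comp (fderiv ℝ J p y) := rfl

/-- the derivative of an almost complex structure anticommutes with it -/
theorem anticomm {J : V → V →L[ℝ] V} {p : V} (hJ : DifferentiableAt ℝ J p)
    (hJ2 : ∀ᶠ z in 𝓝 p, (J z).comp (J z) = -ContinuousLinearMap.id ℝ V) (y : V) :
    (J p).comp (fderiv ℝ J p y) + (fderiv ℝ J p y).comp (J p) = 0 := by
  have h1 : HasFDerivAt (fun z => (J z).comp (J z)) _ p := hJ.hasFDerivAt.clm_comp hJ.hasFDerivAt
  have h2 : HasFDerivAt (fun z => (J z).comp (J z)) (0 : V →L[ℝ] V →L[ℝ] V) p := by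
    have h3 : HasFDerivAt (fun _ : V => -ContinuousLinearMap.id ℝ V) (0 : V →L[ℝ] V →L[ℝ] V) p :=
      hasFDerivAt_const _ p
    exact h3.congr_of_eventuallyEq hJ2
  have h4 := h1.unique h2
  have h5 := congrArg (fun T : V →L[ℝ] V →L[ℝ] V => T y) h4
  simpa using h5

/-- **The corrected translations intertwine `J` to first order.** -/
theorem special_err {J : V → V →L[ℝ] V} {p : V} (hJ : ContDiffAt ℝ 1 J p)
    (hJ2 : ∀ᶠ z in 𝓝 p, (J z).comp (J z) = -ContinuousLinearMap.id ℝ V) {κ : ℝ} (hκ : 0 < κ) :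
    ∃ η : ℝ, 0 < η ∧ ∀ z y : V, ‖z - p‖ ≤ η → ‖y‖ ≤ η →
      ‖(ContinuousLinearMap.id ℝ V + corr J p y).comp (J z) -
        (J (z + (y + corr J p y (z - p)))).comp (ContinuousLinearMap.id ℝ V + corr J p y)‖ ≤
      κ * ‖y‖ := by
  set B := corr J p with hB
  have hJs : HasStrictFDerivAt J (fderiv ℝ J p) p := hJ.hasStrictFDerivAt (by simp)
  set x : V × V := (0, p) with hx
  -- the pieces
  have f1 : HasStrictFDerivAt (fun q : V × V => ContinuousLinearMap.id ℝ V + B q.1)
      (B.comp (ContinuousLinearMap.fst ℝ V V)) x :=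
    (B.hasStrictFDerivAt.comp x hasStrictFDerivAt_fst).const_add _
  have f2 : HasStrictFDerivAt (fun q : V × V => J q.2)
      ((fderiv ℝ J p).comp (ContinuousLinearMap.snd ℝ V V)) x :=
    HasStrictFDerivAt.comp x (f := fun q : V × V => q.2) hJs hasStrictFDerivAt_snd
  have f3 : HasStrictFDerivAt (fun q : V × V => q.2 + (q.1 + B q.1 (q.2 - p)))
      (ContinuousLinearMap.snd ℝ V V + ContinuousLinearMap.fst ℝ V V) x := by
    have g1 : HasStrictFDerivAt (fun q : V × V => B q.1) (B.comp (ContinuousLinearMap.fst ℝ V V)) x :=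
      B.hasStrictFDerivAt.comp x hasStrictFDerivAt_fst
    have g2 : HasStrictFDerivAt (fun q : V × V => q.2 - p) (ContinuousLinearMap.snd ℝ V V) x :=
      hasStrictFDerivAt_snd.sub_const p
    have g3 := g1.clm_apply g2
    have g4 := (hasStrictFDerivAt_snd (𝕜 := ℝ) (p := x)).add
      ((hasStrictFDerivAt_fst (𝕜 := ℝ) (p := x)).add g3)
    refine g4.congr_fderiv ?_
    ext v
    · simp [hx]
    · simp [hx]
  have hx3 : (fun q : V × V => q.2 + (q.1 + B q.1 (q.2 - p))) x = p := by simp [hx]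
  have f4 : HasStrictFDerivAt (fun q : V × V => J (q.2 + (q.1 + B q.1 (q.2 - p))))
      ((fderiv ℝ J p).comp (ContinuousLinearMap.snd ℝ V V + ContinuousLinearMap.fst ℝ V V)) x := by
    have hJs' : HasStrictFDerivAt J (fderiv ℝ J p)
        ((fun q : V × V => q.2 + (q.1 + B q.1 (q.2 - p))) x) := by
      rw [hx3]
      exact hJs
    exact hJs'.comp x f3
  have f5 := (f1.clm_comp f2).sub (f4.clm_comp f1)
  set G : V × V → V →L[ℝ] V := fun q => (ContinuousLinearMap.id ℝ V + B q.1).comp (J q.2) -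
    (J (q.2 + (q.1 + B q.1 (q.2 - p)))).comp (ContinuousLinearMap.id ℝ V + B q.1) with hG
  have f6 : HasStrictFDerivAt G (0 : V × V →L[ℝ] V →L[ℝ] V) x := by
    refine HasStrictFDerivAt.congr_fderiv f5 ?_
    refine ContinuousLinearMap.ext fun q => ?_
    obtain ⟨v, w⟩ := q
    have hac := anticomm (hJ.differentiableAt (by simp)) hJ2 v
    have e1 : (J (x.2 + (x.1 + B x.1 (x.2 - p)))) = J p := by simp [hx]
    have e2 : J p = J x.2 := rfl
    have hJJ : (J p).comp (J p) = -ContinuousLinearMap.id ℝ V := hJ2.self_of_nhds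
    have hBv : B v = (1 / 2 : ℝ) • (J p).comp (fderiv ℝ J p v) := rfl
    refine ContinuousLinearMap.ext fun u => ?_
    have a1 : ∀ t : V, (J p) ((fderiv ℝ J p v) t) = - (fderiv ℝ J p v) (J p t) := by
      intro t
      have := congrArg (fun T : V →L[ℝ] V => T t) hac
      simp only [add_apply, ContinuousLinearMap.comp_apply,
        zero_apply] at this
      exact eq_neg_of_add_eq_zero_left this
    have a2 : ∀ t : V, J p (J p t) = -t := by
      intro t
      have := congrArg (fun T : V →L[ℝ] V => T t) hJJ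
      simpa using this
    have hlhs : (((ContinuousLinearMap.compL ℝ V V V) (ContinuousLinearMap.id ℝ V + B x.1)).comp
        ((fderiv ℝ J p).comp (ContinuousLinearMap.snd ℝ V V)) +
        (((ContinuousLinearMap.compL ℝ V V V).flip (J x.2)).comp
          (B.comp (ContinuousLinearMap.fst ℝ V V))) -
        (((ContinuousLinearMap.compL ℝ V V V) (J (x.2 + (x.1 + B x.1 (x.2 - p))))).comp
          (B.comp (ContinuousLinearMap.fst ℝ V V)) +
        (((ContinuousLinearMap.compL ℝ V V V).flip (ContinuousLinearMap.id ℝ V + B x.1)).comp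
          ((fderiv ℝ J p).comp (ContinuousLinearMap.snd ℝ V V +
            ContinuousLinearMap.fst ℝ V V))))) (v, w) u =
        (fderiv ℝ J p w u + B v (J p u)) - (J p (B v u) + fderiv ℝ J p (w + v) u) := by
      rw [e1]
      simp [hx]
    refine hlhs.trans ?_
    rw [hBv, map_add]
    simp only [add_apply, smul_apply,
      ContinuousLinearMap.comp_apply, zero_apply, map_smul]
    rw [a1 (J p u), a2 ((fderiv ℝ J p v) u), a2 u, map_neg, neg_neg]
    module
  have f7 := (f6.isLittleO).def hκ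
  obtain ⟨ε, hε, hball⟩ := Metric.eventually_nhds_iff_ball.1 f7
  refine ⟨ε / 2, by positivity, fun z y hz hy => ?_⟩
  have hm : (((y, z), (0, z)) : (V × V) × (V × V)) ∈ ball (x, x) ε := by
    rw [mem_ball, Prod.dist_eq, max_lt_iff]
    constructor
    · show dist (y, z) x < ε
      rw [hx, Prod.dist_eq, max_lt_iff]
      refine ⟨?_, ?_⟩
      · show dist y 0 < ε
        rw [dist_zero_right]
        linarith
      · show dist z p < ε
        rw [dist_eq_norm]
        linarith
    · show dist ((0 : V), z) x < ε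
      rw [hx, Prod.dist_eq, max_lt_iff]
      refine ⟨?_, ?_⟩
      · show dist (0 : V) 0 < ε
        rw [dist_self]
        exact hε
      · show dist z p < ε
        rw [dist_eq_norm]
        linarith
  have h8 := hball _ hm
  have e0 : G (0, z) = 0 := by
    rw [hG]
    simp
  have e3 : ‖(((y, z), (0, z)) : (V × V) × (V × V)).1 -
      (((y, z), (0, z)) : (V × V) × (V × V)).2‖ = ‖y‖ := by
    show ‖((y, z) : V × V) - (0, z)‖ = ‖y‖
    rw [Prod.mk_sub_mk, sub_self, sub_zero, Prod.norm_def]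
    simp
  rw [e3] at h8
  have h9 : G (y, z) - G (0, z) - (0 : V × V →L[ℝ] V →L[ℝ] V) ((y, z) - (0, z)) = G (y, z) := by
    rw [e0]
    simp
  have h10 : ‖G (y, z) - G (0, z) - (0 : V × V →L[ℝ] V →L[ℝ] V) ((y, z) - (0, z))‖ ≤ κ * ‖y‖ := h8
  rw [h9] at h10
  exact h10

end Pool.Agent.H819.LN
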