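import Mathlib
import Pool.Agent.H819.LN.Loc
import Pool.Agent.H819.LN.DensK
import Pool.Agent.H819.LN.Err

/-!
# The estimates on the pieces
-/

set_option autoImplicit false

open Set Filter Topology MeasureTheory Metric
open scoped Manifold ContDiff ENNReal NNReal

noncomputable section

namespace Pool.Agent.H819.LN

open Pool.Agent.Y501.SY
open Pool.Agent.H819.LG (slice1 slice2)

variable {d : ℕ} {X : Type} [TopologicalSpace X] [ChartedSpace (E d) X] {ι : Type} [Fintype ι]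
  [DecidableEq ι]

theorem exists_ball_sub {F : Type} [NormedAddCommGroup F] [NormedSpace ℝ F] [ProperSpace F]
    {K O : Set F} (hK : IsCompact K) (hO : IsOpen O) (h : K ⊆ O) :
    ∃ s : ℝ, 0 < s ∧ ∀ z ∈ K, closedBall z s ⊆ O := by
  obtain ⟨s, hs, hsO⟩ := hK.exists_cthickening_subset_open hO h
  exact ⟨s, hs, fun z hz => (closedBall_subset_cthickening hz _).trans hsO⟩

/-- an error bound -/
theorem err_general {V : Type} [NormedAddCommGroup V] [NormedSpace ℝ V] {D A A' : V →L[ℝ] V}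
    {M a b : ℝ} (hA : ‖A‖ ≤ M) (hA' : ‖A'‖ ≤ M) (h1 : ‖D - ContinuousLinearMap.id ℝ V‖ ≤ a)
    (h2 : ‖A' - A‖ ≤ b) : ‖D.comp A - A'.comp D‖ ≤ 2 * M * a + b := by
  have hM : 0 ≤ M := (norm_nonneg A).trans hA
  have ha : 0 ≤ a := (norm_nonneg _).trans h1
  have h8 : D.comp A - A'.comp D = (D - ContinuousLinearMap.id ℝ V).comp A -
      (A' - A) - A'.comp (D - ContinuousLinearMap.id ℝ V) := by
    ext w
    simp
    try ring
  rw [h8]
  have h9 := ContinuousLinearMap.opNorm_comp_le (D - ContinuousLinearMap.id ℝ V) A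
  have h10 := ContinuousLinearMap.opNorm_comp_le A' (D - ContinuousLinearMap.id ℝ V)
  have h11 : ‖D - ContinuousLinearMap.id ℝ V‖ * ‖A‖ ≤ a * M :=
    mul_le_mul h1 hA (norm_nonneg _) ha
  have h12 : ‖A'‖ * ‖D - ContinuousLinearMap.id ℝ V‖ ≤ M * a :=
    mul_le_mul hA' h1 (norm_nonneg _) hM
  calc ‖(D - ContinuousLinearMap.id ℝ V).comp A - (A' - A) -
        A'.comp (D - ContinuousLinearMap.id ℝ V)‖
      ≤ ‖(D - ContinuousLinearMap.id ℝ V).comp A - (A' - A)‖ +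
        ‖A'.comp (D - ContinuousLinearMap.id ℝ V)‖ := norm_sub_le _ _
    _ ≤ (‖(D - ContinuousLinearMap.id ℝ V).comp A‖ + ‖A' - A‖) +
        ‖A'.comp (D - ContinuousLinearMap.id ℝ V)‖ := by gcongr; exact norm_sub_le _ _
    _ ≤ 2 * M * a + b := by linarith

variable [IsManifold (𝓡 d) ∞ X]

/-- **General pieces with vanishing density.** -/
theorem piece_general [T2Space X] (hd : 2 ≤ d) (c : ι → Sh d X) {R : ℝ} (hR0 : 0 < R)
    (hR : ∀ i, R ≤ (c i).R) (i : ι) {K N : Set (E d)} (hK : IsCompact K) (hKN : K ⊆ interior N)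
    (hNt : N ⊆ (c i).e.target)
    (hK1 : ∀ z ∈ K, ‖(c i).V z - ContinuousLinearMap.id ℝ (E d)‖ ≤ 1 / 4)
    {A : E d → (E d →L[ℝ] E d)} {M L : ℝ} (hM : ∀ z ∈ N, ‖A z‖ ≤ M)
    (hL : ∀ z ∈ N, ∀ z' ∈ N, ‖A z' - A z‖ ≤ L * ‖z' - z‖)
    {θ : E d → (E d) [⋀^Fin 2]→L[ℝ] ℝ} {C c₀ : ℝ} (hC : 0 ≤ C) (hc₀ : 0 < c₀)
    (hdens : ∀ ε : ℝ, 0 < ε → ∃ s₀ : ℝ, 0 < s₀ ∧ ∀ z ∈ K, ∀ s : ℝ, 0 < s → s ≤ s₀ →
      ms θ z s ≤ ENNReal.ofReal (ε * s ^ (d - 2))) :
    ∃ r₀ : ℝ, 0 < r₀ ∧ ∀ r : ℝ, 0 < r → r ≤ r₀ → ∃ ρ e : ℝ, PieceAt c R i K N A θ C M c₀ r ρ e := by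
  rcases K.eq_empty_or_nonempty with hK0 | ⟨z₁, hz₁⟩
  · refine ⟨1, one_pos, fun r hr _ => ⟨0, 0, le_rfl, ?_, ?_, ?_, ?_, ?_, ?_, ?_⟩⟩ <;>
      simp [hK0]
  have hM0 : 0 ≤ M := (norm_nonneg _).trans (hM z₁ (interior_subset (hKN hz₁)))
  obtain ⟨r₁, hr₁, hr₁R, C₁, hC₁, hb⟩ := psi_bounds c hR0 hR i hK
    ((hKN.trans interior_subset).trans hNt) hK1
  obtain ⟨ρ₁, hρ₁, hρ₁'⟩ := exists_ball_sub hK isOpen_interior hKN
  set C₂ : ℝ := (2 * M + |L|) * C₁ with hC₂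
  have hC₁0 : 0 < C₁ := by linarith
  have hC₂0 : 0 ≤ C₂ := by positivity
  have heps := epsC_pos (d := d) hC hM0
  obtain ⟨s₀, hs₀, hs⟩ := hdens (epsC d C M * c₀ / (C₂ ^ 2 * C₁ ^ (d - 2) + 1)) (by positivity)
  refine ⟨min r₁ (min (ρ₁ / C₁) (min (1 / (4 * C₁)) (s₀ / C₁))), by positivity, ?_⟩
  intro r hr hrr
  have hrr₁ : r ≤ r₁ := hrr.trans (min_le_left _ _)
  have hrρ : C₁ * r ≤ ρ₁ := by
    have : r ≤ ρ₁ / C₁ := hrr.trans ((min_le_right _ _).trans (min_le_left _ _))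
    rw [le_div_iff₀ hC₁0] at this
    linarith
  have hr4 : C₁ * r ≤ 1 / 4 := by
    have : r ≤ 1 / (4 * C₁) := hrr.trans ((min_le_right _ _).trans ((min_le_right _ _).trans
      (min_le_left _ _)))
    rw [le_div_iff₀ (by positivity)] at this
    linarith
  have hrs : C₁ * r ≤ s₀ := by
    have : r ≤ s₀ / C₁ := hrr.trans ((min_le_right _ _).trans ((min_le_right _ _).trans
      (min_le_right _ _)))
    rw [le_div_iff₀ hC₁0] at this
    linarith
  have hball : ∀ z ∈ K, closedBall z (C₁ * r) ⊆ N := fun z hz =>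
    (closedBall_subset_closedBall hrρ).trans ((hρ₁' z hz).trans interior_subset)
  have hyr : ∀ y : ι → E d, ‖y‖ ≤ r → C₁ * ‖y‖ ≤ C₁ * r := fun y hy => by gcongr
  refine ⟨C₁ * r, C₂ * r, by positivity, hball, ?_, ?_, ?_, ?_, ?_, ?_⟩
  · intro y hy z hz
    exact (hb y (hy.trans hrr₁) z hz).1
  · intro y hy z hz
    exact (hb y (hy.trans hrr₁) z hz).2.1.trans (hyr y hy)
  · intro y hy z hz
    refine (hb y (hy.trans hrr₁) z hz).2.2.1.trans ((hyr y hy).trans (hr4.trans (by norm_num)))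
  · intro y hy z hz
    refine (hb y (hy.trans hrr₁) z hz).2.2.2.trans ?_
    have := hyr y hy
    linarith
  · intro y hy z hz
    obtain ⟨h1, h2, h3, h4⟩ := hb y (hy.trans hrr₁) z hz
    have hPN : Psi c (c i).x₀ (y, z) ∈ N := by
      refine hball z hz ?_
      rw [mem_closedBall, dist_eq_norm]
      exact h2.trans (hyr y hy)
    have hzN : z ∈ N := interior_subset (hKN hz)
    have h5 := hL z hzN _ hPN
    refine (err_general (b := |L| * (C₁ * r)) (hM z hzN) (hM _ hPN) (h3.trans (hyr y hy))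
      (h5.trans ?_)).trans ?_
    · calc L * ‖Psi c (c i).x₀ (y, z) - z‖ ≤ |L| * ‖Psi c (c i).x₀ (y, z) - z‖ := by
            gcongr
            exact le_abs_self L
        _ ≤ |L| * (C₁ * r) := by
            gcongr
            exact h2.trans (hyr y hy)
    · rw [hC₂]
      linarith
  · intro z hz
    have h1 := hs z hz (C₁ * r) (by positivity) hrs
    calc ENNReal.ofReal ((C₂ * r) ^ 2) * ms θ z (C₁ * r)
        ≤ ENNReal.ofReal ((C₂ * r) ^ 2) * ENNReal.ofReal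
          (epsC d C M * c₀ / (C₂ ^ 2 * C₁ ^ (d - 2) + 1) * (C₁ * r) ^ (d - 2)) := by gcongr
      _ = ENNReal.ofReal ((C₂ * r) ^ 2 *
          (epsC d C M * c₀ / (C₂ ^ 2 * C₁ ^ (d - 2) + 1) * (C₁ * r) ^ (d - 2))) :=
          (ENNReal.ofReal_mul (sq_nonneg _)).symm
      _ ≤ ENNReal.ofReal (epsC d C M * c₀ * r ^ d) := by
          refine ENNReal.ofReal_le_ofReal ?_
          have e1 : r ^ d = r ^ 2 * r ^ (d - 2) := by
            rw [← pow_add]
            congr 1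
            omega
          have e2 : (C₂ * r) ^ 2 *
              (epsC d C M * c₀ / (C₂ ^ 2 * C₁ ^ (d - 2) + 1) * (C₁ * r) ^ (d - 2)) =
              (C₂ ^ 2 * C₁ ^ (d - 2) / (C₂ ^ 2 * C₁ ^ (d - 2) + 1)) *
                (epsC d C M * c₀ * (r ^ 2 * r ^ (d - 2))) := by
            rw [mul_pow, mul_pow]
            ring
          rw [e1, e2]
          have h2 : C₂ ^ 2 * C₁ ^ (d - 2) / (C₂ ^ 2 * C₁ ^ (d - 2) + 1) ≤ 1 := by
            rw [div_le_one (by positivity)]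
            linarith
          have h3 : 0 ≤ epsC d C M * c₀ * (r ^ 2 * r ^ (d - 2)) := by positivity
          nlinarith

omit [IsManifold (𝓡 d) ∞ X] [DecidableEq ι] in
/-- the composition of the shifts near a piece which only the `i`-th shift meets -/
theorem Psi_near [T2Space X] (c : ι → Sh d X) {R : ℝ} (hR0 : 0 < R) (i : ι)
    {K O : Set (E d)} (hK : IsCompact K) (hO : IsOpen O) (hKO : K ⊆ O) (hOt : O ⊆ (c i).e.target)
    (hother : ∀ j, j ≠ i → ∀ z ∈ K, (c i).e.symm z ∉ (c j).M) :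
    ∃ s : ℝ, 0 < s ∧ s ≤ R ∧ ∀ y : ι → E d, ‖y‖ < s → ∀ z z' : E d, z ∈ K → ‖z' - z‖ < s →
      z' ∈ O ∧ Psi c (c i).x₀ (y, z') = z' + (c i).V z' (y i) ∧
        Fam c y ((c i).e.symm z') ∈ (c i).e.source := by
  set F : Set X := ⋃ j ∈ {j : ι | j ≠ i}, (c j).M with hF
  have hFc : IsClosed F := by
    refine Set.Finite.isClosed_biUnion (Set.toFinite _) fun j _ => (c j).M_compact.isClosed
  set O' : Set (E d) := O ∩ ((c i).e.target ∩ (c i).e.symm ⁻¹' Fᶜ) with hO'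
  have hO'o : IsOpen O' := hO.inter ((c i).e.isOpen_inter_preimage_symm hFc.isOpen_compl)
  have hKO' : K ⊆ O' := by
    intro z hz
    refine ⟨hKO hz, hOt (hKO hz), ?_⟩
    show (c i).e.symm z ∉ F
    rw [hF, mem_iUnion₂]
    rintro ⟨j, hj, hm⟩
    exact hother j hj z hz hm
  obtain ⟨s₁, hs₁, hball⟩ := exists_ball_sub hK hO'o hKO'
  refine ⟨min (s₁ / 4) R, by positivity, min_le_right _ _, fun y hy z z' hz hz' => ?_⟩
  have hy1 : ‖y‖ < s₁ / 4 := hy.trans_le (min_le_left _ _)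
  have hz1 : ‖z' - z‖ < s₁ / 4 := hz'.trans_le (min_le_left _ _)
  have hyi : ‖y i‖ ≤ ‖y‖ := norm_le_pi_norm y i
  have hV : ‖(c i).V z' (y i)‖ ≤ 2 * ‖y‖ := ((c i).norm_V (y i) z').trans (by linarith)
  have hm1 : z' ∈ O' := hball z hz (by rw [mem_closedBall, dist_eq_norm]; linarith)
  have hm2 : z' + (c i).V z' (y i) ∈ O' := by
    refine hball z hz ?_
    rw [mem_closedBall, dist_eq_norm]
    calc ‖z' + (c i).V z' (y i) - z‖ = ‖(z' - z) + (c i).V z' (y i)‖ := by congr 1; abel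
      _ ≤ ‖z' - z‖ + ‖(c i).V z' (y i)‖ := norm_add_le _ _
      _ ≤ s₁ := by linarith
  have hnot : ∀ w ∈ O', ∀ j, j ≠ i → (c i).e.symm w ∉ (c j).M := by
    intro w hw j hj hm
    exact hw.2.2 (mem_iUnion₂.2 ⟨j, hj, hm⟩)
  have hsh : (c i).sh (y i) ((c i).e.symm z') = (c i).e.symm (z' + (c i).V z' (y i)) :=
    (c i).sh_symm (y i) hm1.2.1
  have hfam : Fam c y ((c i).e.symm z') = (c i).e.symm (z' + (c i).V z' (y i)) := by
    show fam c (Finset.univ (α := ι)).toList y ((c i).e.symm z') = _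
    rw [fam_one c _ (Finset.nodup_toList _) i (Finset.mem_toList.2 (Finset.mem_univ i)) y
      (fun j _ hj => (c j).sh_eq_self (y j) (hnot z' hm1 j hj))
      (fun j _ hj => by
        rw [hsh]
        exact (c j).sh_eq_self (y j) (hnot _ hm2 j hj)), hsh]
  refine ⟨hm1.1, ?_, ?_⟩
  · show (c i).e (Fam c y ((c i).e.symm z')) = _
    rw [hfam, (c i).e.right_inv hm2.2.1]
  · rw [hfam]
    exact (c i).e.map_target hm2.2.1

omit [IsManifold (𝓡 d) ∞ X] in
/-- **Special pieces**: small pieces near a point, on which only one corrected shift acts; the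
density need not vanish. -/
theorem piece_special [T2Space X] (hd : 2 ≤ d) (c : ι → Sh d X) {R : ℝ} (hR0 : 0 < R)
    (i : ι) {K N O : Set (E d)} (hK : IsCompact K) (hO : IsOpen O) (hKO : K ⊆ O) (hON : O ⊆ N)
    (hNt : N ⊆ (c i).e.target) {A : E d → (E d →L[ℝ] E d)} {q : E d} {η κ : ℝ} (hη : 0 < η)
    (hV : ∀ z ∈ O, (c i).V z = ContinuousLinearMap.id ℝ (E d) + (corr A q).flip (z - q))
    (hKq : ∀ z ∈ K, ‖z - q‖ ≤ η) (hB : ‖corr A q‖ * η ≤ 1 / 4)
    (herr : ∀ z y : E d, ‖z - q‖ ≤ η → ‖y‖ ≤ η →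
      ‖(ContinuousLinearMap.id ℝ (E d) + corr A q y).comp (A z) -
        (A (z + (y + corr A q y (z - q)))).comp (ContinuousLinearMap.id ℝ (E d) + corr A q y)‖ ≤
      κ * ‖y‖)
    (hother : ∀ j, j ≠ i → ∀ z ∈ K, (c i).e.symm z ∉ (c j).M)
    {θ : E d → (E d) [⋀^Fin 2]→L[ℝ] ℝ} {C M c₀ D₀ s₀ : ℝ} (hκ : 0 ≤ κ) (hs₀ : 0 < s₀)
    (hD : ∀ z ∈ K, ∀ s : ℝ, 0 < s → s ≤ s₀ → ms θ z s ≤ ENNReal.ofReal (D₀ * s ^ (d - 2)))
    (hκD : κ ^ 2 * (D₀ * 2 ^ (d - 2)) ≤ epsC d C M * c₀) :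
    ∃ r₀ : ℝ, 0 < r₀ ∧ ∀ r : ℝ, 0 < r → r ≤ r₀ → ∃ ρ e : ℝ, PieceAt c R i K N A θ C M c₀ r ρ e := by
  obtain ⟨s, hs, hsR, hnear⟩ := Psi_near c hR0 i hK hO hKO (hON.trans hNt) hother
  obtain ⟨s₂, hs₂, hball⟩ := exists_ball_sub hK hO hKO
  set B := corr A q with hBdef
  have hB0 : 0 ≤ ‖B‖ := norm_nonneg B
  refine ⟨min (s / 2) (min η (min (1 / (2 * (‖B‖ + 1))) (min (s₀ / 2) (s₂ / 2)))), by positivity,
    fun r hr hrr => ⟨2 * r, κ * r, ?_⟩⟩
  have hrs : r < s := (hrr.trans (min_le_left _ _)).trans_lt (by linarith)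
  have hrη : r ≤ η := hrr.trans ((min_le_right _ _).trans (min_le_left _ _))
  have hrB : ‖B‖ * r ≤ 1 / 2 := by
    have h1 : r ≤ 1 / (2 * (‖B‖ + 1)) := hrr.trans ((min_le_right _ _).trans
      ((min_le_right _ _).trans (min_le_left _ _)))
    rw [le_div_iff₀ (by positivity)] at h1
    nlinarith
  have hrs₀ : 2 * r ≤ s₀ := by
    have h1 : r ≤ s₀ / 2 := hrr.trans ((min_le_right _ _).trans
      ((min_le_right _ _).trans ((min_le_right _ _).trans (min_le_left _ _))))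
    linarith
  have hrs₂ : 2 * r ≤ s₂ := by
    have h1 : r ≤ s₂ / 2 := hrr.trans ((min_le_right _ _).trans
      ((min_le_right _ _).trans ((min_le_right _ _).trans (min_le_right _ _))))
    linarith
  have hyi : ∀ y : ι → E d, ‖y i‖ ≤ ‖y‖ := fun y => norm_le_pi_norm y i
  -- the formula near a point of the piece
  have hform : ∀ y : ι → E d, ‖y‖ < s → ∀ z z' : E d, z ∈ K → ‖z' - z‖ < s →
      Psi c (c i).x₀ (y, z') = z' + (y i + B (y i) (z' - q)) := by
    intro y hy z z' hz hz'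
    obtain ⟨h1, h2, -⟩ := hnear y hy z z' hz hz'
    rw [h2, hV z' h1]
    rfl
  have hself : ∀ z : E d, ‖z - z‖ < s := fun z => by rw [sub_self, norm_zero]; exact hs
  have hDz : ∀ y : ι → E d, ‖y‖ ≤ r → ∀ z ∈ K,
      fderiv ℝ (fun z' => Psi c (c i).x₀ (y, z')) z =
        ContinuousLinearMap.id ℝ (E d) + B (y i) := by
    intro y hy z hz
    have h1 : (fun z' => Psi c (c i).x₀ (y, z')) =ᶠ[𝓝 z]
        fun z' => z' + (y i + B (y i) (z' - q)) := by
      filter_upwards [Metric.ball_mem_nhds z hs] with z' hz'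
      exact hform y (hy.trans_lt hrs) z z' hz (by rwa [← dist_eq_norm])
    have h2 : HasFDerivAt (fun z' => z' + (y i + B (y i) (z' - q)))
        (ContinuousLinearMap.id ℝ (E d) + B (y i)) z := by
      have h3 : HasFDerivAt (fun z' : E d => B (y i) (z' - q)) (B (y i)) z := by
        have h4 : HasFDerivAt (fun z' : E d => z' - q) (ContinuousLinearMap.id ℝ (E d)) z :=
          (hasFDerivAt_id z).sub_const q
        exact (B (y i)).hasFDerivAt.comp z h4
      exact (hasFDerivAt_id z).add (h3.const_add (y i))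
    rw [h1.fderiv_eq, h2.fderiv]
  have hDy : ∀ y : ι → E d, ‖y‖ ≤ r → ∀ z ∈ K,
      (fderiv ℝ (fun y' => Psi c (c i).x₀ (y', z)) y).comp (inc i) =
        ContinuousLinearMap.id ℝ (E d) + B.flip (z - q) := by
    intro y hy z hz
    have hlt : ‖y‖ < s := hy.trans_lt hrs
    have h1 : (fun y' => Psi c (c i).x₀ (y', z)) =ᶠ[𝓝 y]
        fun y' => z + (ContinuousLinearMap.id ℝ (E d) + B.flip (z - q))
          (ContinuousLinearMap.proj (R := ℝ) (φ := fun _ : ι => E d) i y') := by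
      have h0 : ∀ᶠ y' : ι → E d in 𝓝 y, ‖y'‖ < s :=
        (continuous_norm.continuousAt (x := y)).eventually (gt_mem_nhds hlt)
      filter_upwards [h0] with y' hy'
      rw [hform y' hy' z z hz (hself z)]
      rfl
    have h2 : HasFDerivAt (fun y' : ι → E d => z + (ContinuousLinearMap.id ℝ (E d) +
        B.flip (z - q)) (ContinuousLinearMap.proj (R := ℝ) (φ := fun _ : ι => E d) i y'))
        ((ContinuousLinearMap.id ℝ (E d) + B.flip (z - q)).comp
          (ContinuousLinearMap.proj (R := ℝ) (φ := fun _ : ι => E d) i)) y :=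
      ((ContinuousLinearMap.id ℝ (E d) + B.flip (z - q)).hasFDerivAt.comp y
        (ContinuousLinearMap.proj (R := ℝ) (φ := fun _ : ι => E d) i).hasFDerivAt).const_add z
    rw [h1.fderiv_eq, h2.fderiv]
    refine ContinuousLinearMap.ext fun u => ?_
    simp
  have hzq : ∀ z ∈ K, ‖B.flip (z - q)‖ ≤ 1 / 4 := by
    intro z hz
    refine (B.flip.le_opNorm _).trans ?_
    rw [ContinuousLinearMap.opNorm_flip]
    exact (mul_le_mul_of_nonneg_left (hKq z hz) hB0).trans hB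
  refine ⟨by positivity, ?_, ?_, ?_, ?_, ?_, ?_, ?_⟩
  · intro z hz
    exact ((closedBall_subset_closedBall hrs₂).trans (hball z hz)).trans hON
  · intro y hy z hz
    obtain ⟨h1, h2, h3⟩ := hnear y (hy.trans_lt hrs) z z hz (hself z)
    exact ⟨(hy.trans_lt hrs).trans_le hsR, hNt (hON h1), h3⟩
  · intro y hy z hz
    rw [hform y (hy.trans_lt hrs) z z hz (hself z), add_sub_cancel_left]
    have h1 : ‖B (y i) (z - q)‖ ≤ ‖B‖ * ‖y i‖ * η := by
      refine (B.le_opNorm₂ _ _).trans ?_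
      gcongr
      exact hKq z hz
    have h2 := hyi y
    have h3 := norm_add_le (y i) (B (y i) (z - q))
    have h4 : ‖B‖ * ‖y i‖ * η ≤ 1 / 4 * ‖y i‖ := by
      have : ‖B‖ * ‖y i‖ * η = (‖B‖ * η) * ‖y i‖ := by ring
      rw [this]
      gcongr
    have h5 : 0 ≤ ‖y i‖ := norm_nonneg _
    linarith
  · intro y hy z hz
    rw [hDz y hy z hz, add_sub_cancel_left]
    calc ‖B (y i)‖ ≤ ‖B‖ * ‖y i‖ := B.le_opNorm _
      _ ≤ ‖B‖ * r := by
          gcongr
          exact (hyi y).trans hy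
      _ ≤ 1 / 2 := hrB
  · intro y hy z hz
    rw [hDy y hy z hz, add_sub_cancel_left]
    exact (hzq z hz).trans (by norm_num)
  · intro y hy z hz
    rw [hDz y hy z hz, hform y (hy.trans_lt hrs) z z hz (hself z)]
    refine (herr z (y i) (hKq z hz) (((hyi y).trans hy).trans hrη)).trans ?_
    gcongr
    exact (hyi y).trans hy
  · intro z hz
    have h1 := hD z hz (2 * r) (by positivity) hrs₀
    calc ENNReal.ofReal ((κ * r) ^ 2) * ms θ z (2 * r)
        ≤ ENNReal.ofReal ((κ * r) ^ 2) * ENNReal.ofReal (D₀ * (2 * r) ^ (d - 2)) := by gcongr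
      _ = ENNReal.ofReal ((κ * r) ^ 2 * (D₀ * (2 * r) ^ (d - 2))) :=
          (ENNReal.ofReal_mul (sq_nonneg _)).symm
      _ ≤ ENNReal.ofReal (epsC d C M * c₀ * r ^ d) := by
          refine ENNReal.ofReal_le_ofReal ?_
          have e1 : r ^ d = r ^ 2 * r ^ (d - 2) := by
            rw [← pow_add]
            congr 1
            omega
          have e2 : (κ * r) ^ 2 * (D₀ * (2 * r) ^ (d - 2)) =
              (κ ^ 2 * (D₀ * 2 ^ (d - 2))) * (r ^ 2 * r ^ (d - 2)) := by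
            rw [mul_pow, mul_pow]
            ring
          rw [e1, e2]
          gcongr

end Pool.Agent.H819.LN
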