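import Mathlib
import Pool.Agent.H819.LG.Fin
import Pool.Agent.H819.LN.WkCl
import Pool.Agent.H819.LN.DensK
import Pool.Agent.H819.LN.DensCh
import Pool.Agent.H819.LN.Piece

/-!
# Densities of strongly taming forms on a manifold
-/

set_option autoImplicit false

open Set Filter Topology MeasureTheory Metric
open scoped Manifold ContDiff ENNReal NNReal

noncomputable section

namespace Pool.Agent.H819.LN

open Pool.Agent.Y501.SY
open Pool.Agent.H819
open Pool.Agent.H819.LG (GoodAt InClass TamedIn Represents StronglyTames LocHolder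
  smooth_chart inChart_sq trD tr_maps)

variable {d : ℕ} {X : Type} [TopologicalSpace X] [ChartedSpace (E d) X] [IsManifold (𝓡 d) ∞ X]

theorem taming_chart {J : End d X} (hJ2 : ∀ (x : X) (v : TangentSpace (𝓡 d) x), J x (J x v) = -v)
    (hJ : ∀ x₀, ContinuousOn (inChart J x₀) (chartAt (E d) x₀).target) (hJL : LocHolder J 1)
    {σ₀ θ : Form d X 2} (hσ : IsSmooth σ₀) (hcl : IsClosedForm σ₀) (hrep : Represents σ₀ θ)
    (ht : StronglyTames θ J) (x₀ : X) :
    Taming (chartAt (E d) x₀).target (pb (chartAt (E d) x₀).symm θ) (inChart J x₀) := by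
  obtain ⟨α, hα⟩ := hrep
  have hadd : σ₀ + (θ - σ₀) = θ := by abel
  obtain ⟨h1, h2⟩ := weakClosed_of hσ hcl hα x₀
  rw [hadd] at h1 h2
  refine ⟨(chartAt (E d) x₀).open_target, h1, h2, fun z hz u => inChart_sq hJ2 x₀ hz u, hJ x₀,
    fun N hN hNt => ?_, fun N hN hNt => ht x₀ N hN hNt⟩
  obtain ⟨L, hL⟩ := hJL x₀ N hN hNt
  refine ⟨L, fun z hz z' hz' => ?_⟩
  have h3 := hL z hz z' hz'
  rwa [Real.rpow_one] at h3

/-- the Lelong number of `θ` at `p` vanishes: the masses of the balls in the chart at `p` with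
centre `p` satisfy `liminf r^(2-d) ∫_{B_r} |θ| = 0` -/
def ZeroLelong (θ : Form d X 2) (p : X) : Prop :=
  ∀ ε : ℝ, 0 < ε → ∀ r₀ : ℝ, 0 < r₀ → ∃ r : ℝ, 0 < r ∧ r < r₀ ∧
    ms (pb (chartAt (E d) p).symm θ) (chartAt (E d) p p) r ≤ ENNReal.ofReal (ε * r ^ (d - 2))

/-- zero Lelong numbers imply small densities near the point, in all charts -/
theorem small_at [T2Space X] (hd : 2 ≤ d) {J : End d X} {θ : Form d X 2}
    (hT : ∀ x₀, Taming (chartAt (E d) x₀).target (pb (chartAt (E d) x₀).symm θ) (inChart J x₀))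
    (x₀ : X) {z : E d} (hz : z ∈ (chartAt (E d) x₀).target)
    (h0 : ZeroLelong θ ((chartAt (E d) x₀).symm z)) {ε : ℝ} (hε : 0 < ε) :
    ∃ s₀ : ℝ, 0 < s₀ ∧ ∀ z' ∈ closedBall z s₀, ∀ s : ℝ, 0 < s → s ≤ s₀ →
      ms (pb (chartAt (E d) x₀).symm θ) z' s ≤ ENNReal.ofReal (ε * s ^ (d - 2)) := by
  set p := (chartAt (E d) x₀).symm z with hp
  have hztr : z ∈ trD (d := d) x₀ p := ⟨hz, mem_chart_source (E d) p⟩
  obtain ⟨s₀, hs₀, L, hL, C, hC, hch⟩ := dens_chart x₀ p hztr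
  have htrz : LG.tr x₀ p z = chartAt (E d) p p := rfl
  have hL0 : 0 < L := by linarith
  set ε₁ : ℝ := ε / (C * L ^ (d - 2) + 1) with hε₁
  have hε₁0 : 0 < ε₁ := by positivity
  obtain ⟨s₁, hs₁, hsm⟩ := dens_small_local hd (hT p) (z₀ := chartAt (E d) p p)
    (mem_chart_target (E d) p) h0 ε₁ hε₁0
  refine ⟨min s₀ (s₁ / L), by positivity, fun z' hz' s hs hss => ?_⟩
  have h1 : z' ∈ closedBall z s₀ := closedBall_subset_closedBall (min_le_left _ _) hz'
  obtain ⟨-, h2, h3⟩ := hch z' h1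
  have h4 : s ≤ s₀ := hss.trans (min_le_left _ _)
  have h5 : L * s ≤ s₁ := by
    have : s ≤ s₁ / L := hss.trans (min_le_right _ _)
    rw [le_div_iff₀ hL0] at this
    linarith
  have h6 : LG.tr x₀ p z' ∈ closedBall (chartAt (E d) p p) s₁ := by
    rw [mem_closedBall, dist_eq_norm, ← htrz]
    refine h2.trans ?_
    have h7 : ‖z' - z‖ ≤ s₁ / L := by
      rw [← dist_eq_norm]
      exact (mem_closedBall.1 hz').trans (min_le_right _ _)
    rw [le_div_iff₀ hL0] at h7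
    linarith
  calc ms (pb (chartAt (E d) x₀).symm θ) z' s
      ≤ ENNReal.ofReal C * ms (pb (chartAt (E d) p).symm θ) (LG.tr x₀ p z') (L * s) :=
        h3 s hs.le h4 θ
    _ ≤ ENNReal.ofReal C * ENNReal.ofReal (ε₁ * (L * s) ^ (d - 2)) := by
        gcongr
        exact hsm _ h6 (L * s) (by positivity) h5
    _ = ENNReal.ofReal (C * (ε₁ * (L * s) ^ (d - 2))) := (ENNReal.ofReal_mul hC).symm
    _ ≤ ENNReal.ofReal (ε * s ^ (d - 2)) := by
        refine ENNReal.ofReal_le_ofReal ?_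
        have e1 : C * (ε₁ * (L * s) ^ (d - 2)) =
            (C * L ^ (d - 2) / (C * L ^ (d - 2) + 1)) * (ε * s ^ (d - 2)) := by
          rw [hε₁, mul_pow]
          ring
        rw [e1]
        have h8 : C * L ^ (d - 2) / (C * L ^ (d - 2) + 1) ≤ 1 := by
          rw [div_le_one (by positivity)]
          linarith
        have h9 : 0 ≤ ε * s ^ (d - 2) := by positivity
        nlinarith

/-- uniform version on compact sets -/
theorem small_compact [T2Space X] (hd : 2 ≤ d) {J : End d X} {θ : Form d X 2}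
    (hT : ∀ x₀, Taming (chartAt (E d) x₀).target (pb (chartAt (E d) x₀).symm θ) (inChart J x₀))
    (x₀ : X) {K : Set (E d)} (hK : IsCompact K) (hKt : K ⊆ (chartAt (E d) x₀).target)
    (h0 : ∀ z ∈ K, ZeroLelong θ ((chartAt (E d) x₀).symm z)) (ε : ℝ) (hε : 0 < ε) :
    ∃ s₀ : ℝ, 0 < s₀ ∧ ∀ z ∈ K, ∀ s : ℝ, 0 < s → s ≤ s₀ →
      ms (pb (chartAt (E d) x₀).symm θ) z s ≤ ENNReal.ofReal (ε * s ^ (d - 2)) := by
  refine hK.induction_on (p := fun K => ∃ s₀ : ℝ, 0 < s₀ ∧ ∀ z ∈ K, ∀ s : ℝ, 0 < s → s ≤ s₀ →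
      ms (pb (chartAt (E d) x₀).symm θ) z s ≤ ENNReal.ofReal (ε * s ^ (d - 2))) ?_ ?_ ?_ ?_
  · exact ⟨1, one_pos, fun z hz => hz.elim⟩
  · rintro s t hst ⟨s₀, hs₀, h⟩
    exact ⟨s₀, hs₀, fun z hz => h z (hst hz)⟩
  · rintro s t ⟨s₀, hs₀, h⟩ ⟨s₁, hs₁, h'⟩
    refine ⟨min s₀ s₁, by positivity, ?_⟩
    rintro z (hz | hz) r hr hrr
    · exact h z hz r hr (hrr.trans (min_le_left _ _))
    · exact h' z hz r hr (hrr.trans (min_le_right _ _))
  · intro z hz
    obtain ⟨s₀, hs₀, h⟩ := small_at hd hT x₀ (hKt hz) (h0 z hz) hε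
    exact ⟨closedBall z s₀, mem_nhdsWithin_of_mem_nhds (closedBall_mem_nhds z hs₀), s₀, hs₀, h⟩

omit [IsManifold (𝓡 d) ∞ X] in
/-- the constants at a point near which the special pieces are chosen -/
theorem special_data [T2Space X] (hd : 2 ≤ d) {J : End d X} {θ : Form d X 2}
    (hT : ∀ x₀, Taming (chartAt (E d) x₀).target (pb (chartAt (E d) x₀).symm θ) (inChart J x₀))
    (hJ1 : ∀ x₀, ContDiffOn ℝ 1 (inChart J x₀) (chartAt (E d) x₀).target) (p : X) :
    ∃ (N : Set (E d)) (M C c₀ κ η D₀ s₀ : ℝ), IsCompact N ∧ N ⊆ (chartAt (E d) p).target ∧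
      1 ≤ M ∧ 0 ≤ C ∧ 0 < c₀ ∧ (∀ z ∈ N, ‖inChart J p z‖ ≤ M) ∧
      (∀ᵐ z ∂(volume.restrict N), GoodAt (pb (chartAt (E d) p).symm θ) (inChart J p) C c₀ z) ∧
      0 < η ∧ closedBall (chartAt (E d) p p) η ⊆ interior N ∧ 0 ≤ κ ∧
      ‖corr (inChart J p) (chartAt (E d) p p)‖ * η ≤ 1 / 4 ∧
      (∀ z y : E d, ‖z - chartAt (E d) p p‖ ≤ η → ‖y‖ ≤ η →
        ‖(ContinuousLinearMap.id ℝ (E d) + corr (inChart J p) (chartAt (E d) p p) y).comp
          (inChart J p z) -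
        (inChart J p (z + (y + corr (inChart J p) (chartAt (E d) p p) y
          (z - chartAt (E d) p p)))).comp
          (ContinuousLinearMap.id ℝ (E d) + corr (inChart J p) (chartAt (E d) p p) y)‖ ≤
        κ * ‖y‖) ∧
      0 < s₀ ∧ (∀ z ∈ closedBall (chartAt (E d) p p) η, ∀ s : ℝ, 0 < s → s ≤ s₀ →
        ms (pb (chartAt (E d) p).symm θ) z s ≤ ENNReal.ofReal (D₀ * s ^ (d - 2))) ∧
      κ ^ 2 * (D₀ * 2 ^ (d - 2)) ≤ epsC d C M * c₀ := by
  set q := chartAt (E d) p p with hq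
  set A := inChart J p with hA
  have hqt : q ∈ (chartAt (E d) p).target := mem_chart_target (E d) p
  obtain ⟨s, hs, hst⟩ := Metric.nhds_basis_closedBall.mem_iff.1
    ((chartAt (E d) p).open_target.mem_nhds hqt)
  set N := closedBall q s with hN
  have hNc : IsCompact N := isCompact_closedBall q s
  obtain ⟨M', hM'⟩ := hNc.exists_bound_of_continuousOn ((hT p).cont.mono hst)
  set M := max M' 1 with hM
  obtain ⟨c₀, hc₀, C', hC'⟩ := (hT p).good N hNc hst
  set C := max C' 0 with hC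
  have hC0 : 0 ≤ C := le_max_right _ _
  have hM1 : 1 ≤ M := le_max_right _ _
  obtain ⟨s₀, hs₀, D₀, hD₀, hdens⟩ := dens_bound hd (hT p) (K := N) hNc hst
  have heps := epsC_pos (d := d) hC0 (by linarith : (0 : ℝ) ≤ M)
  set κ : ℝ := Real.sqrt (epsC d C M * c₀ / (D₀ * 2 ^ (d - 2) + 1)) with hκ
  have hκ0 : 0 < κ := Real.sqrt_pos.2 (by positivity)
  have hκ2 : κ ^ 2 = epsC d C M * c₀ / (D₀ * 2 ^ (d - 2) + 1) := Real.sq_sqrt (by positivity)
  have hJ2 : ∀ᶠ z in 𝓝 q, (A z).comp (A z) = -ContinuousLinearMap.id ℝ (E d) := by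
    filter_upwards [(chartAt (E d) p).open_target.mem_nhds hqt] with z hz
    refine ContinuousLinearMap.ext fun u => ?_
    have := (hT p).sq z hz u
    simpa using this
  obtain ⟨η, hη, herr⟩ := special_err ((hJ1 p).contDiffAt
    ((chartAt (E d) p).open_target.mem_nhds hqt)) hJ2 hκ0
  set B := corr A q with hB
  set η' : ℝ := min η (min (s / 2) (1 / (4 * (‖B‖ + 1)))) with hη'
  have hη'0 : 0 < η' := by positivity
  have h1 : η' ≤ η := min_le_left _ _
  have h2 : η' ≤ s / 2 := (min_le_right _ _).trans (min_le_left _ _)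
  have h3 : η' ≤ 1 / (4 * (‖B‖ + 1)) := (min_le_right _ _).trans (min_le_right _ _)
  refine ⟨N, M, C, c₀, κ, η', D₀, s₀, hNc, hst, hM1, hC0, hc₀,
    fun z hz => (hM' z hz).trans (le_max_left _ _), ?_, hη'0, ?_, hκ0.le, ?_,
    fun z y hz hy => herr z y (hz.trans h1) (hy.trans h1), hs₀,
    fun z hz => hdens z (closedBall_subset_closedBall (by linarith) hz), ?_⟩
  · filter_upwards [hC'] with z hz
    exact hz.mono hc₀.le (le_max_left _ _) le_rfl
  · exact (closedBall_subset_ball (by linarith)).trans ball_subset_interior_closedBall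
  · rw [le_div_iff₀ (by positivity)] at h3
    nlinarith [norm_nonneg B]
  · rw [hκ2]
    have h4 : epsC d C M * c₀ / (D₀ * 2 ^ (d - 2) + 1) * (D₀ * 2 ^ (d - 2)) =
        (D₀ * 2 ^ (d - 2) / (D₀ * 2 ^ (d - 2) + 1)) * (epsC d C M * c₀) := by ring
    rw [h4]
    have h5 : D₀ * 2 ^ (d - 2) / (D₀ * 2 ^ (d - 2) + 1) ≤ 1 := by
      rw [div_le_one (by positivity)]
      linarith
    have h6 : 0 ≤ epsC d C M * c₀ := by positivity
    nlinarith

end Pool.Agent.H819.LN
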