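import Mathlib

/-!
# Neighbourhoods of a closed totally disconnected set
-/

set_option autoImplicit false

open Set Filter Topology

noncomputable section

namespace Pool.Agent.H819.LN

/-- **Neighbourhoods of a closed totally disconnected set.**

Proof.  `S` (as a subtype) is compact, Hausdorff and totally disconnected, so its clopen sets are
a basis of its topology (`loc_compact_Haus_tot_disc_of_zero_dim`, `isTopologicalBasis_isClopen`,
`compact_exists_isClopen_in_isOpen`).  For `s ∈ S` choose a clopen `C s ⊆ S` with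
`s ∈ C s ⊆ W s`; finitely many `C (p 0), ..., C (p (m - 1))` cover `S`.  Disjointify:
`S j = C (p j) \ ⋃ k < j, C (p k)` (`disjointed` or by hand): pairwise disjoint, clopen in `S`,
with union `S`, and `S j ⊆ W (p j)`.  The function `S → ℝ` with value `j` on `S j` is continuous;
by Tietze (`ContinuousMap.exists_extension`, `X` is compact Hausdorff, hence normal) it is the
restriction of a continuous `g : X → ℝ`.  Put `U j = {x | |g x - j| < 1 / 3} ∩ W (p j)`: open,
pairwise disjoint, and it contains the compact set `S j`.  Finally use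
`exists_compact_between` twice: `S j ⊆ interior (A j)`, `A j ⊆ interior (P j)`, `P j ⊆ U j`. -/
theorem exists_disc_cover {X : Type} [TopologicalSpace X] [CompactSpace X] [T2Space X] {S : Set X}
    (hS : IsClosed S) (hd : IsTotallyDisconnected S) {W : X → Set X}
    (hW : ∀ p ∈ S, IsOpen (W p) ∧ p ∈ W p) :
    ∃ (m : ℕ) (p : Fin m → X) (U P A : Fin m → Set X), (∀ j, p j ∈ S) ∧ (∀ j, IsOpen (U j)) ∧
      (∀ j, U j ⊆ W (p j)) ∧ (∀ j k, j ≠ k → Disjoint (U j) (U k)) ∧ (∀ j, IsCompact (A j)) ∧
      (∀ j, IsCompact (P j)) ∧ (∀ j, A j ⊆ interior (P j)) ∧ (∀ j, P j ⊆ U j) ∧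
      S ⊆ ⋃ j, interior (A j) := by
  classical
  have : CompactSpace S := isCompact_iff_compactSpace.1 hS.isCompact
  have : TotallyDisconnectedSpace S := totallyDisconnectedSpace_subtype_iff.2 hd
  have hC : ∀ s : S, ∃ V : Set S, IsClopen V ∧ s ∈ V ∧ V ⊆ Subtype.val ⁻¹' (W s.1) := fun s =>
    compact_exists_isClopen_in_isOpen ((hW s.1 s.2).1.preimage continuous_subtype_val)
      (hW s.1 s.2).2
  choose C hCc hCm hCW using hC
  obtain ⟨t, ht⟩ := (isCompact_univ (X := S)).elim_finite_subcover C (fun s => (hCc s).isOpen)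
    (fun s _ => mem_iUnion.2 ⟨s, hCm s⟩)
  let q : Fin t.card → S := fun j => (t.equivFin.symm j : S)
  have hq : ∀ s : S, ∃ j, s ∈ C (q j) := by
    intro s
    obtain ⟨i, hi⟩ := mem_iUnion.1 (ht (mem_univ s))
    obtain ⟨hit, hsi⟩ := mem_iUnion.1 hi
    refine ⟨t.equivFin ⟨i, hit⟩, ?_⟩
    simpa [q] using hsi
  let D : Fin t.card → Set S := fun j => C (q j) \ ⋃ k ∈ {k : Fin t.card | k < j}, C (q k)
  have hDc : ∀ j, IsClopen (D j) := fun j =>
    (hCc _).diff ((Set.toFinite {k : Fin t.card | k < j}).isClopen_biUnion fun k _ => hCc _)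
  have hDdisj : ∀ j k, j ≠ k → Disjoint (D j) (D k) := by
    have key : ∀ j k, j < k → Disjoint (D j) (D k) := by
      intro j k hjk
      rw [Set.disjoint_left]
      intro x hxj hxk
      exact hxk.2 (mem_iUnion₂.2 ⟨j, hjk, hxj.1⟩)
    intro j k hjk
    rcases lt_or_gt_of_ne hjk with h | h
    · exact key j k h
    · exact (key k j h).symm
  have hDcov : ∀ s : S, ∃ j, s ∈ D j := by
    intro s
    have hne : (Finset.univ.filter fun j => s ∈ C (q j)).Nonempty := by
      obtain ⟨j, hj⟩ := hq s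
      exact ⟨j, by simpa using hj⟩
    refine ⟨(Finset.univ.filter fun j => s ∈ C (q j)).min' hne, ?_, ?_⟩
    · have := Finset.min'_mem _ hne
      simpa using this
    · intro h
      obtain ⟨k, hk, hsk⟩ := mem_iUnion₂.1 h
      have h1 : (Finset.univ.filter fun j => s ∈ C (q j)).min' hne ≤ k :=
        Finset.min'_le _ _ (by simpa using hsk)
      exact absurd hk (not_lt.2 h1)
  -- the function
  let f : S → ℝ := fun s => ∑ j, (D j).indicator (fun _ => (j : ℝ)) s
  have hfc : Continuous f := by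
    refine continuous_finset_sum _ fun j _ => ?_
    exact (continuous_const).indicator (fun a ha => by
      rw [(hDc j).frontier_eq] at ha
      exact ha.elim)
  have hf : ∀ j, ∀ s ∈ D j, f s = j := by
    intro j s hs
    show ∑ k, (D k).indicator (fun _ => (k : ℝ)) s = j
    rw [Finset.sum_eq_single j]
    · rw [indicator_of_mem hs]
    · intro k _ hk
      rw [indicator_of_notMem]
      intro hsk
      exact Set.disjoint_left.1 (hDdisj k j hk) hsk hs
    · intro h
      exact absurd (Finset.mem_univ j) h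
  obtain ⟨g, hg⟩ := ContinuousMap.exists_restrict_eq hS (⟨f, hfc⟩ : C(S, ℝ))
  have hgf : ∀ s : S, g s.1 = f s := fun s => by
    have := congrArg (fun h : C(S, ℝ) => h s) hg
    exact this
  let U : Fin t.card → Set X := fun j => {x | |g x - (j : ℝ)| < 1 / 3} ∩ W (q j).1
  have hUo : ∀ j, IsOpen (U j) := fun j =>
    (isOpen_lt ((g.continuous.sub continuous_const).abs) continuous_const).inter
      (hW _ (q j).2).1
  have hSU : ∀ j, Subtype.val '' (D j) ⊆ U j := by
    rintro j _ ⟨s, hs, rfl⟩
    refine ⟨?_, hCW _ hs.1⟩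
    show |g s.1 - (j : ℝ)| < 1 / 3
    rw [hgf, hf j s hs, sub_self, abs_zero]
    norm_num
  have hSc : ∀ j, IsCompact (Subtype.val '' (D j)) := fun j =>
    (hDc j).isClosed.isCompact.image continuous_subtype_val
  choose P hP1 hP2 hP3 using fun j => exists_compact_between (hSc j) (hUo j) (hSU j)
  choose A hA1 hA2 hA3 using fun j => exists_compact_between (hSc j) isOpen_interior (hP2 j)
  refine ⟨t.card, fun j => (q j).1, U, P, A, fun j => (q j).2, hUo, fun j => inter_subset_right,
    ?_, hA1, hP1, hA3, hP3, ?_⟩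
  · intro j k hjk
    rw [Set.disjoint_left]
    rintro x ⟨hx1, -⟩ ⟨hx2, -⟩
    have hx1' : |g x - (j : ℝ)| < 1 / 3 := hx1
    have hx2' : |g x - (k : ℝ)| < 1 / 3 := hx2
    rw [abs_lt] at hx1' hx2'
    have h1 : ((j : ℕ) : ℝ) < (k : ℕ) + 1 := by linarith
    have h2 : ((k : ℕ) : ℝ) < (j : ℕ) + 1 := by linarith
    have h3 : (j : ℕ) < (k : ℕ) + 1 := by exact_mod_cast h1
    have h4 : (k : ℕ) < (j : ℕ) + 1 := by exact_mod_cast h2
    apply hjk
    apply Fin.ext
    omega
  · intro x hx
    obtain ⟨j, hj⟩ := hDcov ⟨x, hx⟩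
    exact mem_iUnion.2 ⟨j, hA2 j ⟨⟨x, hx⟩, hj, rfl⟩⟩

end Pool.Agent.H819.LN
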