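import Mathlib
import Pool.Agent.H819.LN.Chart
import Pool.Agent.H819.LN.Asm
import Pool.Agent.H819.LN.Disc

/-!
# The main theorem
-/

set_option autoImplicit false

open Set Filter Topology MeasureTheory Metric
open scoped Manifold ContDiff ENNReal NNReal

noncomputable section

namespace Pool.Agent.H819.LN

open Pool.Agent.Y501.SY
open Pool.Agent.H819.LG (GoodAt InClass TamedIn Represents StronglyTames LocHolder
  smooth_chart inChart_sq locHolder_of_C1)

variable {d : ℕ} {X : Type} [TopologicalSpace X] [ChartedSpace (E d) X]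

/-- a finite cover of a compact set by balls in charts, inside an open set -/
theorem exists_ord_cover {Y O : Set X} (hY : IsCompact Y) (hO : IsOpen O) (hYO : Y ⊆ O) :
    ∃ (n : ℕ) (x : Fin n → X) (t : Fin n → ℝ), (∀ i, 0 < t i) ∧
      (∀ i, closedBall (chartAt (E d) (x i) (x i)) (3 * t i) ⊆
        (chartAt (E d) (x i)).target ∩ (chartAt (E d) (x i)).symm ⁻¹' O) ∧
      ∀ p ∈ Y, ∃ i, ∃ z ∈ closedBall (chartAt (E d) (x i) (x i)) (t i),
        (chartAt (E d) (x i)).symm z = p := by
  have h1 : ∀ p : X, ∃ r : ℝ, 0 < r ∧ (p ∈ O → closedBall (chartAt (E d) p p) (3 * r) ⊆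
      (chartAt (E d) p).target ∩ (chartAt (E d) p).symm ⁻¹' O) := by
    intro p
    by_cases hp : p ∈ O
    · have ho : IsOpen ((chartAt (E d) p).target ∩ (chartAt (E d) p).symm ⁻¹' O) :=
        (chartAt (E d) p).isOpen_inter_preimage_symm hO
      have hm : chartAt (E d) p p ∈ (chartAt (E d) p).target ∩ (chartAt (E d) p).symm ⁻¹' O := by
        refine ⟨mem_chart_target (E d) p, ?_⟩
        show (chartAt (E d) p).symm (chartAt (E d) p p) ∈ O
        rw [(chartAt (E d) p).left_inv (mem_chart_source (E d) p)]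
        exact hp
      obtain ⟨s, hs, hs'⟩ := Metric.nhds_basis_closedBall.mem_iff.1 (ho.mem_nhds hm)
      refine ⟨s / 3, by positivity, fun _ => ?_⟩
      have : 3 * (s / 3) = s := by ring
      rw [this]
      exact hs'
    · exact ⟨1, one_pos, fun h => absurd h hp⟩
  choose r hr hrt using h1
  have h2 : ∀ p : X, (chartAt (E d) p).source ∩ (chartAt (E d) p) ⁻¹' (ball (chartAt (E d) p p)
      (r p)) ∈ 𝓝 p := by
    intro p
    refine ((chartAt (E d) p).isOpen_inter_preimage isOpen_ball).mem_nhds ?_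
    exact ⟨mem_chart_source (E d) p, mem_ball_self (hr p)⟩
  obtain ⟨t, htY, ht⟩ := hY.elim_nhds_subcover _ fun p (_ : p ∈ Y) => h2 p
  refine ⟨t.card, fun i => (t.equivFin.symm i : X), fun i => r (t.equivFin.symm i : X),
    fun i => hr _, fun i => hrt _ (hYO (htY _ (t.equivFin.symm i).2)), fun p hp => ?_⟩
  obtain ⟨q, hq, hpq⟩ := mem_iUnion₂.1 (ht hp)
  refine ⟨t.equivFin ⟨q, hq⟩, chartAt (E d) q p, ?_, ?_⟩
  · show chartAt (E d) q p ∈ closedBall (chartAt (E d) (t.equivFin.symm (t.equivFin ⟨q, hq⟩) : X)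
      (t.equivFin.symm (t.equivFin ⟨q, hq⟩) : X)) (r (t.equivFin.symm (t.equivFin ⟨q, hq⟩) : X))
    rw [Equiv.symm_apply_apply]
    exact ball_subset_closedBall hpq.2
  · show (chartAt (E d) (t.equivFin.symm (t.equivFin ⟨q, hq⟩) : X)).symm
      (chartAt (E d) q p) = p
    rw [Equiv.symm_apply_apply]
    exact (chartAt (E d) q).left_inv hpq.1

variable [IsManifold (𝓡 d) ∞ X]

/-- **Removal of totally disconnected singularities.** -/
theorem tamedIn_of_lelong [T2Space X] [CompactSpace X] (hd : 2 ≤ d) {J : End d X}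
    (hJ2 : ∀ (x : X) (v : TangentSpace (𝓡 d) x), J x (J x v) = -v)
    (hJ1 : ∀ x₀, ContDiffOn ℝ 1 (inChart J x₀) (chartAt (E d) x₀).target)
    {σ₀ θ : Form d X 2} (hσ : IsSmooth σ₀) (hcl : IsClosedForm σ₀) (hrep : Represents σ₀ θ)
    (ht : StronglyTames θ J) {S : Set X} (hS : IsClosed S) (hSd : IsTotallyDisconnected S)
    (h0 : ∀ p, p ∉ S → ZeroLelong θ p) : TamedIn σ₀ J := by
  classical
  have hJ : ∀ x₀, ContinuousOn (inChart J x₀) (chartAt (E d) x₀).target := fun x₀ =>
    (hJ1 x₀).continuousOn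
  have hT := taming_chart hJ2 hJ (locHolder_of_C1 hJ1) hσ hcl hrep ht
  -- the constants at the points of `S`
  choose Ns Ms Cs cs κs ηs Ds ss hNc hNt hM1 hC0 hc0 hMb hgood hη hηN hκ hB herr hss hdens hκD
    using special_data hd hT hJ1
  set W : X → Set X := fun p => (chartAt (E d) p).source ∩
    (chartAt (E d) p) ⁻¹' (ball (chartAt (E d) p p) (ηs p)) with hW
  obtain ⟨m, p, U, P, A, -, hUo, hUW, hUd, hAc, hPc, hAP, hPU, hSA⟩ :=
    exists_disc_cover hS hSd (W := W) fun p _ =>
      ⟨(chartAt (E d) p).isOpen_inter_preimage isOpen_ball,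
        mem_chart_source (E d) p, mem_ball_self (hη p)⟩
  have hPs : ∀ j, P j ⊆ (chartAt (E d) (p j)).source := fun j x hx => (hUW j (hPU j hx)).1
  -- the open sets in the charts
  have hOo : ∀ j, IsOpen ((chartAt (E d) (p j)).target ∩ (chartAt (E d) (p j)).symm ⁻¹' (U j)) :=
    fun j => (chartAt (E d) (p j)).isOpen_inter_preimage_symm (hUo j)
  have hOball : ∀ j, ∀ z ∈ (chartAt (E d) (p j)).target ∩ (chartAt (E d) (p j)).symm ⁻¹' (U j),
      ‖z - chartAt (E d) (p j) (p j)‖ < ηs (p j) := by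
    intro j z hz
    have h1 := (hUW j hz.2).2
    have h2 : chartAt (E d) (p j) ((chartAt (E d) (p j)).symm z) ∈
      ball (chartAt (E d) (p j) (p j)) (ηs (p j)) := h1
    rw [(chartAt (E d) (p j)).right_inv hz.1, mem_ball, dist_eq_norm] at h2
    exact h2
  have himg : ∀ j, ∀ Q ⊆ P j, chartAt (E d) (p j) '' Q ⊆
      (chartAt (E d) (p j)).target ∩ (chartAt (E d) (p j)).symm ⁻¹' (U j) := by
    rintro j Q hQ _ ⟨x, hx, rfl⟩
    have hxs := hPs j (hQ hx)
    refine ⟨(chartAt (E d) (p j)).map_source hxs, ?_⟩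
    show (chartAt (E d) (p j)).symm (chartAt (E d) (p j) x) ∈ U j
    rw [(chartAt (E d) (p j)).left_inv hxs]
    exact hPU j (hQ hx)
  have himgc : ∀ j, ∀ Q ⊆ P j, IsCompact Q → IsCompact (chartAt (E d) (p j) '' Q) :=
    fun j Q hQ hQc => hQc.image_of_continuousOn
      ((chartAt (E d) (p j)).continuousOn.mono (hQ.trans (hPs j)))
  -- the special shifts
  have hTsm : ∀ j, ContDiff ℝ ∞ (fun z : E d => ContinuousLinearMap.id ℝ (E d) +
      (corr (inChart J (p j)) (chartAt (E d) (p j) (p j))).flip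
        (z - chartAt (E d) (p j) (p j))) := by
    intro j
    refine contDiff_const.add ?_
    exact (corr (inChart J (p j)) (chartAt (E d) (p j) (p j))).flip.contDiff.comp
      (contDiff_id.sub contDiff_const)
  have hflip : ∀ j, ∀ z : E d, ‖z - chartAt (E d) (p j) (p j)‖ ≤ ηs (p j) →
      ‖(corr (inChart J (p j)) (chartAt (E d) (p j) (p j))).flip
        (z - chartAt (E d) (p j) (p j))‖ ≤ 1 / 4 := by
    intro j z hz
    refine (ContinuousLinearMap.le_opNorm _ _).trans ?_
    rw [ContinuousLinearMap.opNorm_flip]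
    have h1 : 0 ≤ ‖corr (inChart J (p j)) (chartAt (E d) (p j) (p j))‖ :=
      ContinuousLinearMap.opNorm_nonneg _
    exact (mul_le_mul_of_nonneg_left hz h1).trans (hB (p j))
  have hex1 := fun j => exists_sh (p j) (himgc j (P j) Subset.rfl (hPc j)) (hOo j)
    (himg j (P j) Subset.rfl) inter_subset_left (hTsm j) (fun z hz => by
      refine (norm_add_le _ _).trans ?_
      have h1 := hflip j z (hOball j z hz).le
      have h2 := ContinuousLinearMap.norm_id_le (𝕜 := ℝ) (E := E d)
      linarith)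
  choose c₁ hc₁x hc₁ hc₁t using hex1
  choose O₁ hO₁o hO₁P hO₁U hO₁V using hc₁
  obtain rfl : p = fun j => (c₁ j).x₀ := funext fun j => (hc₁x j).symm
  -- the ordinary shifts
  set O : Set X := (⋃ j, A j)ᶜ with hO
  have hOopen : IsOpen O := (isClosed_iUnion_of_finite fun j => (hAc j).isClosed).isOpen_compl
  set Y : Set X := (⋃ j, interior (P j))ᶜ with hY
  have hYc : IsCompact Y := (isOpen_iUnion fun j => isOpen_interior).isClosed_compl.isCompact
  have hYO : Y ⊆ O := by
    intro x hx hxA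
    obtain ⟨j, hj⟩ := mem_iUnion.1 hxA
    exact hx (mem_iUnion.2 ⟨j, hAP j hj⟩)
  obtain ⟨n, x, t, ht0, htO, hYcov⟩ := exists_ord_cover (d := d) hYc hOopen hYO
  have hex0 := fun i => exists_sh (d := d) (x i)
    (isCompact_closedBall (chartAt (E d) (x i) (x i)) (t i))
    (isOpen_ball (x := chartAt (E d) (x i) (x i)) (ε := 3 * t i))
    (closedBall_subset_ball (by have := ht0 i; linarith))
    ((ball_subset_closedBall.trans (htO i)).trans inter_subset_left)
    (T := fun _ => ContinuousLinearMap.id ℝ (E d)) contDiff_const (fun z _ => by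
      have h2 := ContinuousLinearMap.norm_id_le (𝕜 := ℝ) (E := E d)
      linarith)
  choose c₀ hc₀x hc₀ hc₀t using hex0
  choose O₀ hO₀o hO₀K hO₀b hO₀V using hc₀
  obtain rfl : x = fun i => (c₀ i).x₀ := funext fun i => (hc₀x i).symm
  -- the family
  set c : Fin n ⊕ Fin m → Sh d X := Sum.elim c₀ c₁ with hc
  obtain ⟨R, hR0, hR⟩ := exists_pos_le' (fun i => (c i).R) fun i => (c i).pos
  -- the pieces
  set a : Fin n ⊕ (Fin m ⊕ Fin m) → Fin n ⊕ Fin m :=
    Sum.elim Sum.inl (Sum.elim Sum.inr Sum.inr) with ha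
  set K : Fin n ⊕ (Fin m ⊕ Fin m) → Set (E d) :=
    Sum.elim (fun i => closedBall (chartAt (E d) (c₀ i).x₀ (c₀ i).x₀) (t i))
      (Sum.elim (fun j => chartAt (E d) (c₁ j).x₀ '' A j)
        (fun j => chartAt (E d) (c₁ j).x₀ '' (P j \ interior (A j)))) with hK
  set N : Fin n ⊕ (Fin m ⊕ Fin m) → Set (E d) :=
    Sum.elim (fun i => closedBall (chartAt (E d) (c₀ i).x₀ (c₀ i).x₀) (3 * t i))
      (Sum.elim (fun j => Ns (c₁ j).x₀) (fun j => Ns (c₁ j).x₀)) with hN
  have hAPs : ∀ j, A j ⊆ P j := fun j => (hAP j).trans interior_subset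
  have hshellc : ∀ j, IsCompact (P j \ interior (A j)) := fun j => (hPc j).diff isOpen_interior
  have hnotS : ∀ q ∈ O, q ∉ S := by
    intro q hq hqS
    obtain ⟨j, hj⟩ := mem_iUnion.1 (hSA hqS)
    exact hq (mem_iUnion.2 ⟨j, interior_subset hj⟩)
  have hshellS : ∀ j, ∀ q ∈ P j \ interior (A j), q ∉ S := by
    intro j q hq hqS
    obtain ⟨k, hk⟩ := mem_iUnion.1 (hSA hqS)
    by_cases hjk : j = k
    · subst hjk
      exact hq.2 hk
    · exact Set.disjoint_left.1 (hUd j k hjk) (hPU j hq.1) (hPU k (hAPs k (interior_subset hk)))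
  have hONs : ∀ j, (chartAt (E d) (c₁ j).x₀).target ∩ (chartAt (E d) (c₁ j).x₀).symm ⁻¹' (U j) ⊆
      interior (Ns (c₁ j).x₀) := by
    intro j z hz
    refine hηN (c₁ j).x₀ ?_
    rw [mem_closedBall, dist_eq_norm]
    exact (hOball j z hz).le
  refine assemble c hR0 hR a K N ?_ ?_ ?_ ?_ hJ hσ hcl hrep ?_
  · rintro (i | j | j)
    · exact isCompact_closedBall _ _
    · exact himgc j (A j) (hAPs j) (hAc j)
    · exact himgc j _ sdiff_subset (hshellc j)
  · rintro (i | j | j)
    · exact isCompact_closedBall _ _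
    · exact hNc _
    · exact hNc _
  · rintro (i | j | j)
    · exact (htO i).trans inter_subset_left
    · exact hNt _
    · exact hNt _
  · intro q
    by_cases hq : q ∈ ⋃ j, interior (P j)
    · obtain ⟨j, hj⟩ := mem_iUnion.1 hq
      have hqP : q ∈ P j := interior_subset hj
      by_cases hqA : q ∈ A j
      · exact ⟨Sum.inr (Sum.inl j), chartAt (E d) (c₁ j).x₀ q, ⟨q, hqA, rfl⟩,
          (chartAt (E d) (c₁ j).x₀).left_inv (hPs j hqP)⟩
      · exact ⟨Sum.inr (Sum.inr j), chartAt (E d) (c₁ j).x₀ q,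
          ⟨q, ⟨hqP, fun h => hqA (interior_subset h)⟩, rfl⟩,
          (chartAt (E d) (c₁ j).x₀).left_inv (hPs j hqP)⟩
    · obtain ⟨i, z, hz, hzq⟩ := hYcov q hq
      exact ⟨Sum.inl i, z, hz, hzq⟩
  · rintro (i | j | j)
    · -- ordinary pieces
      set x₀ := (c₀ i).x₀ with hx₀
      set Ni := closedBall (chartAt (E d) x₀ x₀) (3 * t i) with hNi
      have hNic : IsCompact Ni := isCompact_closedBall _ _
      have hNit : Ni ⊆ (chartAt (E d) x₀).target := (htO i).trans inter_subset_left
      obtain ⟨M', hM'⟩ := hNic.exists_bound_of_continuousOn ((hJ x₀).mono hNit)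
      obtain ⟨cg, hcg, C', hC'⟩ := ht x₀ Ni hNic hNit
      obtain ⟨L, hL⟩ := (hT x₀).lip Ni hNic hNit
      have hMn : ∀ z ∈ Ni, ‖inChart J x₀ z‖ ≤ max M' 1 := fun z hz =>
        (hM' z hz).trans (le_max_left _ _)
      refine ⟨max M' 1, max C' 0, cg, le_max_right _ _, le_max_right _ _, hcg, hMn, ?_, ?_⟩
      · filter_upwards [hC'] with z hz
        exact hz.mono hcg.le (le_max_left _ _) le_rfl
      · refine piece_general hd c hR0 hR (Sum.inl i)
          (K := closedBall (chartAt (E d) x₀ x₀) (t i)) (N := Ni)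
          (isCompact_closedBall _ _) ?_ hNit ?_ hMn hL (le_max_right _ _) hcg ?_
        · refine (closedBall_subset_ball ?_).trans ball_subset_interior_closedBall
          have := ht0 i
          linarith
        · intro z hz
          have h1 : (c (Sum.inl i)).V z = ContinuousLinearMap.id ℝ (E d) := hO₀V i z (hO₀K i hz)
          rw [h1, sub_self, norm_zero]
          norm_num
        · refine small_compact hd hT x₀ (isCompact_closedBall _ _) ?_ ?_
          · exact (closedBall_subset_closedBall (by have := ht0 i; linarith)).trans hNit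
          · intro z hz
            refine h0 _ (hnotS _ ?_)
            exact (htO i (closedBall_subset_closedBall (by have := ht0 i; linarith) hz)).2
    · -- special pieces
      set x₀ := (c₁ j).x₀ with hx₀
      refine ⟨Ms x₀, Cs x₀, cs x₀, hM1 x₀, hC0 x₀, hc0 x₀, hMb x₀, hgood x₀, ?_⟩
      refine piece_special hd c hR0 (Sum.inr j) (K := chartAt (E d) x₀ '' A j) (N := Ns x₀)
        (O := O₁ j) (himgc j (A j) (hAPs j) (hAc j)) (hO₁o j)
        ((image_mono (hAPs j)).trans (hO₁P j))
        ((hO₁U j).trans ((hONs j).trans interior_subset)) (hNt x₀)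
        (q := chartAt (E d) x₀ x₀) (η := ηs x₀) (κ := κs x₀) (hη x₀) (hO₁V j) ?_ (hB x₀)
        (herr x₀) ?_ (hκ x₀) (hss x₀) (D₀ := Ds x₀) ?_ (hκD x₀)
      · intro z hz
        exact (hOball j z (himg j (A j) (hAPs j) hz)).le
      · rintro (i | k) hk z hz hm
        · -- ordinary shifts
          obtain ⟨w, hw, hwz⟩ := hm
          have h1 : (c₀ i).e.symm w ∈ O := (htO i (ball_subset_closedBall (hc₀t i hw))).2
          have h2 : (chartAt (E d) x₀).symm z ∈ A j := by
            obtain ⟨q, hq, hqz⟩ := hz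
            rw [← hqz, (chartAt (E d) x₀).left_inv (hPs j (hAPs j hq))]
            exact hq
          apply h1
          have h3 : (c₀ i).e.symm w = (chartAt (E d) x₀).symm z := hwz
          rw [h3]
          exact mem_iUnion.2 ⟨j, h2⟩
        · obtain ⟨w, hw, hwz⟩ := hm
          have hkj : k ≠ j := fun h => hk (by rw [h])
          have h1 : (c₁ k).e.symm w ∈ U k := (hc₁t k hw).2
          have h2 : (chartAt (E d) x₀).symm z ∈ U j := (himg j (A j) (hAPs j) hz).2
          have h3 : (c₁ k).e.symm w = (chartAt (E d) x₀).symm z := hwz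
          rw [h3] at h1
          exact Set.disjoint_left.1 (hUd k j hkj) h1 h2
      · intro z hz
        refine hdens x₀ z ?_
        rw [mem_closedBall, dist_eq_norm]
        exact (hOball j z (himg j (A j) (hAPs j) hz)).le
    · -- shells
      set x₀ := (c₁ j).x₀ with hx₀
      refine ⟨Ms x₀, Cs x₀, cs x₀, hM1 x₀, hC0 x₀, hc0 x₀, hMb x₀, hgood x₀, ?_⟩
      obtain ⟨L, hL⟩ := (hT x₀).lip (Ns x₀) (hNc x₀) (hNt x₀)
      refine piece_general hd c hR0 hR (Sum.inr j)
        (K := chartAt (E d) x₀ '' (P j \ interior (A j))) (N := Ns x₀)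
        (himgc j _ sdiff_subset (hshellc j)) ((himg j _ sdiff_subset).trans (hONs j)) (hNt x₀) ?_
        (hMb x₀) hL (hC0 x₀) (hc0 x₀) ?_
      · intro z hz
        have h1 : (c (Sum.inr j)).V z = ContinuousLinearMap.id ℝ (E d) +
            (corr (inChart J x₀) (chartAt (E d) x₀ x₀)).flip (z - chartAt (E d) x₀ x₀) :=
          hO₁V j z (hO₁P j (image_mono sdiff_subset hz))
        rw [h1, add_sub_cancel_left]
        exact hflip j z (hOball j z (himg j _ sdiff_subset hz)).le
      · refine small_compact hd hT x₀ (himgc j _ sdiff_subset (hshellc j)) ?_ ?_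
        · exact (himg j _ sdiff_subset).trans inter_subset_left
        · intro z hz
          refine h0 _ (hshellS j _ ?_)
          obtain ⟨q, hq, hqz⟩ := hz
          rw [← hqz, (chartAt (E d) x₀).left_inv (hPs j hq.1)]
          exact hq

end Pool.Agent.H819.LN
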