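import Mathlib
import Pool.Agent.H819.LN.Main

/-!
# Lelong numbers and taming forms
-/

set_option autoImplicit false

open Set Filter Topology MeasureTheory Metric
open scoped Manifold ContDiff ENNReal NNReal

noncomputable section

namespace Pool.Agent.H819.LN

open Pool.Agent.Y501.SY
open Pool.Agent.H819.LG (GoodAt InClass TamedIn Represents StronglyTames LocHolder VanishingDensity
  mass exists_cover criterion IsCover LocLp vanishing_density tamedIn_of)

variable {d : ℕ} {X : Type} [TopologicalSpace X] [ChartedSpace (E d) X]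

theorem mass_lower (hd : 2 ≤ d) {θ : E d → (E d) [⋀^Fin 2]→L[ℝ] ℝ} {A : E d → (E d →L[ℝ] E d)}
    {B : E d →L[ℝ] E d} {z : E d} {ρ ε : ℝ} (hρ : 0 < ρ)
    (h : mass θ A B z ρ ≤ ENNReal.ofReal (ε * ρ ^ d)) :
    ms θ z ρ ≤ ENNReal.ofReal (ε * ρ ^ (d - 2)) := by
  have h1 : ENNReal.ofReal (ρ ^ 2) * ms θ z ρ ≤ mass θ A B z ρ := by
    unfold ms mass
    rw [← lintegral_const_mul' _ _ ENNReal.ofReal_ne_top]
    refine lintegral_mono fun z' => ?_
    gcongr
    linarith [norm_nonneg (A z' - B)]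
  have e1 : ε * ρ ^ d = ρ ^ 2 * (ε * ρ ^ (d - 2)) := by
    have : ρ ^ d = ρ ^ 2 * ρ ^ (d - 2) := by
      rw [← pow_add]
      congr 1
      omega
    rw [this]
    ring
  have h2 := h1.trans h
  rw [e1, ENNReal.ofReal_mul (by positivity)] at h2
  exact (ENNReal.mul_le_mul_iff_right (by
    rw [Ne, ENNReal.ofReal_eq_zero, not_le]
    positivity) ENNReal.ofReal_ne_top).1 h2

theorem zero_of_vanishing (hd : 2 ≤ d) {θ : Form d X 2} {J : End d X}
    (h : VanishingDensity θ J) (p : X) : ZeroLelong θ p := by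
  intro ε hε r₀ hr₀
  obtain ⟨ρ₀, hρ₀, h1⟩ := h p {chartAt (E d) p p} isCompact_singleton
    (singleton_subset_iff.2 (mem_chart_target (E d) p)) ε hε
  refine ⟨min ρ₀ r₀ / 2, by positivity, ?_, ?_⟩
  · have := min_le_right ρ₀ r₀
    linarith
  · refine mass_lower hd (by positivity) (h1 _ (by positivity) ?_ _ (mem_singleton _))
    have := min_le_left ρ₀ r₀
    have : 0 < min ρ₀ r₀ := by positivity
    linarith

variable [IsManifold (𝓡 d) ∞ X]

theorem vanishing_of_zero [T2Space X] (hd : 2 ≤ d) {θ : Form d X 2} {J : End d X}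
    (hT : ∀ x₀, Taming (chartAt (E d) x₀).target (pb (chartAt (E d) x₀).symm θ) (inChart J x₀))
    (h0 : ∀ p, ZeroLelong θ p) : VanishingDensity θ J := by
  intro x₀ K hK hKt ε hε
  obtain ⟨r, hr, hrt⟩ := hK.exists_cthickening_subset_open (chartAt (E d) x₀).open_target hKt
  set N := cthickening r K with hN
  have hNc : IsCompact N := hK.cthickening
  obtain ⟨L, hL⟩ := (hT x₀).lip N hNc hrt
  set L' : ℝ := max L 0 with hL'
  have hL'0 : 0 ≤ L' := le_max_right _ _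
  obtain ⟨s₀, hs₀, hs⟩ := small_compact hd hT x₀ hK hKt (fun z _ => h0 _)
    (ε / (1 + L') ^ 2) (by positivity)
  refine ⟨min s₀ r, by positivity, fun ρ hρ hρ' z hz => ?_⟩
  have h1 : ρ ≤ s₀ := hρ'.le.trans (min_le_left _ _)
  have h2 : ρ ≤ r := hρ'.le.trans (min_le_right _ _)
  have hball : closedBall z ρ ⊆ N :=
    (closedBall_subset_closedBall h2).trans (closedBall_subset_cthickening hz _)
  calc mass (pb (chartAt (E d) x₀).symm θ) (inChart J x₀) (inChart J x₀ z) z ρ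
      ≤ ∫⁻ z' in closedBall z ρ, ENNReal.ofReal ((1 + L') ^ 2 * ρ ^ 2) *
          ‖pb (chartAt (E d) x₀).symm θ z'‖ₑ := by
        refine setLIntegral_mono' measurableSet_closedBall fun z' hz' => ?_
        refine mul_le_mul_left (ENNReal.ofReal_le_ofReal ?_) _
        have h3 := hL z (hball (mem_closedBall_self hρ.le)) z' (hball hz')
        have h4 : ‖z' - z‖ ≤ ρ := by
          rw [← dist_eq_norm]
          exact hz'
        have h5 : ‖inChart J x₀ z' - inChart J x₀ z‖ ≤ L' * ρ := by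
          refine h3.trans ?_
          calc L * ‖z' - z‖ ≤ L' * ‖z' - z‖ := by
                gcongr
                exact le_max_left _ _
            _ ≤ L' * ρ := by gcongr
        calc (ρ + ‖inChart J x₀ z' - inChart J x₀ z‖) ^ 2 ≤ (ρ + L' * ρ) ^ 2 := by gcongr
          _ = (1 + L') ^ 2 * ρ ^ 2 := by ring
    _ = ENNReal.ofReal ((1 + L') ^ 2 * ρ ^ 2) * ms (pb (chartAt (E d) x₀).symm θ) z ρ :=
        lintegral_const_mul' _ _ ENNReal.ofReal_ne_top
    _ ≤ ENNReal.ofReal ((1 + L') ^ 2 * ρ ^ 2) *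
        ENNReal.ofReal (ε / (1 + L') ^ 2 * ρ ^ (d - 2)) := by
        gcongr
        exact hs z hz ρ hρ h1
    _ = ENNReal.ofReal (((1 + L') ^ 2 * ρ ^ 2) * (ε / (1 + L') ^ 2 * ρ ^ (d - 2))) :=
        (ENNReal.ofReal_mul (by positivity)).symm
    _ = ENNReal.ofReal (ε * ρ ^ d) := by
        congr 1
        have e1 : ρ ^ d = ρ ^ 2 * ρ ^ (d - 2) := by
          rw [← pow_add]
          congr 1
          omega
        rw [e1]
        field_simp

/-- `θ` belongs to the Morrey space `L^{1, d - 2}`: the masses of the balls of radius `r` are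
bounded by `D r^(d - 2)`, locally uniformly -/
def BoundedDensity (θ : Form d X 2) : Prop :=
  ∀ (x₀ : X) (K : Set (E d)), IsCompact K → K ⊆ (chartAt (E d) x₀).target →
    ∃ s₀ : ℝ, 0 < s₀ ∧ ∃ D₀ : ℝ, 0 ≤ D₀ ∧ ∀ z ∈ K, ∀ s : ℝ, 0 < s → s ≤ s₀ →
      ms (pb (chartAt (E d) x₀).symm θ) z s ≤ ENNReal.ofReal (D₀ * s ^ (d - 2))

theorem lelong_criterion [T2Space X] [CompactSpace X] (hd : 2 ≤ d) {J : End d X}
    (hJ2 : ∀ (x : X) (v : TangentSpace (𝓡 d) x), J x (J x v) = -v)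
    (hJ : ∀ x₀, ContinuousOn (inChart J x₀) (chartAt (E d) x₀).target)
    {σ₀ : Form d X 2} (hσ : IsSmooth σ₀) (hcl : IsClosedForm σ₀) :
    (LocHolder J 1 → (∀ θ, Represents σ₀ θ → StronglyTames θ J → BoundedDensity θ) ∧
      (TamedIn σ₀ J ↔ ∃ θ, Represents σ₀ θ ∧ StronglyTames θ J ∧ ∀ p, ZeroLelong θ p)) ∧
    ((∀ x₀, ContDiffOn ℝ 1 (inChart J x₀) (chartAt (E d) x₀).target) →
      (TamedIn σ₀ J ↔ ∃ θ, Represents σ₀ θ ∧ StronglyTames θ J ∧
        ∃ S : Set X, IsClosed S ∧ IsTotallyDisconnected S ∧ ∀ p, p ∉ S → ZeroLelong θ p)) := by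
  have hback : TamedIn σ₀ J → ∃ θ, Represents σ₀ θ ∧ StronglyTames θ J ∧
      ∀ p, ZeroLelong θ p := by
    intro h
    obtain ⟨n, x, K, N, hK, hN, hKN, hNt, hcov⟩ := exists_cover d X
    obtain ⟨ε, ρ₀, -, hcr⟩ := criterion d X n x K N ⟨hK, hN, hKN, hNt, hcov⟩
    obtain ⟨θ, h1, h2, h3⟩ := ((hcr J hJ σ₀ hσ hcl).1.out 0 2).1 h
    exact ⟨θ, h1, h2, zero_of_vanishing hd h3⟩
  refine ⟨fun hJL => ⟨fun θ h1 h2 x₀ K hK hKt => ?_, hback, ?_⟩, fun hJ1 => ⟨fun h => ?_, ?_⟩⟩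
  · exact dens_bound hd (taming_chart hJ2 hJ hJL hσ hcl h1 h2 x₀) hK hKt
  · rintro ⟨θ, h1, h2, h3⟩
    have hv := vanishing_of_zero hd (taming_chart hJ2 hJ hJL hσ hcl h1 h2) h3
    obtain ⟨α, hα⟩ := h1
    have hadd : σ₀ + (θ - σ₀) = θ := by abel
    refine tamedIn_of (vanishing_density hJ hσ hcl hα ?_ ?_)
    · rw [hadd]
      exact h2
    · rw [hadd]
      exact hv
  · obtain ⟨θ, h1, h2, h3⟩ := hback h
    exact ⟨θ, h1, h2, ∅, isClosed_empty, isTotallyDisconnected_empty, fun p _ => h3 p⟩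
  · rintro ⟨θ, h1, h2, S, hS, hSd, h3⟩
    exact tamedIn_of_lelong hd hJ2 hJ1 hσ hcl h1 h2 hS hSd h3

end Pool.Agent.H819.LN
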