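import Mathlib
import Pool.Agent.H819.LG.Pub

/-!
# Lelong numbers: definitions
-/

set_option autoImplicit false

open Set Filter Topology MeasureTheory Metric
open scoped Manifold ContDiff ENNReal NNReal

noncomputable section

namespace Pool.Agent.H819.LNP

open Pool.Agent.Y501.SYP Pool.Agent.H819.LGP

variable {V : Type} [NormedAddCommGroup V] [NormedSpace ℝ V]
  {X : Type} [TopologicalSpace X] [ChartedSpace V X]

/-- `J` is of class `C^1`. -/
def C1End (J : End V X) : Prop := ∀ x₀ : X, ContDiffOn ℝ 1 (op J x₀) (chartAt V x₀).target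

variable [MeasurableSpace V]

/-- the mass `∫_{B_r(z)} |θ|` of `θ` in the closed ball with centre `z` and radius `r` of the chart
at `x₀` -/
def ballMass (μ : Measure V) (θ : Form V X 2) (x₀ : X) (z : V) (r : ℝ) : ℝ≥0∞ :=
  ∫⁻ z' in closedBall z r, ENNReal.ofReal ‖loc x₀ θ z'‖ ∂μ

/-- the density ratio `r^(2 - d) ∫_{B_r(p)} |θ|` at `p`, in the chart at `p` -/
def ratio (μ : Measure V) (d : ℕ) (θ : Form V X 2) (p : X) (r : ℝ) : ℝ≥0∞ :=
  ballMass μ θ p (chartAt V p p) r / ENNReal.ofReal (r ^ (d - 2))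

/-- the Lelong number of `θ` at `p`: the lower limit of the density ratios as `r` decreases to
zero -/
def lelong (μ : Measure V) (d : ℕ) (θ : Form V X 2) (p : X) : ℝ≥0∞ :=
  liminf (ratio μ d θ p) (𝓝[>] 0)

/-- `∫_{B_r(z)} |θ| ≤ D r^(d - 2)` for small `r`, locally uniformly in the charts -/
def BoundedDensity (μ : Measure V) (d : ℕ) (θ : Form V X 2) : Prop :=
  ∀ (x₀ : X) (N : Set V), InChart x₀ N → ∃ r₀ D : ℝ, 0 < r₀ ∧ ∀ z ∈ N, ∀ r : ℝ, 0 < r → r ≤ r₀ →
    ballMass μ θ x₀ z r ≤ ENNReal.ofReal (D * r ^ (d - 2))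

end Pool.Agent.H819.LNP
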