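import Mathlib
import Pool.Agent.H819.LN.Pub
import Pool.Agent.H819.LN.Fin
import Pool.Agent.H819.LG.Br

/-!
# Comparison of the definitions
-/

set_option autoImplicit false

open Set Filter Topology MeasureTheory Metric
open scoped Manifold ContDiff ENNReal NNReal

noncomputable section

namespace Pool.Agent.H819.LNP

open Pool.Agent.Y501 (SY.E)
open Pool.Agent.Y501.SYP Pool.Agent.H819.LGP
open Pool.Agent

variable {d : ℕ} {X : Type} [TopologicalSpace X] [ChartedSpace (ES d) X]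

attribute [local instance] cs

theorem ballMass_eq (θ : Form (ES d) X 2) (x₀ : X) (z : ES d) (r : ℝ) :
    ballMass (leb d) θ x₀ z r =
      H819.LN.ms (Y501.SY.pb (d := d) (X := X) (chartAt (Y501.SY.E d) x₀).symm θ) z r := by
  unfold ballMass H819.LN.ms
  have h : ∀ z' : ES d, ENNReal.ofReal ‖loc x₀ θ z'‖ = ‖loc x₀ θ z'‖ₑ := fun z' => ofReal_norm _
  simp_rw [h]
  rfl

theorem lelong_iff (θ : Form (ES d) X 2) (p : X) :
    lelong (leb d) d θ p = 0 ↔ H819.LN.ZeroLelong (d := d) (X := X) θ p := by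
  have hratio : ∀ {r ε : ℝ}, 0 < r → 0 ≤ ε → (ratio (leb d) d θ p r ≤ ENNReal.ofReal ε ↔
      H819.LN.ms (Y501.SY.pb (d := d) (X := X) (chartAt (Y501.SY.E d) p).symm θ)
        (chartAt (Y501.SY.E d) p p) r ≤ ENNReal.ofReal (ε * r ^ (d - 2))) := by
    intro r ε hr hε
    have hr' : 0 < r ^ (d - 2) := by positivity
    unfold ratio
    rw [ENNReal.div_le_iff_le_mul (Or.inl (by
      rw [Ne, ENNReal.ofReal_eq_zero, not_le]
      exact hr')) (Or.inl ENNReal.ofReal_ne_top), ← ENNReal.ofReal_mul hε]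
    rw [ballMass_eq]
    rfl
  constructor
  · intro h ε hε r₀ hr₀
    have h1 : lelong (leb d) d θ p < ENNReal.ofReal ε := by
      rw [h]
      exact ENNReal.ofReal_pos.2 hε
    have h2 : ∃ᶠ r in 𝓝[>] (0 : ℝ), ratio (leb d) d θ p r < ENNReal.ofReal ε :=
      frequently_lt_of_liminf_lt (by isBoundedDefault) h1
    have h3 : ∀ᶠ r in 𝓝[>] (0 : ℝ), r ∈ Ioo (0 : ℝ) r₀ := Ioo_mem_nhdsGT hr₀
    obtain ⟨r, h4, h5⟩ := (h2.and_eventually h3).exists
    exact ⟨r, h5.1, h5.2, (hratio h5.1 hε.le).1 h4.le⟩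
  · intro h
    refine le_antisymm (le_of_forall_pos_le_add fun ε hε => ?_) bot_le
    rw [zero_add]
    rcases eq_or_ne ε ⊤ with rfl | hεt
    · exact le_top
    have hε' : 0 < ε.toReal := ENNReal.toReal_pos hε.ne' hεt
    refine liminf_le_of_frequently_le' ?_
    rw [Filter.frequently_iff]
    intro U hU
    obtain ⟨r₀, hr₀, hr₀U⟩ := mem_nhdsGT_iff_exists_Ioo_subset.1 hU
    obtain ⟨r, hr, hrr, hm⟩ := h ε.toReal hε' r₀ hr₀
    refine ⟨r, hr₀U ⟨hr, hrr⟩, ?_⟩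
    have h1 := (hratio hr hε'.le).2 hm
    rwa [ENNReal.ofReal_toReal hεt] at h1

theorem bounded_iff (θ : Form (ES d) X 2) :
    BoundedDensity (leb d) d θ ↔ H819.LN.BoundedDensity (d := d) (X := X) θ := by
  constructor
  · intro h x₀ N hN hNt
    obtain ⟨r₀, D, hr₀, h1⟩ := h x₀ N ⟨hN, hNt⟩
    refine ⟨r₀, hr₀, max D 0, le_max_right _ _, fun z hz s hs hss => ?_⟩
    have h2 := h1 z hz s hs hss
    rw [ballMass_eq] at h2
    refine h2.trans (ENNReal.ofReal_le_ofReal ?_)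
    have h3 : 0 ≤ s ^ (d - 2) := by positivity
    exact mul_le_mul_of_nonneg_right (le_max_left _ _) h3
  · intro h x₀ N hN
    obtain ⟨r₀, hr₀, D, -, h1⟩ := h x₀ N hN.1 hN.2
    refine ⟨r₀, D, hr₀, fun z hz r hr hrr => ?_⟩
    rw [ballMass_eq]
    exact h1 z hz r hr hrr

theorem cont_of {J : End (ES d) X} (hJ : IsAlmostComplex J) (x₀ : X) :
    ContinuousOn (Y501.SY.inChart (d := d) (X := X) J x₀) (chartAt (Y501.SY.E d) x₀).target := by
  rw [continuousOn_clm_apply]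
  intro v
  exact hJ.cont x₀ v

theorem result_aux (hd : 2 ≤ d) [IsManifold 𝓘(ℝ, ES d) ∞ X] [CompactSpace X] [T2Space X]
    {J : End (ES d) X} (hJ : IsAlmostComplex J) {σ₀ : Form (ES d) X 2} (hσ : IsSmooth σ₀)
    (hcl : IsClosedForm σ₀) :
    (LocHolder J 1 →
      (∀ θ, Represents (leb d) σ₀ θ → StronglyTames (leb d) θ J → BoundedDensity (leb d) d θ) ∧
      (TamedIn σ₀ J ↔ ∃ θ, Represents (leb d) σ₀ θ ∧ StronglyTames (leb d) θ J ∧
        ∀ p, lelong (leb d) d θ p = 0)) ∧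
    (C1End J →
      (TamedIn σ₀ J ↔ ∃ θ, Represents (leb d) σ₀ θ ∧ StronglyTames (leb d) θ J ∧
        ∃ S : Set X, IsClosed S ∧ IsTotallyDisconnected S ∧
          ∀ p, p ∉ S → lelong (leb d) d θ p = 0)) := by
  have hm : IsManifold (𝓡 d) ∞ X := (inferInstance : IsManifold 𝓘(ℝ, ES d) ∞ X)
  have h1 := H819.LN.lelong_criterion (d := d) (X := X) hd hJ.sq (cont_of hJ)
    ((smooth_iff σ₀).1 hσ) ((closed_iff σ₀).1 hcl)
  simp only [tamed_iff, rep_iff, strong_iff, holder_iff, lelong_iff, bounded_iff]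
  exact h1

end Pool.Agent.H819.LNP
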